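import Pool.Agent.H.MP_fc7d68_al.Comp2

/-!
The reduction from the halting problem.
-/

set_option linter.unusedSimpArgs false
set_option linter.unusedSectionVars false
set_option synthInstance.maxSize 1000

namespace Pool.Agent.H.MP_fc7d68_al

open Turing PartrecToTM2 ToPartrec

/-- digit symbols -/
def dsym (b : Bool) : Γ' := cond b Γ'.bit1 Γ'.bit0

theorem trPosNum_eq (p : PosNum) : trPosNum p = (Nat.bits (p : ℕ)).map dsym := by
  induction p with
  | one => simp [trPosNum, dsym]
  | bit0 n ih =>
    have h : ((PosNum.bit0 n : PosNum) : ℕ) = 2 * (n : ℕ) := by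
      rw [PosNum.cast_bit0]; ring
    have hn : (n : ℕ) ≠ 0 := (PosNum.cast_pos n).ne'
    rw [h, Nat.bit0_bits _ hn, trPosNum, ih]
    rfl
  | bit1 n ih =>
    have h : ((PosNum.bit1 n : PosNum) : ℕ) = 2 * (n : ℕ) + 1 := by
      rw [PosNum.cast_bit1]; ring
    rw [h, Nat.bit1_bits, trPosNum, ih]
    rfl

theorem trNat_eq (n : ℕ) : trNat n = (Nat.bits n).map dsym := by
  have h : ((n : Num) : ℕ) = n := Num.to_of_nat n
  rw [trNat]
  generalize (n : Num) = k at h
  subst h
  cases k with
  | zero => simp [trNum]
  | pos p => exact trPosNum_eq p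

/-- first tape letter -/
noncomputable def g0 : GG := (true, Function.update (fun _ => none) K'.main (some Γ'.cons))
/-- tape letter of a digit -/
noncomputable def g1 (b : Bool) : GG :=
  (false, Function.update (fun _ => none) K'.main (some (dsym b)))

theorem trInit_eq (m : ℕ) : (TM2to1.trInit K'.main (trList [m]) : List GG) =
    g0 :: (Nat.bits m).reverse.map g1 := by
  rw [TM2to1.trInit, trList, trNat_eq, trList]
  simp only [List.reverse_append, List.reverse_cons, List.reverse_nil, List.nil_append,
    List.map_append, List.map_cons, List.map_nil, List.singleton_append, List.headI_cons,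
    List.tail_cons, List.map_reverse, List.map_map]
  rfl

section

variable {Q : Type} [Inhabited Q]

/-- length of the input word -/
def rlen (m : ℕ) : ℕ := (Nat.bits m).length + 1

/-- letters of the input word -/
theorem w0_eq (m j : ℕ) : (w0 (g0 :: (Nat.bits m).reverse.map g1) j : LL GG Q) =
    (some (g0, some default) :: (Nat.bits m).reverse.map fun b => some (g1 b, none)).getD j blk := by
  rw [w0]
  rcases j with _ | j
  · simp
  · rw [List.getI_cons_succ, List.getD_cons_succ, if_neg (Nat.succ_ne_zero j)]
    by_cases hj : j < (Nat.bits m).length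
    · rw [List.getI_eq_getElem _ (by simpa using hj), List.getD_eq_getElem _ _ (by simpa using hj)]
      simp
    · rw [List.getI_eq_default _ (by simpa using hj), List.getD_eq_default _ _ (by simpa using hj)]

variable [DecidableEq (LL GG Q)] [Fintype (LL GG Q)]

/-- numeric letters of the input word -/
noncomputable def wnum (Q : Type) [Inhabited Q] [Fintype (LL GG Q)] (m : ℕ) : List ℕ :=
  (eL (some (g0, some default) : LL GG Q) : ℕ) ::
    (Nat.bits m).reverse.map fun b => (eL (some (g1 b, none) : LL GG Q) : ℕ)

theorem wnum_getD (m j : ℕ) : (wnum Q m).getD j (eL (blk : LL GG Q)) =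
    (eL (w0 (g0 :: (Nat.bits m).reverse.map g1) j : LL GG Q) : ℕ) := by
  rw [w0_eq]
  have h : wnum Q m = (some (g0, some default) ::
      (Nat.bits m).reverse.map fun b => (some (g1 b, none) : LL GG Q)).map
        fun a => (eL a : ℕ) := by
    simp [wnum, List.map_map]
  rw [h]
  exact List.getD_map _ blk (fun a => (eL a : ℕ))

theorem prim_wnum : Primrec (wnum Q) := by
  unfold wnum
  refine Primrec.list_cons.comp (.const _) ?_
  refine Primrec.list_map (Primrec.list_reverse.comp prim_bits) ?_
  exact ((Primrec.dom_bool fun b => (eL (some (g1 b, none) : LL GG Q) : ℕ)).comp Primrec.snd)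

theorem prim_rlen : Primrec rlen :=
  Primrec.succ.comp (Primrec.list_length.comp prim_bits)

variable (F : LL GG Q × LL GG Q × LL GG Q → Option (LL GG Q))

/-- the module attached to an input -/
noncomputable def red (m : ℕ) : ModCode :=
  mc (L := LL GG Q) none blk (rlen m) F (w0 (g0 :: (Nat.bits m).reverse.map g1))

theorem red_eq (m : ℕ) : red F m =
    (ng (LL GG Q) (rlen m), relsCode (nv (LL GG Q)) (ng (LL GG Q) (rlen m))
      (nfix none blk F ++ (List.range (rlen m + 1)).flatMap fun i =>
        nI (qq (LL GG Q)) (pp (LL GG Q)) (lett (LL GG Q)) (rlen m) i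
          ((wnum Q m).getD i (eL (blk : LL GG Q))))) := by
  simp only [wnum_getD]
  rw [red, mc, map_EE_eq]

theorem prim_red : Primrec (red F) := by
  have hg : Primrec fun m => ng (LL GG Q) (rlen m) := by
    change Primrec fun m => 4 * pp (LL GG Q) + 2 * rlen m + 4
    exact Primrec.nat_add.comp (Primrec.nat_add.comp (.const _)
      (Primrec.nat_mul.comp (.const 2) prim_rlen)) (.const 4)
  have h : red F = fun m => (ng (LL GG Q) (rlen m), relsCode (nv (LL GG Q)) (ng (LL GG Q) (rlen m))
      (nfix none blk F ++ (List.range (rlen m + 1)).flatMap fun i =>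
        nI (qq (LL GG Q)) (pp (LL GG Q)) (lett (LL GG Q)) (rlen m) i
          ((wnum Q m).getD i (eL (blk : LL GG Q))))) := funext (red_eq F)
  rw [h]
  refine hg.pair (prim_relsCode _ hg ?_)
  refine Primrec.list_append.comp (.const _) ?_
  refine Primrec.list_flatMap (Primrec.list_range.comp (Primrec.succ.comp prim_rlen)) ?_
  refine prim_nI _ _ _ (prim_rlen.comp Primrec.fst) Primrec.snd ?_
  exact (Primrec.list_getD _).comp (prim_wnum.comp Primrec.fst) Primrec.snd

end

/-- The reduction: a fixed ring, and modules computed from programs, independent of the field. -/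
theorem exists_reduction : ∃ (c : RingCode) (f : Nat.Partrec.Code → ModCode), Computable f ∧
    ∀ (K : Type*) [Field K] (p : Nat.Partrec.Code), Admissible K c (f p) ∧
      (RegZero K c (f p) ↔ ¬ (p.eval 0).Dom) := by
  classical
  -- a program for the universal function
  have huniv : Partrec fun n : ℕ => ((Nat.Partrec.Code.eval (Denumerable.ofNat _ n) 0) : Part ℕ) :=
    Nat.Partrec.Code.eval_part.comp (Computable.ofNat _) (Computable.const 0)
  obtain ⟨c0, hc0⟩ : ∃ c0 : Code, ∀ m : ℕ, (c0.eval [m]).Dom ↔
      (Nat.Partrec.Code.eval (Denumerable.ofNat _ m) 0).Dom := by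
    have h1 : Nat.Partrec' (n := 1) fun v =>
        ((Nat.Partrec.Code.eval (Denumerable.ofNat _ v.head) 0) : Part ℕ) :=
      Nat.Partrec'.part_iff₁.2 huniv
    obtain ⟨c0, hc0⟩ := Turing.ToPartrec.Code.exists_code h1
    refine ⟨c0, fun m => ?_⟩
    have h2 := hc0 ⟨[m], rfl⟩
    have h3 : c0.eval [m] = pure <$>
      ((Nat.Partrec.Code.eval (Denumerable.ofNat _ m) 0) : Part ℕ) := h2
    rw [h3]
    rfl
  obtain ⟨Q, i1, i2, M, hM⟩ := exists_machine c0
  have : Fintype Q := Fintype.ofFinite Q
  refine ⟨rc (LL GG Q), fun p => red (FF M) (Encodable.encode p), ?_, fun K _ p => ?_⟩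
  · exact ((prim_red (FF M)).comp Primrec.encode).to_comp
  · refine ⟨admissible_mc _ _ _ _ _ K, ?_⟩
    change RegZero K (rc (LL GG Q)) (mc (L := LL GG Q) none blk (rlen (Encodable.encode p)) (FF M)
      (w0 (g0 :: (Nat.bits (Encodable.encode p)).reverse.map g1))) ↔ _
    rw [regZero_iff, zinj_iff]
    · rw [← trInit_eq, hM, hc0, Denumerable.ofNat_encode]
    · simp [rlen]
    · simp [rlen]

end Pool.Agent.H.MP_fc7d68_al
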