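import Pool.Agent.H.MP_fc7d68_al.Dual

/-!
Weighted letter-to-letter transducers and the kernel equations they encode.
-/

set_option linter.unusedSimpArgs false
set_option linter.unusedSectionVars false
set_option linter.unusedFintypeInType false

namespace Pool.Agent.H.MP_fc7d68_al

/-- `W`-letters -/
inductive WL (L : Type) where
  | w0 : WL L
  | we : WL L
  | wa : L → WL L
  deriving DecidableEq, Fintype

/-- `V`-letters -/
inductive VL (L : Type) where
  | vs : VL L
  | v0 : VL L
  | ve : VL L
  | vb : L → VL L
  deriving DecidableEq, Fintype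

/-- index set of the degree-one part: start, states, (letter, state) pairs, end states -/
abbrev I1 (L N : Type) := Unit ⊕ N ⊕ (L × N) ⊕ N

/-- index set of the degree-zero part: two copies of the states and the outputs -/
abbrev I0 (N O : Type) := N ⊕ N ⊕ O

section

variable {K : Type*} [Field K] {L N O : Type} [DecidableEq L] [DecidableEq N] [DecidableEq O]
  [Fintype L] [Fintype N] [Fintype O]

variable (K) in
/-- action of the `W`-letters -/
def phiW : WL L → Matrix (I1 L N) (I0 N O) K
  | .w0 => Matrix.of fun
    | .inr (.inl n), .inr (.inl n') => if n = n' then 1 else 0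
    | _, _ => 0
  | .we => Matrix.of fun
    | .inr (.inr (.inr n)), .inl n' => if n = n' then 1 else 0
    | _, _ => 0
  | .wa a => Matrix.of fun
    | .inr (.inr (.inl (a', n))), .inl n' => if a' = a ∧ n = n' then 1 else 0
    | _, _ => 0

/-- action of the `V`-letters -/
def phiV (γ : N → K) (T : N → L → L → N → K) (Λ : N → O → K) :
    VL L → Matrix (I1 L N) (I0 N O) K
  | .vs => Matrix.of fun
    | .inl _, .inr (.inl n) => γ n
    | _, _ => 0
  | .v0 => Matrix.of fun
    | .inr (.inl n), .inl n' => if n = n' then 1 else 0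
    | _, _ => 0
  | .ve => Matrix.of fun
    | .inr (.inr (.inr n)), .inr (.inr o) => Λ n o
    | _, _ => 0
  | .vb b => Matrix.of fun
    | .inr (.inr (.inl (a, n))), .inr (.inl n1) => T n a b n1
    | _, _ => 0

/-- start index -/
abbrev iS : I1 L N := .inl ()
/-- state index -/
abbrev iN (n : N) : I1 L N := .inr (.inl n)
/-- transition index -/
abbrev iT (a : L) (n : N) : I1 L N := .inr (.inr (.inl (a, n)))
/-- end index -/
abbrev iE (n : N) : I1 L N := .inr (.inr (.inr n))

/-- the kernel equations in explicit form -/
structure KE (γ : N → K) (T : N → L → L → N → K) (Λ : N → O → K)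
    (ξ : List (VL L) → List (WL L) → I1 L N → K) : Prop where
  tr_nil : ∀ w a n, ξ [] w (iT a n) = 0
  tr_v0 : ∀ u w a n, ξ (.v0 :: u) w (iT a n) = - ξ u (.wa a :: w) (iN n)
  tr_ne : ∀ y u w a n, y ≠ .v0 → ξ (y :: u) w (iT a n) = 0
  en_nil : ∀ w n, ξ [] w (iE n) = 0
  en_v0 : ∀ u w n, ξ (.v0 :: u) w (iE n) = - ξ u (.we :: w) (iN n)
  en_ne : ∀ y u w n, y ≠ .v0 → ξ (y :: u) w (iE n) = 0
  st_nil : ∀ w n, ξ [] w (iN n) = 0
  st_vs : ∀ u w n, ξ (.vs :: u) w (iN n) = - (γ n * ξ u (.w0 :: w) iS)
  st_vb : ∀ b u w n, ξ (.vb b :: u) w (iN n) =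
    - ∑ a, ∑ n0, T n0 a b n * ξ u (.w0 :: w) (iT a n0)
  st_v0 : ∀ u w n, ξ (.v0 :: u) w (iN n) = 0
  st_ve : ∀ u w n, ξ (.ve :: u) w (iN n) = 0
  c_w0 : ∀ u w n, ξ u (.w0 :: w) (iN n) = 0
  c_nil : ∀ u n, ξ u [] (iN n) = 0
  g_ne : ∀ u x w n, x ≠ .w0 → γ n * ξ u (x :: w) iS = 0
  g_nil : ∀ u n, γ n * ξ u [] iS = 0
  t_ne : ∀ u x w b n, x ≠ .w0 → ∑ a, ∑ n0, T n0 a b n * ξ u (x :: w) (iT a n0) = 0
  t_nil : ∀ u b n, ∑ a, ∑ n0, T n0 a b n * ξ u [] (iT a n0) = 0
  o_eq : ∀ u w o, ∑ n, Λ n o * ξ u w (iE n) = 0

theorem kerEq_iff (γ : N → K) (T : N → L → L → N → K) (Λ : N → O → K)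
    (ξ : List (VL L) → List (WL L) → I1 L N → K) :
    KerEq (phiW K) (phiV γ T Λ) ξ ↔ KE γ T Λ ξ := by
  constructor
  · intro h
    constructor
    · intro w a n
      simpa [phiW, Fintype.sum_prod_type, ite_and] using h.left_nil w (.wa a) (.inl n)
    · intro u w a n
      have := h.both u .v0 w (.wa a) (.inl n)
      simp [phiW, phiV, Fintype.sum_prod_type, ite_and] at this
      exact eq_neg_of_add_eq_zero_left this
    · intro y u w a n hy
      have := h.both u y w (.wa a) (.inl n)
      cases y <;> first | exact absurd rfl hy |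
        simpa [phiW, phiV, Fintype.sum_prod_type, ite_and] using this
    · intro w n
      simpa [phiW, Fintype.sum_prod_type, ite_and] using h.left_nil w .we (.inl n)
    · intro u w n
      have := h.both u .v0 w .we (.inl n)
      simp [phiW, phiV, Fintype.sum_prod_type, ite_and] at this
      exact eq_neg_of_add_eq_zero_left this
    · intro y u w n hy
      have := h.both u y w .we (.inl n)
      cases y <;> first | exact absurd rfl hy |
        simpa [phiW, phiV, Fintype.sum_prod_type, ite_and] using this
    · intro w n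
      simpa [phiW, Fintype.sum_prod_type, ite_and] using h.left_nil w .w0 (.inr (.inl n))
    · intro u w n
      have := h.both u .vs w .w0 (.inr (.inl n))
      simp [phiW, phiV, Fintype.sum_prod_type, ite_and] at this
      exact eq_neg_of_add_eq_zero_left this
    · intro b u w n
      have := h.both u (.vb b) w .w0 (.inr (.inl n))
      simp [phiW, phiV, Fintype.sum_prod_type, ite_and] at this
      exact eq_neg_of_add_eq_zero_left this
    · intro u w n
      have := h.both u .v0 w .w0 (.inr (.inl n))
      simpa [phiW, phiV, Fintype.sum_prod_type, ite_and] using this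
    · intro u w n
      have := h.both u .ve w .w0 (.inr (.inl n))
      simpa [phiW, phiV, Fintype.sum_prod_type, ite_and] using this
    · intro u w n
      have := h.both u .v0 w .w0 (.inl n)
      simpa [phiW, phiV, Fintype.sum_prod_type, ite_and] using this
    · intro u n
      have := h.right_nil u .v0 (.inl n)
      simpa [phiW, phiV, Fintype.sum_prod_type, ite_and] using this
    · intro u x w n hx
      have := h.both u .vs w x (.inr (.inl n))
      cases x <;> first | exact absurd rfl hx |
        simpa [phiW, phiV, Fintype.sum_prod_type, ite_and] using this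
    · intro u n
      have := h.right_nil u .vs (.inr (.inl n))
      simpa [phiW, phiV, Fintype.sum_prod_type, ite_and] using this
    · intro u x w b n hx
      have := h.both u (.vb b) w x (.inr (.inl n))
      cases x <;> first | exact absurd rfl hx |
        simpa [phiW, phiV, Fintype.sum_prod_type, ite_and] using this
    · intro u b n
      have := h.right_nil u (.vb b) (.inr (.inl n))
      simpa [phiW, phiV, Fintype.sum_prod_type, ite_and] using this
    · intro u w o
      cases w with
      | nil =>
        have := h.right_nil u .ve (.inr (.inr o))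
        simpa [phiW, phiV, Fintype.sum_prod_type, ite_and] using this
      | cons x w =>
        have := h.both u .ve w x (.inr (.inr o))
        cases x <;> simpa [phiW, phiV, Fintype.sum_prod_type, ite_and] using this
  · intro h
    constructor
    · intro u y w x ν
      rcases ν with n | n | o
      · cases x <;> cases y <;> simp [phiW, phiV, Fintype.sum_prod_type, ite_and, h.tr_v0,
          h.tr_ne, h.en_v0, h.en_ne, h.c_w0]
      · cases x
        · cases y <;> simp [phiW, phiV, Fintype.sum_prod_type, ite_and, h.st_vs, h.st_vb, h.st_v0,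
            h.st_ve]
        · cases y
          · simpa [phiW, phiV, Fintype.sum_prod_type, ite_and] using
              h.g_ne u .we w n (by simp)
          · simp [phiW, phiV, Fintype.sum_prod_type, ite_and]
          · simp [phiW, phiV, Fintype.sum_prod_type, ite_and]
          · simpa [phiW, phiV, Fintype.sum_prod_type, ite_and] using
              h.t_ne u .we w _ n (by simp)
        · cases y
          · simpa [phiW, phiV, Fintype.sum_prod_type, ite_and] using
              h.g_ne u (.wa _) w n (by simp)
          · simp [phiW, phiV, Fintype.sum_prod_type, ite_and]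
          · simp [phiW, phiV, Fintype.sum_prod_type, ite_and]
          · simpa [phiW, phiV, Fintype.sum_prod_type, ite_and] using
              h.t_ne u (.wa _) w _ n (by simp)
      · cases x <;> cases y <;> simp [phiW, phiV, Fintype.sum_prod_type, ite_and, h.o_eq]
    · intro u y ν
      rcases ν with n | n | o
      · cases y <;> simp [phiW, phiV, Fintype.sum_prod_type, ite_and, h.c_nil]
      · cases y
        · simpa [phiW, phiV, Fintype.sum_prod_type, ite_and] using h.g_nil u n
        · simp [phiW, phiV, Fintype.sum_prod_type, ite_and]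
        · simp [phiW, phiV, Fintype.sum_prod_type, ite_and]
        · simpa [phiW, phiV, Fintype.sum_prod_type, ite_and] using h.t_nil u _ n
      · cases y <;> simp [phiW, phiV, Fintype.sum_prod_type, ite_and, h.o_eq]
    · intro w x ν
      rcases ν with n | n | o
      · cases x <;> simp [phiW, phiV, Fintype.sum_prod_type, ite_and, h.tr_nil, h.en_nil]
      · cases x <;> simp [phiW, phiV, Fintype.sum_prod_type, ite_and, h.st_nil]
      · cases x <;> simp [phiW, phiV, Fintype.sum_prod_type, ite_and]

/-- Running the transducer; lists are read from their last letter. -/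
def Run (γ : N → K) (T : N → L → L → N → K) : List L → (List L → K) → N → K
  | [], G, n => γ n * G []
  | b :: bs, G, n => ∑ a, ∑ n0, T n0 a b n * Run γ T bs (fun as => G (a :: as)) n0

/-- Injectivity of the transduction. -/
def ZInj (γ : N → K) (T : N → L → L → N → K) (Λ : N → O → K) : Prop :=
  ∀ G : List L → K, (∀ b o, ∑ n, Λ n o * Run γ T b G n = 0) → G = 0

/-- `W`-word reading the letters `as` (last letter first in the list) followed by `τ` -/
def preW : List L → List (WL L) → List (WL L)
  | [], τ => τ
  | a :: as, τ => preW as (.w0 :: .wa a :: τ)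

/-- `V`-word written by an output word -/
def encV : List L → List (VL L) → List (VL L)
  | [], u => .vs :: u
  | b :: bs, u => .vb b :: .v0 :: encV bs u

omit [DecidableEq L] [Fintype L] in
theorem preW_append (as : List L) (a : L) (τ : List (WL L)) :
    preW (as ++ [a]) τ = .w0 :: .wa a :: preW as τ := by
  induction as generalizing τ with
  | nil => rfl
  | cons b as ih => exact ih _

theorem run_zero (γ : N → K) (T : N → L → L → N → K) (bs : List L) (n : N) :
    Run γ T bs (fun _ => 0) n = 0 := by
  induction bs generalizing n with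
  | nil => simp [Run]
  | cons b bs ih => simp [Run, ih]

theorem KE.formula {γ : N → K} {T : N → L → L → N → K} {Λ : N → O → K}
    {ξ : List (VL L) → List (WL L) → I1 L N → K} (h : KE γ T Λ ξ) (bs : List L)
    (u0 : List (VL L)) (w : List (WL L)) (n : N) :
    ξ (encV bs u0) w (iN n) = - Run γ T bs (fun as => ξ u0 (preW as (.w0 :: w)) iS) n := by
  induction bs generalizing w n with
  | nil => exact h.st_vs u0 w n
  | cons b bs ih =>
    simp only [encV, h.st_vb, h.tr_v0, ih, Run, neg_neg, mul_neg, neg_neg]
    rfl

/-- words at which the parsing stops -/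
inductive Term : List (WL L) → Prop
  | nil : Term []
  | ne (x : WL L) (τ : List (WL L)) : x ≠ .w0 → Term (x :: τ)
  | w0 : Term [.w0]
  | w00 (τ : List (WL L)) : Term (.w0 :: .w0 :: τ)
  | w0e (τ : List (WL L)) : Term (.w0 :: .we :: τ)

omit [DecidableEq L] [Fintype L] in
theorem exists_preW : ∀ (k : ℕ) (w : List (WL L)), w.length ≤ k →
    ∃ as τ, w = preW as τ ∧ Term τ := by
  intro k
  induction k with
  | zero =>
    intro w hw
    obtain rfl : w = [] := List.length_eq_zero_iff.1 (by omega)
    exact ⟨[], [], rfl, .nil⟩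
  | succ k ih =>
    intro w hw
    match w, hw with
    | [], _ => exact ⟨[], [], rfl, .nil⟩
    | .we :: w, _ => exact ⟨[], _, rfl, .ne _ _ (by simp)⟩
    | .wa a :: w, _ => exact ⟨[], _, rfl, .ne _ _ (by simp)⟩
    | [.w0], _ => exact ⟨[], _, rfl, .w0⟩
    | .w0 :: .w0 :: w, _ => exact ⟨[], _, rfl, .w00 _⟩
    | .w0 :: .we :: w, _ => exact ⟨[], _, rfl, .w0e _⟩
    | .w0 :: .wa a :: w, hw =>
      obtain ⟨as, τ, h, ht⟩ := ih w (by simp only [List.length_cons] at hw; omega)
      exact ⟨as ++ [a], τ, by rw [preW_append, h], ht⟩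

theorem KE.eq_zero {γ : N → K} {T : N → L → L → N → K} {Λ : N → O → K}
    {ξ : List (VL L) → List (WL L) → I1 L N → K} (h : KE γ T Λ ξ) (hZ : ZInj γ T Λ) :
    ξ = 0 := by
  have hs : ∀ u w, ξ u w iS = 0 := by
    intro u0 w
    obtain ⟨as, τ, rfl, ht⟩ := exists_preW _ w le_rfl
    suffices hG : (fun as => ξ u0 (preW as τ) iS) = 0 from congrFun hG as
    apply hZ
    intro b o
    have hne : ∀ (τ : List (WL L)), (∀ n, γ n * ξ u0 τ iS = 0) →
        (∀ u b n, ∑ a, ∑ n0, T n0 a b n * ξ u τ (iT a n0) = 0) →
        ∀ n, Run γ T b (fun as => ξ u0 (preW as τ) iS) n = 0 := by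
      intro τ h1 h2 n
      cases b with
      | nil => exact h1 n
      | cons b bs =>
        rw [← h2 (.v0 :: encV bs u0) b n]
        simp only [Run, h.tr_v0, h.formula, neg_neg, preW]
    cases ht with
    | nil =>
      simp only [hne [] (h.g_nil u0) (fun u => h.t_nil u), mul_zero, Finset.sum_const_zero]
    | ne x τ hx =>
      simp only [hne (x :: τ) (fun n => h.g_ne u0 x τ n hx)
        (fun u b n => h.t_ne u x τ b n hx), mul_zero, Finset.sum_const_zero]
    | w0 =>
      have h1 : ∀ n, Run γ T b (fun as => ξ u0 (preW as [.w0]) iS) n = 0 := by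
        intro n
        rw [← neg_eq_zero, ← h.formula, h.c_nil]
      simp only [h1, mul_zero, Finset.sum_const_zero]
    | w00 τ =>
      have h1 : ∀ n, Run γ T b (fun as => ξ u0 (preW as (.w0 :: .w0 :: τ)) iS) n = 0 := by
        intro n
        rw [← neg_eq_zero, ← h.formula, h.c_w0]
      simp only [h1, mul_zero, Finset.sum_const_zero]
    | w0e τ =>
      have h1 : ∀ n, Run γ T b (fun as => ξ u0 (preW as (.w0 :: .we :: τ)) iS) n =
          ξ (.v0 :: encV b u0) τ (iE n) := by
        intro n
        rw [h.en_v0, h.formula, neg_neg]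
      simp only [h1]
      exact h.o_eq _ _ _
  have hall : ∀ u w, (∀ n, ξ u w (iN n) = 0) ∧ (∀ a n, ξ u w (iT a n) = 0) ∧
      (∀ n, ξ u w (iE n) = 0) := by
    intro u
    induction u with
    | nil => exact fun w => ⟨h.st_nil w, h.tr_nil w, h.en_nil w⟩
    | cons y u ih =>
      intro w
      refine ⟨fun n => ?_, fun a n => ?_, fun n => ?_⟩
      · cases y with
        | vs => rw [h.st_vs, hs, mul_zero, neg_zero]
        | v0 => exact h.st_v0 _ _ _
        | ve => exact h.st_ve _ _ _
        | vb b => simp [h.st_vb, (ih _).2.1]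
      · by_cases hy : y = .v0
        · rw [hy, h.tr_v0, (ih _).1, neg_zero]
        · exact h.tr_ne _ _ _ _ _ hy
      · by_cases hy : y = .v0
        · rw [hy, h.en_v0, (ih _).1, neg_zero]
        · exact h.en_ne _ _ _ _ hy
  funext u w μ
  rcases μ with ⟨⟩ | n | ⟨a, n⟩ | n
  · exact hs u w
  · exact (hall u w).1 n
  · exact (hall u w).2.1 a n
  · exact (hall u w).2.2 n

/-- decoding a full `W`-word -/
def decW : List (WL L) → List L → Option (List L)
  | .w0 :: .wa a :: w, acc => decW w (a :: acc)
  | [.w0, .we], acc => some acc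
  | _, _ => none

omit [DecidableEq L] [Fintype L] in
theorem decW_preW (as : List L) (τ : List (WL L)) (acc : List L) :
    decW (preW as τ) acc = decW τ (as ++ acc) := by
  induction as generalizing τ acc with
  | nil => rfl
  | cons a as ih =>
    rw [preW, ih]
    rfl

/-- the function on `W`-words built from `G` -/
def gOf (G : List L → K) (w : List (WL L)) : K :=
  match decW w [] with
  | some as => G as
  | none => 0

/-- the state part of the kernel element built from `G` -/
def AOf (γ : N → K) (T : N → L → L → N → K) (G : List L → K) :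
    List (VL L) → List (WL L) → N → K
  | [.vs], w, n => - (γ n * gOf G (.w0 :: w))
  | .vb b :: .v0 :: u, w, n => ∑ a, ∑ n0, T n0 a b n * AOf γ T G u (.wa a :: .w0 :: w) n0
  | _, _, _ => 0

theorem AOf_cases (γ : N → K) (T : N → L → L → N → K) (G : List L → K) :
    ∀ (k : ℕ) (u : List (VL L)), u.length ≤ k → (∀ w n, AOf γ T G u w n = 0) ∨
      ∃ bs, u = encV bs [] ∧
        ∀ w n, AOf γ T G u w n = - Run γ T bs (fun as => gOf G (preW as (.w0 :: w))) n := by
  intro k
  induction k with
  | zero =>
    intro u hu
    obtain rfl : u = [] := List.length_eq_zero_iff.1 (by omega)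
    left; intro w n; rfl
  | succ k ih =>
    intro u hu
    match u, hu with
    | [], _ => left; intro w n; rfl
    | [.vs], _ => right; exact ⟨[], rfl, fun w n => rfl⟩
    | .vs :: y :: u, _ => left; intro w n; rfl
    | .v0 :: u, _ => left; intro w n; rfl
    | .ve :: u, _ => left; intro w n; rfl
    | [.vb b], _ => left; intro w n; rfl
    | .vb b :: .vs :: u, _ => left; intro w n; rfl
    | .vb b :: .ve :: u, _ => left; intro w n; rfl
    | .vb b :: .vb b' :: u, _ => left; intro w n; rfl
    | .vb b :: .v0 :: u, hu =>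
      rcases ih u (by simp only [List.length_cons] at hu; omega) with h | ⟨bs, hbs, h⟩
      · left
        intro w n
        simp [AOf, h]
      · right
        refine ⟨b :: bs, by rw [hbs]; rfl, fun w n => ?_⟩
        simp only [AOf, h, Run, mul_neg, Finset.sum_neg_distrib]
        rfl

/-- the kernel element built from `G` -/
def xiOf (γ : N → K) (T : N → L → L → N → K) (G : List L → K) :
    List (VL L) → List (WL L) → I1 L N → K
  | [], w, .inl _ => gOf G w
  | _ :: _, _, .inl _ => 0
  | u, w, .inr (.inl n) => AOf γ T G u w n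
  | .v0 :: u, w, .inr (.inr (.inl (a, n))) => - AOf γ T G u (.wa a :: w) n
  | .v0 :: u, w, .inr (.inr (.inr n)) => - AOf γ T G u (.we :: w) n
  | _, _, _ => 0

theorem xiOf_iN (γ : N → K) (T : N → L → L → N → K) (G : List L → K) (u : List (VL L))
    (w : List (WL L)) (n : N) : xiOf γ T G u w (iN n) = AOf γ T G u w n := by
  match u with
  | [] => rfl
  | .vs :: u => rfl
  | .v0 :: u => rfl
  | .ve :: u => rfl
  | .vb b :: u => rfl

theorem KE_xiOf (γ : N → K) (T : N → L → L → N → K) (Λ : N → O → K) (G : List L → K)
    (hG : ∀ b o, ∑ n, Λ n o * Run γ T b G n = 0) : KE γ T Λ (xiOf γ T G) := by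
  have hA0 : ∀ u (w : List (WL L)) (hw : ∀ acc, decW (.w0 :: w) acc = none) n,
      AOf γ T G u w n = 0 := by
    intro u w hw n
    rcases AOf_cases γ T G _ u le_rfl with h | ⟨bs, -, h⟩
    · exact h w n
    · rw [h]
      have : (fun as => gOf G (preW as (.w0 :: w))) = fun _ => 0 := by
        funext as
        rw [gOf, decW_preW, hw]
      rw [this, run_zero, neg_zero]
  constructor
  · intro w a n; rfl
  · intro u w a n; rw [xiOf_iN]; rfl
  · intro y u w a n hy
    cases y <;> first | exact absurd rfl hy | rfl
  · intro w n; rfl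
  · intro u w n; rw [xiOf_iN]; rfl
  · intro y u w n hy
    cases y <;> first | exact absurd rfl hy | rfl
  · intro w n; rfl
  · intro u w n
    rw [xiOf_iN]
    cases u with
    | nil => rfl
    | cons y u =>
      have h1 : AOf γ T G (.vs :: y :: u) w n = 0 := rfl
      have h2 : xiOf γ T G (y :: u) (.w0 :: w) iS = 0 := by cases y <;> rfl
      rw [h1, h2, mul_zero, neg_zero]
  · intro b u w n
    rw [xiOf_iN]
    match u with
    | [] =>
      have h1 : AOf γ T G [.vb b] w n = 0 := rfl
      have h2 : ∀ a n0, xiOf γ T G [] (.w0 :: w) (iT a n0) = 0 := fun _ _ => rfl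
      simp [h1, h2]
    | .vs :: u =>
      have h1 : AOf γ T G (.vb b :: .vs :: u) w n = 0 := rfl
      have h2 : ∀ a n0, xiOf γ T G (.vs :: u) (.w0 :: w) (iT a n0) = 0 := fun _ _ => rfl
      simp [h1, h2]
    | .ve :: u =>
      have h1 : AOf γ T G (.vb b :: .ve :: u) w n = 0 := rfl
      have h2 : ∀ a n0, xiOf γ T G (.ve :: u) (.w0 :: w) (iT a n0) = 0 := fun _ _ => rfl
      simp [h1, h2]
    | .vb b' :: u =>
      have h1 : AOf γ T G (.vb b :: .vb b' :: u) w n = 0 := rfl
      have h2 : ∀ a n0, xiOf γ T G (.vb b' :: u) (.w0 :: w) (iT a n0) = 0 := fun _ _ => rfl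
      simp [h1, h2]
    | .v0 :: u =>
      have h2 : ∀ a n0, xiOf γ T G (.v0 :: u) (.w0 :: w) (iT a n0) =
        - AOf γ T G u (.wa a :: .w0 :: w) n0 := fun _ _ => rfl
      simp only [h2, mul_neg, Finset.sum_neg_distrib, neg_neg]
      rfl
  · intro u w n; rw [xiOf_iN]; rfl
  · intro u w n; rw [xiOf_iN]; rfl
  · intro u w n
    rw [xiOf_iN]
    exact hA0 u _ (fun acc => rfl) n
  · intro u n
    rw [xiOf_iN]
    exact hA0 u _ (fun acc => rfl) n
  · intro u x w n hx
    cases u with
    | nil =>
      have : xiOf γ T G [] (x :: w) iS = 0 := by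
        cases x <;> first | exact absurd rfl hx | rfl
      rw [this, mul_zero]
    | cons y u =>
      have : xiOf γ T G (y :: u) (x :: w) iS = 0 := by cases y <;> rfl
      rw [this, mul_zero]
  · intro u n
    cases u with
    | nil =>
      have : xiOf γ T G [] [] iS = 0 := rfl
      rw [this, mul_zero]
    | cons y u =>
      have : xiOf γ T G (y :: u) [] iS = 0 := by cases y <;> rfl
      rw [this, mul_zero]
  · intro u x w b n hx
    apply Finset.sum_eq_zero
    intro a _
    apply Finset.sum_eq_zero
    intro n0 _
    have : xiOf γ T G u (x :: w) (iT a n0) = 0 := by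
      match u with
      | [] => rfl
      | .vs :: u => rfl
      | .ve :: u => rfl
      | .vb b :: u => rfl
      | .v0 :: u =>
        have h1 : xiOf γ T G (.v0 :: u) (x :: w) (iT a n0) =
          - AOf γ T G u (.wa a :: x :: w) n0 := rfl
        rw [h1, hA0, neg_zero]
        intro acc
        cases x <;> first | exact absurd rfl hx | rfl
    rw [this, mul_zero]
  · intro u b n
    apply Finset.sum_eq_zero
    intro a _
    apply Finset.sum_eq_zero
    intro n0 _
    have : xiOf γ T G u [] (iT a n0) = 0 := by
      match u with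
      | [] => rfl
      | .vs :: u => rfl
      | .ve :: u => rfl
      | .vb b :: u => rfl
      | .v0 :: u =>
        have h1 : xiOf γ T G (.v0 :: u) [] (iT a n0) =
          - AOf γ T G u [.wa a] n0 := rfl
        rw [h1, hA0, neg_zero]
        intro acc
        rfl
    rw [this, mul_zero]
  · intro u w o
    match u with
    | [] => exact Finset.sum_eq_zero fun n _ => mul_zero _
    | .vs :: u => exact Finset.sum_eq_zero fun n _ => mul_zero _
    | .ve :: u => exact Finset.sum_eq_zero fun n _ => mul_zero _
    | .vb b :: u => exact Finset.sum_eq_zero fun n _ => mul_zero _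
    | .v0 :: u =>
      have h1 : ∀ n, xiOf γ T G (.v0 :: u) w (iE n) = - AOf γ T G u (.we :: w) n := fun _ => rfl
      simp only [h1]
      cases w with
      | cons x w =>
        apply Finset.sum_eq_zero
        intro n _
        rw [hA0, neg_zero, mul_zero]
        intro acc
        rfl
      | nil =>
        rcases AOf_cases γ T G _ u le_rfl with h | ⟨bs, -, h⟩
        · simp [h]
        · simp only [h, neg_neg]
          have : (fun as => gOf G (preW as [.w0, .we])) = G := by
            funext as
            rw [gOf, decW_preW]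
            simp [decW]
          rw [this]
          exact hG bs o

theorem ker_trivial_iff (γ : N → K) (T : N → L → L → N → K) (Λ : N → O → K) :
    (∀ ξ, KerEq (phiW K) (phiV γ T Λ) ξ → ξ = 0) ↔ ZInj γ T Λ := by
  constructor
  · intro h G hG
    have h1 := h (xiOf γ T G) ((kerEq_iff γ T Λ _).2 (KE_xiOf γ T Λ G hG))
    funext as
    have h2 := congrFun (congrFun (congrFun h1 []) (preW as [.w0, .we])) iS
    have h3 : xiOf γ T G [] (preW as [.w0, .we]) iS = gOf G (preW as [.w0, .we]) := rfl
    rw [h3, gOf, decW_preW] at h2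
    simpa [decW] using h2
  · intro h ξ hξ
    exact ((kerEq_iff γ T Λ ξ).1 hξ).eq_zero h

end

end Pool.Agent.H.MP_fc7d68_al
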