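import Pool.Agent.H.MP_fc7d68_al.Inst5

/-!
Numeric form of the instance, and its computability.
-/

set_option linter.unusedSimpArgs false
set_option linter.unusedSectionVars false
set_option synthInstance.maxSize 1000

namespace Pool.Agent.H.MP_fc7d68_al

/-- numeric entries attached to the `i`-th input state, the input letter there being `a` -/
def nI (q p : ℕ) (A : List ℕ) (r i a : ℕ) : List NEnt :=
  ((2 * q + 3, 2 + 2 * (2 * p + i)), -1, (q, 3 + 2 * (2 * p + i))) ::
  ((q, 3 + 2 * (2 * p + i)), -1, (q, 3 + 2 * (2 * p + i))) ::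
  ((q + 1, 2 + 2 * (2 * p + i)), -1, (q + 1, 2 + 2 * (2 * p + i))) ::
  ((if i = r then [((2 * q + 4, 0), 1, (q + 1, 2 + 2 * (2 * p + i)))] else []) ++
    A.flatMap fun b => ((b, 2 + 2 * (2 * p + i)), -1, (b, 2 + 2 * (2 * p + i))) ::
      (if b = a then [((q + 2 + b, 3 + 2 * (2 * p + min (i + 1) r)), -1,
        (b, 2 + 2 * (2 * p + i)))] else []))

section

variable {L : Type} [DecidableEq L] [Fintype L] (x z : L) (r : ℕ) (F : L × L × L → Option L)
  (f0 : ℕ → L)

/-- numeric entries of a basis element -/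
noncomputable def mkE (μ : I1 L (NN L r)) : List NEnt :=
  (entOf x r z F f0 μ).map fun t => encE (c := rc L) eZ (eG r) (t.1, t.2, defz x r μ)

theorem map_EE : (EE x z r F f0).map (encE (c := rc L) eZ (eG r)) =
    (allmu r).flatMap (mkE x z r F f0) := by
  rw [EE, List.map_flatMap]
  simp only [List.map_map]
  rfl

theorem mkE_inl (f1 : ℕ → L) : mkE x z r F f0 (.inl ()) = mkE x z 0 F f1 (.inl ()) := by
  simp [mkE, entOf, encE, defz, eZ_val, eG_val, zn, gn, sn]

theorem mkE_B (f1 : ℕ → L) (m : L × L × L) :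
    (musOf r (.inl m)).flatMap (mkE x z r F f0) = (musOf 0 (.inl m)).flatMap (mkE x z 0 F f1) := by
  obtain rfl | h := eq_or_ne m (z, z, z)
  · rcases hF : F (z, z, z) with _ | b <;>
    simp [musOf, List.flatMap_map, mkE, entOf, entT, entO, encE, defz, eZ_val, eG_val, zn, gn, sn,
      hF]
  · rcases hF : F m with _ | b <;>
    simp [musOf, List.flatMap_map, mkE, entOf, entT, entO, encE, defz, eZ_val, eG_val, zn, gn, sn,
      hF, h]

theorem mkE_C (f1 : ℕ → L) (m : L × L × L) :
    (musOf r (.inr (.inl m))).flatMap (mkE x z r F f0) =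
      (musOf 0 (.inr (.inl m))).flatMap (mkE x z 0 F f1) := by
  by_cases h : m = (z, z, z) <;>
    simp [musOf, List.flatMap_map, mkE, entOf, entT, entO, encE, defz, eZ_val, eG_val, zn, gn, sn,
      h]

variable (L) in
/-- numeric letters -/
noncomputable def lett : List ℕ := (Finset.univ.toList : List L).map fun a => (eL a : ℕ)

theorem mkE_I (i : Fin (r + 1)) :
    (musOf r (.inr (.inr i))).flatMap (mkE x z r F f0) =
      nI (qq L) (pp L) (lett L) r i (eL (f0 i)) := by
  have h1 : ∀ a : L, ((eL a : ℕ) = eL (f0 i)) ↔ a = f0 i := fun a => by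
    rw [Fin.val_inj, EmbeddingLike.apply_eq_iff_eq]
  have h2 : ∀ a : L, mkE x z r F f0 (.inr (.inr (.inl (a, .inr (.inr i))))) =
      ((((eL a : ℕ), 2 + 2 * (2 * pp L + (i : ℕ))), (-1 : ℤ),
        ((eL a : ℕ), 2 + 2 * (2 * pp L + (i : ℕ)))) : NEnt) ::
      (if (eL a : ℕ) = eL (f0 i) then
        [(((qq L + 2 + (eL a : ℕ), 3 + 2 * (2 * pp L + min ((i : ℕ) + 1) r)), (-1 : ℤ),
        ((eL a : ℕ), 2 + 2 * (2 * pp L + (i : ℕ)))) : NEnt)] else []) := by
    intro a
    rw [mkE, entOf, List.map_cons]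
    by_cases h : a = f0 i
    · rw [if_pos ((h1 a).2 h), entT, if_pos h]
      simp [encE, defz, eZ_val, eG_val, zn, gn, sn, nextFin]
    · rw [if_neg (fun h' => h ((h1 a).1 h')), entT, if_neg h]
      simp [encE, defz, eZ_val, eG_val, zn, gn, sn, nextFin]
  rw [musOf, List.flatMap_cons, List.flatMap_cons, List.flatMap_map]
  simp only [h2]
  rw [nI, lett, List.flatMap_map]
  by_cases h : (i : ℕ) = r <;>
    simp [mkE, entOf, entO, encE, defz, eZ_val, eG_val, zn, gn, sn, h]

/-- the fixed entries -/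
noncomputable def nfix : List NEnt :=
  mkE x z 0 F (fun _ => x) (.inl ()) ++
    (Finset.univ.toList : List (L × L × L)).flatMap fun m =>
      (musOf 0 (.inl m)).flatMap (mkE x z 0 F (fun _ => x)) ++
      (musOf 0 (.inr (.inl m))).flatMap (mkE x z 0 F (fun _ => x))

theorem map_EE_eq : (EE x z r F f0).map (encE (c := rc L) eZ (eG r)) =
    nfix x z F ++ (List.range (r + 1)).flatMap fun i =>
      nI (qq L) (pp L) (lett L) r i (eL (f0 i)) := by
  rw [map_EE, allmu, List.flatMap_cons, List.flatMap_append, List.flatMap_assoc,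
    List.flatMap_assoc, nfix, mkE_inl x z r F f0 (fun _ => x), List.append_assoc]
  simp only [List.flatMap_append, mkE_B x z r F f0 (fun _ => x), mkE_C x z r F f0 (fun _ => x),
    mkE_I]
  rw [← List.map_coe_finRange_eq_range, List.flatMap_map]

end

end Pool.Agent.H.MP_fc7d68_al
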