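import Pool.Agent.H.MP_fc7d68_al.Comp

/-!
Primitive recursiveness of the numeric form of the instance.
-/

set_option linter.unusedSimpArgs false
set_option linter.unusedSectionVars false
set_option synthInstance.maxSize 1000

namespace Pool.Agent.H.MP_fc7d68_al

section

variable {α : Type*} [Primcodable α]

theorem prim_ent {a b c d : α → ℕ} (s : ℤ) (ha : Primrec a) (hb : Primrec b) (hc : Primrec c)
    (hd : Primrec d) : Primrec fun x => (((a x, b x), s, (c x, d x)) : NEnt) :=
  (ha.pair hb).pair ((Primrec.const s).pair (hc.pair hd))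

theorem prim_aff {f : α → ℕ} (k m : ℕ) (hf : Primrec f) :
    Primrec fun x => k + 2 * (m + f x) :=
  Primrec.nat_add.comp (.const k)
    (Primrec.nat_mul.comp (.const 2) (Primrec.nat_add.comp (.const m) hf))

theorem prim_sing {β : Type*} [Primcodable β] {f : α → β} (hf : Primrec f) :
    Primrec fun x => [f x] :=
  Primrec.list_cons.comp hf (.const [])

theorem prim_nI (q p : ℕ) (A : List ℕ) {r i a : α → ℕ} (hr : Primrec r) (hi : Primrec i)
    (ha : Primrec a) : Primrec fun x => nI q p A (r x) (i x) (a x) := by
  have hQ := prim_aff 2 (2 * p) hi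
  have hR := prim_aff 3 (2 * p) hi
  have hm : Primrec fun x => min (i x + 1) (r x) :=
    Primrec.nat_min.comp (Primrec.succ.comp hi) hr
  have hS := prim_aff 3 (2 * p) hm
  unfold nI
  refine Primrec.list_cons.comp (prim_ent (-1) (.const _) hQ (.const _) hR) ?_
  refine Primrec.list_cons.comp (prim_ent (-1) (.const _) hR (.const _) hR) ?_
  refine Primrec.list_cons.comp (prim_ent (-1) (.const _) hQ (.const _) hQ) ?_
  refine Primrec.list_append.comp ?_ ?_
  · exact Primrec.ite (Primrec.eq.comp hi hr)
      (prim_sing (prim_ent 1 (.const _) (.const _) (.const _) hQ)) (.const _)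
  · refine Primrec.list_flatMap (.const A) ?_
    have hb : Primrec fun y : α × ℕ => y.2 := Primrec.snd
    have hQ' : Primrec fun y : α × ℕ => 2 + 2 * (2 * p + i y.1) := hQ.comp Primrec.fst
    have hS' : Primrec fun y : α × ℕ => 3 + 2 * (2 * p + min (i y.1 + 1) (r y.1)) :=
      hS.comp Primrec.fst
    refine Primrec.list_cons.comp (prim_ent (-1) hb hQ' hb hQ') ?_
    refine Primrec.ite (Primrec.eq.comp hb (ha.comp Primrec.fst)) (prim_sing ?_) (.const _)
    exact prim_ent (-1) (Primrec.nat_add.comp (.const (q + 2)) hb) hS' hb hQ'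

theorem prim_relCode {E : α → List NEnt} {z ν : α → ℕ} (hE : Primrec E) (hz : Primrec z)
    (hν : Primrec ν) : Primrec fun x => relCode (E x) (z x) (ν x) := by
  unfold relCode
  refine Primrec.list_cons.comp ?_ ?_
  · exact (Primrec.const (1 : ℤ)).pair ((prim_sing hz).pair hν)
  · refine Primrec.list_map ?_ ?_
    · have hrel : PrimrecRel fun (t : NEnt) (k : ℕ × ℕ) => t.1 = k :=
        Primrec.eq.comp (Primrec.fst.comp Primrec.fst) Primrec.snd
      exact hrel.listFilter.comp hE (hz.pair hν)
    · have h2 : Primrec fun y : α × NEnt => y.2 := Primrec.snd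
      have h3 : Primrec fun y : α × NEnt => y.2.2.1 := Primrec.fst.comp (Primrec.snd.comp h2)
      have h4 : Primrec fun y : α × NEnt => y.2.2.2 := Primrec.snd.comp (Primrec.snd.comp h2)
      exact h3.pair ((prim_sing (Primrec.fst.comp h4)).pair (Primrec.snd.comp h4))

theorem prim_relsCode (n : ℕ) {g : α → ℕ} {E : α → List NEnt} (hg : Primrec g)
    (hE : Primrec E) : Primrec fun x => relsCode n (g x) (E x) := by
  unfold relsCode
  refine Primrec.list_append.comp ?_ ?_
  · refine Primrec.list_flatMap (.const _) ?_
    refine Primrec.list_map (Primrec.list_range.comp (hg.comp Primrec.fst)) ?_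
    exact prim_relCode (hE.comp (Primrec.fst.comp Primrec.fst)) (Primrec.snd.comp Primrec.fst)
      Primrec.snd
  · refine Primrec.list_flatMap (.const _) ?_
    refine Primrec.list_flatMap (.const _) ?_
    refine Primrec.list_map (Primrec.list_range.comp (hg.comp (Primrec.fst.comp Primrec.fst))) ?_
    have h1 : Primrec fun y : ((α × ℕ) × ℕ) × ℕ => y.1.1.2 :=
      Primrec.snd.comp (Primrec.fst.comp Primrec.fst)
    have h2 : Primrec fun y : ((α × ℕ) × ℕ) × ℕ => y.1.2 := Primrec.snd.comp Primrec.fst
    have h3 : Primrec fun y : ((α × ℕ) × ℕ) × ℕ => y.2 := Primrec.snd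
    exact prim_sing ((Primrec.const (1 : ℤ)).pair
      ((Primrec.list_cons.comp h1 (prim_sing h2)).pair h3))

end

theorem prim_bits : Primrec Nat.bits := by
  have h : Primrec₂ fun (_ : Unit) (n : ℕ) => Nat.bits n := by
    refine Primrec.nat_strong_rec _
      (g := fun _ (l : List (List Bool)) => if l.length = 0 then some [] else
        (l[l.length / 2]?).map fun t => decide (l.length % 2 = 1) :: t) ?_ ?_
    · have hl : Primrec fun y : Unit × List (List Bool) => y.2.length :=
        Primrec.list_length.comp Primrec.snd
      refine Primrec.ite (Primrec.eq.comp hl (.const 0)) (.const _) ?_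
      refine Primrec.option_map ?_ ?_
      · exact Primrec.list_getElem?.comp Primrec.snd (Primrec.nat_div.comp hl (.const 2))
      · refine Primrec.list_cons.comp ?_ Primrec.snd
        have hl' : Primrec fun y : (Unit × List (List Bool)) × List Bool => y.1.2.length :=
          hl.comp Primrec.fst
        exact (Primrec.eq.comp (Primrec.nat_mod.comp hl' (.const 2)) (.const 1)).decide
    · intro _ n
      simp only [List.length_map, List.length_range]
      by_cases hn : n = 0
      · simp [hn]
      · have h2 : n / 2 < n := Nat.div_lt_self (Nat.pos_of_ne_zero hn) one_lt_two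
        rw [if_neg hn, List.getElem?_map, List.getElem?_range h2]
        simp only [Option.map_some, Option.some.injEq]
        rcases Nat.even_or_odd' n with ⟨k, rfl | rfl⟩
        · have hk : k ≠ 0 := by rintro rfl; exact hn rfl
          rw [Nat.bit0_bits k hk]
          simp
        · rw [Nat.bit1_bits]
          have h3 : (2 * k + 1) / 2 = k := by omega
          have h4 : (2 * k + 1) % 2 = 1 := by omega
          rw [h3, h4]
          simp
  exact (h.comp (Primrec.const ()) Primrec.id)

end Pool.Agent.H.MP_fc7d68_al
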