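import Mathlib

/-!
Definitions used in the statement: linear free resolutions, and finite codes of standard graded
algebras and of graded modules generated in degree zero.
-/

namespace Pool.Agent.H.MP_fc7d68_al

open MvPolynomial

/-- `M` has a linear free resolution `⋯ → R^(b 2) → R^(b 1) → R^(b 0) → M → 0`: the basis of
`R^(b 0)` is sent into `M0` (the degree-zero part of `M`), the matrices `D i` of all further maps
have entries in `R1` (the linear forms of `R`), and the sequence is exact.  For a standard graded
algebra `R` and a graded module `M` generated in degree `0` such a sequence is exactly a minimal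
graded free resolution with `F_i = R(-i)^(b i)`; it exists if and only if `reg_R(M) = 0`
(or `M = 0`). -/
def HasLinearResolution (R : Type*) [CommRing R] (R1 : Set R) (M : Type*) [AddCommGroup M]
    [Module R M] (M0 : Set M) : Prop :=
  ∃ (b : ℕ → ℕ) (m : Fin (b 0) → M) (D : ∀ i, Matrix (Fin (b (i + 1))) (Fin (b i)) R),
    (∀ j, m j ∈ M0) ∧ (∀ i j k, D i j k ∈ R1) ∧
    Submodule.span R (Set.range m) = ⊤ ∧
    (∀ z : Fin (b 0) → R, ∑ j, z j • m j = 0 ↔ ∃ y, Matrix.vecMul y (D 0) = z) ∧
    (∀ i, ∀ z : Fin (b (i + 1)) → R,
      Matrix.vecMul z (D i) = 0 ↔ ∃ y, Matrix.vecMul y (D (i + 1)) = z)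

/-- A polynomial with integer coefficients: a list of terms `(coefficient, monomial)`, a monomial
being the list of the indices of its variables (with repetitions). -/
abbrev PolyCode := List (ℤ × List ℕ)

/-- A code `(n, gens)` of `K[x_0, …, x_(n-1)] / (gens)`. -/
abbrev RingCode := ℕ × List PolyCode

/-- An element of a free module with basis `e_0, e_1, …`: a list of terms
`(coefficient, monomial, k)` standing for `coefficient * monomial * e_k`. -/
abbrev VecCode := List (ℤ × List ℕ × ℕ)

/-- A code `(g, rels)` of the module `R^g / (rels)`. -/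
abbrev ModCode := ℕ × List VecCode

section

variable (K : Type*) [Field K]

/-- The monomial coded by a list of variable indices. -/
noncomputable def monOf (n : ℕ) (l : List ℕ) : MvPolynomial (Fin n) K :=
  (l.map fun i => if h : i < n then X ⟨i, h⟩ else 0).prod

/-- The polynomial with code `p`. -/
noncomputable def polyOf (n : ℕ) (p : PolyCode) : MvPolynomial (Fin n) K :=
  (p.map fun t => (t.1 : MvPolynomial (Fin n) K) * monOf K n t.2).sum

/-- The vector of polynomials with code `v`. -/
noncomputable def vecOf (n g : ℕ) (v : VecCode) : Fin g → MvPolynomial (Fin n) K := fun k =>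
  (v.map fun t =>
    if t.2.2 = (k : ℕ) then (t.1 : MvPolynomial (Fin n) K) * monOf K n t.2.1 else 0).sum

/-- The ideal `I` of the coded ring. -/
noncomputable def idealOf (c : RingCode) : Ideal (MvPolynomial (Fin c.1) K) :=
  Ideal.span {p | ∃ q ∈ c.2, p = polyOf K c.1 q}

/-- The coded ring `R = K[x_0, …, x_(n-1)] / I`. -/
abbrev RingOf (c : RingCode) : Type _ := MvPolynomial (Fin c.1) K ⧸ idealOf K c

/-- The submodule of relations of the coded module. -/
noncomputable def relOf (c : RingCode) (d : ModCode) : Submodule (RingOf K c) (Fin d.1 → RingOf K c) :=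
  Submodule.span _
    {v | ∃ q ∈ d.2, v = fun k => Ideal.Quotient.mk (idealOf K c) (vecOf K c.1 d.1 q k)}

/-- The coded module `M = R^g / (rels)`, all generators being in degree zero. -/
abbrev ModOf (c : RingCode) (d : ModCode) : Type _ := (Fin d.1 → RingOf K c) ⧸ relOf K c d

/-- The degree-`i` part of the coded ring. -/
def ringDeg (c : RingCode) (i : ℕ) : Set (RingOf K c) :=
  {r | ∃ p : MvPolynomial (Fin c.1) K, p.IsHomogeneous i ∧ Ideal.Quotient.mk (idealOf K c) p = r}

/-- The degree-`i` part of the coded module. -/
def modDeg (c : RingCode) (d : ModCode) (i : ℕ) : Set (ModOf K c d) :=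
  {m | ∃ v : Fin d.1 → RingOf K c, (∀ k, v k ∈ ringDeg K c i) ∧ Submodule.Quotient.mk v = m}

/-- The maximal ideal generated by the variables. -/
noncomputable def maxOf (c : RingCode) : Ideal (RingOf K c) :=
  Ideal.span (Set.range fun i : Fin c.1 => Ideal.Quotient.mk (idealOf K c) (X i))

/-- The coded ring is Koszul: the residue field has a linear resolution. -/
def IsKoszul (c : RingCode) : Prop :=
  HasLinearResolution (RingOf K c) (ringDeg K c 1) (RingOf K c ⧸ maxOf K c)
    {m | ∃ a : K, Ideal.Quotient.mk (maxOf K c) (Ideal.Quotient.mk (idealOf K c) (C a)) = m}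

/-- The admissible inputs of the question: the generators of `I` are homogeneous of degree at
least two, `R` is Koszul, the relations of `M` are homogeneous (the generators of `M` being in
degree zero), `M_1 ≠ 0` and `M_i = 0` for all `i > 1`. -/
structure Admissible (c : RingCode) (d : ModCode) : Prop where
  ideal_homogeneous : ∀ q ∈ c.2, ∃ i ≥ 2, (polyOf K c.1 q).IsHomogeneous i
  koszul : IsKoszul K c
  rel_homogeneous : ∀ q ∈ d.2, ∃ i, ∀ k, (vecOf K c.1 d.1 q k).IsHomogeneous i
  deg_one : ∃ m ∈ modDeg K c d 1, m ≠ 0
  deg_two : ∀ i, 1 < i → ∀ m ∈ modDeg K c d i, m = 0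

/-- `reg_R(M) = 0`: the module has a linear resolution. -/
def RegZero (c : RingCode) (d : ModCode) : Prop :=
  HasLinearResolution (RingOf K c) (ringDeg K c 1) (ModOf K c d) (modDeg K c d 0)

end

end Pool.Agent.H.MP_fc7d68_al
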