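import Pool.Agent.H.MP_fc7d68_al.Words

/-!
Duality: surjectivity of all `ψ` versus triviality of the kernel of the transposed system.
-/

namespace Pool.Agent.H.MP_fc7d68_al

open PW

/-- The transposed system of equations; words are listed from their last letter. -/
structure KerEq {K V W P0 P1 : Type*} [Field K] [Fintype P1]
    (φW : W → Matrix P1 P0 K) (φV : V → Matrix P1 P0 K) (ξ : List V → List W → P1 → K) :
    Prop where
  both : ∀ u y w x ν, ∑ μ, φW x μ ν * ξ (y :: u) w μ + ∑ μ, φV y μ ν * ξ u (x :: w) μ = 0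
  right_nil : ∀ u y ν, ∑ μ, φV y μ ν * ξ u [] μ = 0
  left_nil : ∀ w x ν, ∑ μ, φW x μ ν * ξ [] w μ = 0

section

variable {V W : Type*} {i : ℕ}

/-- the pair of words with given reversals -/
def tt (u : List V) (w : List W) (h : u.length + w.length = i) : PW V W i :=
  ⟨(u.reverse, w.reverse), by simpa using h⟩

theorem exists_tt (t : PW V W i) : ∃ u w h, t = tt u w h := by
  obtain ⟨⟨u, w⟩, h⟩ := t
  exact ⟨u.reverse, w.reverse, by simpa using h, by simp [tt]⟩

theorem tt_inj {u u' : List V} {w w' : List W} {h : u.length + w.length = i}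
    {h' : u'.length + w'.length = i} : tt u w h = tt u' w' h' ↔ u = u' ∧ w = w' := by
  constructor
  · intro hh
    have := congrArg Subtype.val hh
    simpa [tt] using this
  · rintro ⟨rfl, rfl⟩; rfl

theorem sw_tt (x : W) (u : List V) (w : List W) (h : u.length + w.length = i) :
    sw x (tt u w h) = tt u (x :: w) (by simp only [List.length_cons]; omega) := by
  simp [sw, tt]

theorem sv_tt (y : V) (u : List V) (w : List W) (h : u.length + w.length = i) :
    sv y (tt u w h) = tt (y :: u) w (by simp only [List.length_cons]; omega) := by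
  simp [sv, tt]

end

section

variable {K V W P0 P1 : Type*} [Field K] [Fintype V] [Fintype W] [Fintype P0] [Fintype P1]
  [DecidableEq V] [DecidableEq W] [DecidableEq P0] [DecidableEq P1]
  {A0 A1 : Type*} [AddCommGroup A0] [Module K A0] [AddCommGroup A1] [Module K A1]
  (X : W → A0 →ₗ[K] A1) (Y : V → A0 →ₗ[K] A1)

instance (i : ℕ) : DecidableEq (PW V W i) := by
  unfold PW; infer_instance

theorem single_tt {A : Type*} [Zero A] (i : ℕ) (u' : List V) (w' : List W)
    (h : u'.length + w'.length = i) (a : A) (u : List V) (w : List W)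
    (h' : u.length + w.length = i) :
    (Pi.single (tt u' w' h) a : PW V W i → A) (tt u w h') =
      if u' = u ∧ w' = w then a else 0 := by
  by_cases hx : u' = u ∧ w' = w
  · obtain ⟨rfl, rfl⟩ := hx
    simp
  · rw [if_neg hx, Pi.single_eq_of_ne]
    rw [Ne, tt_inj]
    rintro ⟨rfl, rfl⟩
    exact hx ⟨rfl, rfl⟩

theorem psi_single (i : ℕ) (u' : List V) (w' : List W) (h : u'.length + w'.length = i + 1)
    (a : A0) (u : List V) (w : List W) (h' : u.length + w.length = i) :
    psi X Y i (Pi.single (tt u' w' h) a) (tt u w h') =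
      (∑ x, if u' = u ∧ w' = x :: w then X x a else 0) +
        ∑ y, if u' = y :: u ∧ w' = w then Y y a else 0 := by
  rw [psi_apply]
  congr 1
  · apply Finset.sum_congr rfl
    intro x _
    rw [sw_tt, single_tt]
    split_ifs
    · rfl
    · exact map_zero _
  · apply Finset.sum_congr rfl
    intro y _
    rw [sv_tt, single_tt]
    split_ifs
    · rfl
    · exact map_zero _

theorem psi_single11 (i : ℕ) (u : List V) (y : V) (w : List W) (x : W)
    (h : (y :: u).length + (x :: w).length = i + 1) (h1 : (y :: u).length + w.length = i)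
    (h2 : u.length + (x :: w).length = i) (a : A0) :
    psi X Y i (Pi.single (tt (y :: u) (x :: w) h) a) =
      Pi.single (tt (y :: u) w h1) (X x a) + Pi.single (tt u (x :: w) h2) (Y y a) := by
  funext t
  obtain ⟨u0, w0, h0, rfl⟩ := exists_tt t
  rw [psi_single, Pi.add_apply, single_tt, single_tt]
  congr 1
  · simp only [List.cons.injEq]
    by_cases hc : y :: u = u0 ∧ w = w0
    · obtain ⟨rfl, rfl⟩ := hc
      simp
    · rw [if_neg hc]
      apply Finset.sum_eq_zero
      intro x' _
      rw [if_neg]
      rintro ⟨h3, -, h4⟩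
      exact hc ⟨h3, h4⟩
  · simp only [List.cons.injEq]
    by_cases hc : u = u0 ∧ x :: w = w0
    · obtain ⟨rfl, rfl⟩ := hc
      simp
    · rw [if_neg hc]
      apply Finset.sum_eq_zero
      intro x' _
      rw [if_neg]
      rintro ⟨⟨-, h3⟩, h4⟩
      exact hc ⟨h3, h4⟩

theorem psi_single10 (i : ℕ) (u : List V) (y : V)
    (h : (y :: u).length + ([] : List W).length = i + 1)
    (h2 : u.length + ([] : List W).length = i) (a : A0) :
    psi X Y i (Pi.single (tt (y :: u) [] h) a) = Pi.single (tt u [] h2) (Y y a) := by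
  funext t
  obtain ⟨u0, w0, h0, rfl⟩ := exists_tt t
  rw [psi_single, single_tt]
  simp only [List.cons.injEq, reduceCtorEq, and_false, if_false, Finset.sum_const_zero, zero_add]
  by_cases hc : u = u0 ∧ [] = w0
  · obtain ⟨rfl, rfl⟩ := hc
    simp
  · rw [if_neg hc]
    apply Finset.sum_eq_zero
    intro x' _
    rw [if_neg]
    rintro ⟨⟨-, h3⟩, h4⟩
    exact hc ⟨h3, h4⟩

theorem psi_single01 (i : ℕ) (w : List W) (x : W)
    (h : ([] : List V).length + (x :: w).length = i + 1)
    (h2 : ([] : List V).length + w.length = i) (a : A0) :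
    psi X Y i (Pi.single (tt [] (x :: w) h) a) = Pi.single (tt [] w h2) (X x a) := by
  funext t
  obtain ⟨u0, w0, h0, rfl⟩ := exists_tt t
  rw [psi_single, single_tt]
  simp only [List.cons.injEq, reduceCtorEq, false_and, if_false, Finset.sum_const_zero, add_zero]
  by_cases hc : [] = u0 ∧ w = w0
  · obtain ⟨rfl, rfl⟩ := hc
    simp
  · rw [if_neg hc]
    apply Finset.sum_eq_zero
    intro x' _
    rw [if_neg]
    rintro ⟨h3, -, h4⟩
    exact hc ⟨h3, h4⟩

theorem mulVecLin_single (φ : Matrix P1 P0 K) (ν : P0) :
    φ.mulVecLin (Pi.single ν 1) = ∑ μ, φ μ ν • (Pi.single μ (1 : K) : P1 → K) := by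
  funext μ
  simp [Finset.sum_apply, Pi.single_apply]

theorem psi_surjective_of_ker (φW : W → Matrix P1 P0 K) (φV : V → Matrix P1 P0 K)
    (hker : ∀ ξ : List V → List W → P1 → K, KerEq φW φV ξ → ξ = 0) (i : ℕ) :
    Function.Surjective (psi (fun x => (φW x).mulVecLin) (fun y => (φV y).mulVecLin) i) := by
  set ψ := psi (fun x => (φW x).mulVecLin) (fun y => (φV y).mulVecLin) i with hψ
  rw [← LinearMap.range_eq_top]
  by_contra hne
  have hlt : LinearMap.range ψ < ⊤ := lt_top_iff_ne_top.2 hne
  obtain ⟨ℓ, hℓ0, hℓ⟩ := Submodule.exists_le_ker_of_lt_top _ hlt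
  have hℓ' : ∀ p, ℓ (ψ p) = 0 := by
    intro p
    exact LinearMap.mem_ker.1 (hℓ (LinearMap.mem_range_self ψ p))
  let ξ : List V → List W → P1 → K := fun u w μ =>
    if h : u.length + w.length = i then ℓ (Pi.single (tt u w h) (Pi.single μ 1)) else 0
  have hφ : ∀ (φ : Matrix P1 P0 K) (ν : P0) (t : PW V W i),
      ℓ (Pi.single t (φ.mulVecLin (Pi.single ν 1))) =
        ∑ μ, φ μ ν * ℓ (Pi.single t (Pi.single μ 1)) := by
    intro φ ν t
    rw [mulVecLin_single]
    have h1 : (Pi.single t (∑ μ, φ μ ν • (Pi.single μ (1 : K) : P1 → K)) : PW V W i → P1 → K) =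
        ∑ μ, φ μ ν • (Pi.single t (Pi.single μ (1 : K) : P1 → K)) := by
      have h2 := map_sum (LinearMap.single K (fun _ : PW V W i => P1 → K) t)
        (fun μ => φ μ ν • (Pi.single μ (1 : K) : P1 → K)) Finset.univ
      simp only [map_smul, LinearMap.coe_single] at h2
      exact h2
    rw [h1, map_sum]
    simp
  have hξ : KerEq φW φV ξ := by
    constructor
    · intro u y w x ν
      by_cases h : (y :: u).length + w.length = i
      · have h2 : u.length + (x :: w).length = i := by
          simp only [List.length_cons] at h ⊢; omega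
        have h3 : (y :: u).length + (x :: w).length = i + 1 := by
          simp only [List.length_cons] at h ⊢; omega
        have := hℓ' (Pi.single (tt (y :: u) (x :: w) h3) (Pi.single ν 1))
        rw [hψ, psi_single11 _ _ _ _ _ _ _ _ h h2, map_add, hφ, hφ] at this
        simp only [ξ, dif_pos h, dif_pos h2]
        exact this
      · have h2 : ¬ u.length + (x :: w).length = i := by
          simp only [List.length_cons] at h ⊢; omega
        simp only [ξ, dif_neg h, dif_neg h2]
        simp
    · intro u y ν
      by_cases h : u.length + ([] : List W).length = i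
      · have h3 : (y :: u).length + ([] : List W).length = i + 1 := by
          simp only [List.length_cons] at h ⊢; omega
        have := hℓ' (Pi.single (tt (y :: u) [] h3) (Pi.single ν 1))
        rw [hψ, psi_single10 _ _ _ _ _ _ h, hφ] at this
        simp only [ξ, dif_pos h]
        exact this
      · simp only [ξ, dif_neg h]
        simp
    · intro w x ν
      by_cases h : ([] : List V).length + w.length = i
      · have h3 : ([] : List V).length + (x :: w).length = i + 1 := by
          simp only [List.length_cons] at h ⊢; omega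
        have := hℓ' (Pi.single (tt [] (x :: w) h3) (Pi.single ν 1))
        rw [hψ, psi_single01 _ _ _ _ _ _ h, hφ] at this
        simp only [ξ, dif_pos h]
        exact this
      · simp only [ξ, dif_neg h]
        simp
  have hξ0 := hker ξ hξ
  apply hℓ0
  apply LinearMap.pi_ext'
  intro t
  apply LinearMap.pi_ext'
  intro μ
  ext
  obtain ⟨u, w, h, rfl⟩ := exists_tt t
  have := congrFun (congrFun (congrFun hξ0 u) w) μ
  simp only [ξ, dif_pos h] at this
  simpa using this

theorem ker_of_psi_surjective (φW : W → Matrix P1 P0 K) (φV : V → Matrix P1 P0 K)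
    (hs : ∀ i, Function.Surjective
      (psi (fun x => (φW x).mulVecLin) (fun y => (φV y).mulVecLin) i))
    (ξ : List V → List W → P1 → K) (hξ : KerEq φW φV ξ) : ξ = 0 := by
  funext u0 w0 μ0
  set i := u0.length + w0.length with hi
  set ψ := psi (fun x => (φW x).mulVecLin) (fun y => (φV y).mulVecLin) i with hψ
  have : Finite (PW V W i) := inferInstance
  let _ : Fintype (PW V W i) := Fintype.ofFinite _
  let ℓ : (PW V W i → P1 → K) →ₗ[K] K :=
    { toFun := fun q => ∑ t, ∑ μ, ξ t.1.1.reverse t.1.2.reverse μ * q t μ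
      map_add' := by
        intro p q
        simp only [Pi.add_apply, mul_add, Finset.sum_add_distrib]
      map_smul' := by
        intro r p
        simp only [Pi.smul_apply, smul_eq_mul, RingHom.id_apply, Finset.mul_sum]
        refine Finset.sum_congr rfl fun t _ => Finset.sum_congr rfl fun μ _ => ?_
        ring }
  have hℓ : ∀ u w h (b : P1 → K), ℓ (Pi.single (tt u w h) b) = ∑ μ, ξ u w μ * b μ := by
    intro u w h b
    change ∑ t : PW V W i, ∑ μ, ξ t.1.1.reverse t.1.2.reverse μ *
      (Pi.single (tt u w h) b : PW V W i → P1 → K) t μ = _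
    rw [Finset.sum_eq_single (tt u w h)]
    · simp [tt]
    · intro t _ ht
      apply Finset.sum_eq_zero
      intro μ _
      rw [Pi.single_eq_of_ne ht]
      simp
    · intro h
      exact absurd (Finset.mem_univ _) h
  have hℓφ : ∀ u w h (φ : Matrix P1 P0 K) ν,
      ℓ (Pi.single (tt u w h) (φ.mulVecLin (Pi.single ν 1))) = ∑ μ, φ μ ν * ξ u w μ := by
    intro u w h φ ν
    rw [hℓ]
    refine Finset.sum_congr rfl fun μ _ => ?_
    simp [mul_comm]
  have hcomp : ℓ ∘ₗ ψ = 0 := by
    apply LinearMap.pi_ext'
    intro t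
    apply LinearMap.pi_ext'
    intro ν
    ext
    obtain ⟨u, w, h, rfl⟩ := exists_tt t
    simp only [LinearMap.comp_apply, LinearMap.coe_single, LinearMap.zero_apply]
    cases u with
    | nil =>
      cases w with
      | nil => simp at h
      | cons x w =>
        rw [hψ, psi_single01 _ _ _ _ _ _ (by simp only [List.length_cons] at h ⊢; omega), hℓφ]
        exact hξ.left_nil w x ν
    | cons y u =>
      cases w with
      | nil =>
        rw [hψ, psi_single10 _ _ _ _ _ _ (by simp only [List.length_cons] at h ⊢; omega), hℓφ]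
        exact hξ.right_nil u y ν
      | cons x w =>
        rw [hψ, psi_single11 _ _ _ _ _ _ _ _ (by simp only [List.length_cons] at h ⊢; omega)
          (by simp only [List.length_cons] at h ⊢; omega), map_add, hℓφ, hℓφ]
        exact hξ.both u y w x ν
  obtain ⟨p, hp⟩ := hs i (Pi.single (tt u0 w0 rfl) (Pi.single μ0 1))
  have h1 := LinearMap.congr_fun hcomp p
  rw [LinearMap.comp_apply, hp, hℓ] at h1
  simpa [Pi.single_apply] using h1

theorem psi_surjective_iff_ker (φW : W → Matrix P1 P0 K) (φV : V → Matrix P1 P0 K) :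
    (∀ i, Function.Surjective
      (psi (fun x => (φW x).mulVecLin) (fun y => (φV y).mulVecLin) i)) ↔
    ∀ ξ : List V → List W → P1 → K, KerEq φW φV ξ → ξ = 0 :=
  ⟨ker_of_psi_surjective φW φV, psi_surjective_of_ker φW φV⟩

end

end Pool.Agent.H.MP_fc7d68_al
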