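import Pool.Agent.H.MP_fc7d68_al.Auto

/-!
Word dynamics: a transducer whose transduction is injective if and only if a given computation
does not halt.
-/

set_option linter.unusedSimpArgs false
set_option linter.unusedSectionVars false

namespace Pool.Agent.H.MP_fc7d68_al

section

variable {L : Type} [DecidableEq L] [Fintype L]

/-- all lists of length `l` -/
def words (L : Type) [DecidableEq L] [Fintype L] : ℕ → Finset (List L)
  | 0 => {[]}
  | l + 1 => (Finset.univ ×ˢ words L l).image fun p => p.1 :: p.2

theorem mem_words (l : ℕ) (w : List L) : w ∈ words L l ↔ w.length = l := by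
  induction l generalizing w with
  | zero => simp [words]
  | succ l ih =>
    simp only [words, Finset.mem_image, Finset.mem_product, Finset.mem_univ, true_and,
      Prod.exists, ih]
    constructor
    · rintro ⟨a, v, hv, rfl⟩
      simp [hv]
    · intro h
      cases w with
      | nil => simp at h
      | cons a v => exact ⟨a, v, by simpa using h, rfl⟩

theorem sum_words_succ {A : Type*} [AddCommMonoid A] (l : ℕ) (f : List L → A) :
    ∑ w ∈ words L (l + 1), f w = ∑ a, ∑ w ∈ words L l, f (a :: w) := by
  rw [words, Finset.sum_image, Finset.sum_product]
  rintro ⟨a, v⟩ _ ⟨a', v'⟩ _ h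
  simpa using h

/-- shift the memory -/
def upd (m : L × L × L) (a : L) : L × L × L := (m.2.1, m.2.2, a)

variable (x z : L) (F : L × L × L → Option L)

/-- memory after reading a word (last letter first in the list) -/
def memL : List L → L × L × L
  | [] => (x, x, x)
  | a :: as => upd (memL as) a

/-- the successor word -/
def nxt : List L → Option (List L)
  | [] => some []
  | _ :: as =>
    match nxt as, F (memL x as) with
    | some b, some d => some (d :: b)
    | _, _ => none

/-- memory at a position of an infinite word -/
def mem (f : ℕ → L) : ℕ → L × L × L
  | 0 => (x, x, x)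
  | j + 1 => upd (mem f j) (f j)

/-- truncation of an infinite word, last letter first -/
def cword (f : ℕ → L) : ℕ → List L
  | 0 => []
  | l + 1 => f l :: cword f l

@[simp] theorem length_cword (f : ℕ → L) (l : ℕ) : (cword f l).length = l := by
  induction l with
  | zero => rfl
  | succ l ih => simp [cword, ih]

theorem memL_cword (f : ℕ → L) (l : ℕ) : memL x (cword f l) = mem x f l := by
  induction l with
  | zero => rfl
  | succ l ih => simp [cword, memL, mem, ih]

theorem nxt_cword (f g : ℕ → L) (l : ℕ) (h : ∀ j < l, F (mem x f j) = some (g j)) :
    nxt x F (cword f l) = some (cword g l) := by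
  induction l with
  | zero => rfl
  | succ l ih =>
    simp only [cword, nxt, ih (fun j hj => h j (by omega)), memL_cword, h l (by omega)]

theorem nxt_cword_none (f : ℕ → L) (l : ℕ) (h : ∃ j < l, F (mem x f j) = none) :
    nxt x F (cword f l) = none := by
  induction l with
  | zero => obtain ⟨j, hj, -⟩ := h; omega
  | succ l ih =>
    obtain ⟨j, hj, h⟩ := h
    simp only [cword, nxt, memL_cword]
    by_cases hjl : j = l
    · subst hjl
      rw [h]
      split <;> simp_all
    · rw [ih ⟨j, by omega, h⟩]

theorem nxt_length {a b : List L} (h : nxt x F a = some b) : b.length = a.length := by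
  induction a generalizing b with
  | nil => simp only [nxt, Option.some.injEq] at h; subst h; rfl
  | cons c a ih =>
    rw [nxt] at h
    split at h
    · next b' d hb hd =>
      simp only [Option.some.injEq] at h
      subst h
      simp [ih hb]
    · simp at h

/-- all letters at positions `< k` are `x` -/
def XP (k : ℕ) : List L → Prop
  | [] => True
  | c :: a => XP k a ∧ (a.length < k → c = x)

theorem XP_zero (a : List L) : XP x 0 a := by
  induction a with
  | nil => trivial
  | cons c a ih => exact ⟨ih, fun h => absurd h (by omega)⟩

theorem XP_mem (k : ℕ) (a : List L) (h : XP x k a) (hl : a.length ≤ k) :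
    memL x a = (x, x, x) := by
  induction a with
  | nil => rfl
  | cons c a ih =>
    simp only [List.length_cons] at hl
    rw [memL, ih h.1 (by omega), h.2 (by omega)]
    rfl

theorem XP_nxt (hF : F (x, x, x) = some x) (k : ℕ) {a b : List L} (h : nxt x F a = some b)
    (ha : XP x k a) : XP x (k + 1) b := by
  induction a generalizing b with
  | nil => simp only [nxt, Option.some.injEq] at h; subst h; trivial
  | cons c a ih =>
    rw [nxt] at h
    split at h
    · next b' d hb hd =>
      simp only [Option.some.injEq] at h
      subst h
      refine ⟨ih hb ha.1, fun hl => ?_⟩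
      rw [nxt_length x F hb] at hl
      rw [XP_mem x k a ha.1 (by omega), hF] at hd
      simpa using hd.symm
    · simp at h

theorem XP_cword (f : ℕ → L) (k l : ℕ) :
    XP x k (cword f l) ↔ ∀ j < l, j < k → f j = x := by
  induction l with
  | zero => simp [cword, XP]
  | succ l ih =>
    simp only [cword, XP, ih, length_cword]
    constructor
    · rintro ⟨h1, h2⟩ j hj hk
      by_cases hjl : j = l
      · subst hjl; exact h2 hk
      · exact h1 j (by omega) hk
    · intro h
      exact ⟨fun j hj hk => h j (by omega) hk, fun hk => h l (by omega) hk⟩

theorem cword_inj {f g : ℕ → L} {l : ℕ} (h : cword f l = cword g l) : ∀ j < l, f j = g j := by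
  induction l with
  | zero => intro j hj; omega
  | succ l ih =>
    simp only [cword, List.cons.injEq] at h
    intro j hj
    by_cases hjl : j = l
    · subst hjl; exact h.1
    · exact ih h.2 j (by omega)

theorem mem_eq (f : ℕ → L) (j : ℕ) : mem x f (j + 3) = (f j, f (j + 1), f (j + 2)) := rfl

end

section

variable {K : Type*} [Field K] {L : Type} [DecidableEq L] [Fintype L]

/-- states: step branch, copy branch, initial-word branch -/
abbrev NN (L : Type) (r : ℕ) := (L × L × L) ⊕ (L × L × L) ⊕ Fin (r + 1)

/-- next state on the initial-word branch -/
def nextFin (r : ℕ) (i : Fin (r + 1)) : Fin (r + 1) := ⟨min (i + 1) r, by omega⟩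

variable (K) in
/-- transitions -/
def TT (F : L × L × L → Option L) (r : ℕ) (f0 : ℕ → L) : NN L r → L → L → NN L r → K
  | .inl m, a, b, .inl m' => if F m = some b ∧ m' = upd m a then 1 else 0
  | .inr (.inl m), a, b, .inr (.inl m') => if b = a ∧ m' = upd m a then 1 else 0
  | .inr (.inr i), a, b, .inr (.inr i') => if a = f0 i ∧ b = a ∧ i' = nextFin r i then 1 else 0
  | _, _, _, _ => 0

variable (K) in
/-- initial weights -/
def gam (x : L) (r : ℕ) : NN L r → K
  | .inl m => if m = (x, x, x) then 1 else 0
  | .inr (.inl m) => if m = (x, x, x) then 1 else 0
  | .inr (.inr i) => if i = 0 then 1 else 0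

variable (K) in
/-- output weights -/
def lam (z : L) (r : ℕ) : NN L r → Bool → K
  | .inl m, false => if m = (z, z, z) then 1 else 0
  | .inl _, true => 0
  | .inr (.inl _), false => 1
  | .inr (.inl m), true => if m = (z, z, z) then 0 else 1
  | .inr (.inr i), false => if i = Fin.last r then -1 else 0
  | .inr (.inr _), true => 0

variable (x z : L) (F : L × L × L → Option L) (r : ℕ) (f0 : ℕ → L)

theorem run_C (bs : List L) (G : List L → K) (m : L × L × L) :
    Run (gam K x r) (TT K F r f0) bs G (.inr (.inl m)) = if m = memL x bs then G bs else 0 := by
  induction bs generalizing G m with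
  | nil => simp [Run, gam, memL]
  | cons b bs ih =>
    rw [Run]
    simp only [Fintype.sum_sum_type, TT, zero_mul, Finset.sum_const_zero, zero_add, add_zero]
    simp only [ih]
    rw [Finset.sum_eq_single b]
    · rw [Finset.sum_eq_single (memL x bs)]
      · simp [memL]
      · intro m' _ hm'
        simp [hm']
      · intro h; exact absurd (Finset.mem_univ _) h
    · intro a _ ha
      apply Finset.sum_eq_zero
      intro m' _
      rw [if_neg (fun h => ha h.1.symm), zero_mul]
    · intro h; exact absurd (Finset.mem_univ _) h

theorem run_I (bs : List L) (G : List L → K) (i : Fin (r + 1)) :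
    Run (gam K x r) (TT K F r f0) bs G (.inr (.inr i)) =
      if bs = cword (fun j => f0 (min j r)) bs.length ∧ (i : ℕ) = min bs.length r then G bs
      else 0 := by
  induction bs generalizing G i with
  | nil =>
    simp only [Run, gam, cword, List.length_nil, true_and, Nat.zero_min, Fin.val_eq_zero_iff]
    split_ifs <;> simp
  | cons b bs ih =>
    rw [Run]
    simp only [Fintype.sum_sum_type, TT, zero_mul, Finset.sum_const_zero, zero_add, add_zero]
    simp only [ih]
    rw [Finset.sum_eq_single b]
    · have hlt : min bs.length r < r + 1 := by omega
      rw [Finset.sum_eq_single (⟨min bs.length r, hlt⟩ : Fin (r + 1))]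
      · simp only [and_true, true_and, List.length_cons, cword, List.cons.injEq]
        by_cases h1 : bs = cword (fun j => f0 (min j r)) bs.length
        · by_cases h2 : b = f0 (min bs.length r)
          · have h3 : i = nextFin r ⟨min bs.length r, hlt⟩ ↔ (i : ℕ) = min (bs.length + 1) r := by
              rw [Fin.ext_iff]
              simp only [nextFin]
              omega
            simp only [← h1, ← h2, h3, and_true, true_and, if_true, ite_mul, one_mul, zero_mul]
          · simp only [h2, false_and, if_false, zero_mul]
        · simp only [h1, false_and, and_false, if_false, mul_zero]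
      · intro i' _ hi'
        have : ¬ (i' : ℕ) = min bs.length r := fun h => hi' (Fin.ext h)
        simp [this]
      · intro h; exact absurd (Finset.mem_univ _) h
    · intro a _ ha
      apply Finset.sum_eq_zero
      intro m' _
      rw [if_neg (fun h => ha h.2.1.symm), zero_mul]
    · intro h; exact absurd (Finset.mem_univ _) h

theorem run_B (bs : List L) (G : List L → K) (m : L × L × L) :
    Run (gam K x r) (TT K F r f0) bs G (.inl m) =
      ∑ as ∈ words L bs.length, if nxt x F as = some bs ∧ memL x as = m then G as else 0 := by
  induction bs generalizing G m with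
  | nil =>
    simp only [Run, gam, List.length_nil, words, Finset.sum_singleton, nxt, memL, true_and,
      eq_comm (a := m)]
    split_ifs <;> simp
  | cons b bs ih =>
    rw [Run]
    simp only [Fintype.sum_sum_type, TT, zero_mul, Finset.sum_const_zero, zero_add, add_zero]
    simp only [ih, List.length_cons, sum_words_succ]
    apply Finset.sum_congr rfl
    intro a _
    simp only [Finset.mul_sum]
    rw [Finset.sum_comm]
    apply Finset.sum_congr rfl
    intro as _
    rw [Finset.sum_eq_single (memL x as)]
    · have h1 : (nxt x F (a :: as) = some (b :: bs)) ↔
          (F (memL x as) = some b ∧ nxt x F as = some bs) := by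
        rw [nxt]
        split
        · next b' d hb hd =>
          rw [hb, hd]
          simp
        · next h =>
          simp only [reduceCtorEq, false_iff]
          rintro ⟨h2, h3⟩
          exact h _ _ h3 h2
      simp only [h1, and_true, memL, eq_comm (a := m)]
      by_cases h2 : F (memL x as) = some b
      · by_cases h3 : nxt x F as = some bs
        · simp [h2, h3]
        · simp [h2, h3]
      · simp [h2]
    · intro m' _ hm'
      have h5 : ¬ (nxt x F as = some bs ∧ memL x as = m') := fun h => hm' h.2.symm
      rw [if_neg h5, mul_zero]
    · intro h; exact absurd (Finset.mem_univ _) h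

theorem out_false (bs : List L) (G : List L → K) :
    ∑ n, lam K z r n false * Run (gam K x r) (TT K F r f0) bs G n =
      (∑ as ∈ words L bs.length,
        if nxt x F as = some bs ∧ memL x as = (z, z, z) then G as else 0) + G bs -
      if bs = cword (fun j => f0 (min j r)) bs.length ∧ r ≤ bs.length then G bs else 0 := by
  simp only [Fintype.sum_sum_type, run_B, run_C, run_I, lam]
  have h1 : ∑ m, (if m = (z, z, z) then (1 : K) else 0) * (∑ as ∈ words L bs.length,
      if nxt x F as = some bs ∧ memL x as = m then G as else 0) =
      ∑ as ∈ words L bs.length,
        if nxt x F as = some bs ∧ memL x as = (z, z, z) then G as else 0 := by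
    rw [Finset.sum_eq_single (z, z, z)]
    · simp
    · intro m _ hm; simp [hm]
    · intro h; exact absurd (Finset.mem_univ _) h
  have h2 : ∑ m, (1 : K) * (if m = memL x bs then G bs else 0) = G bs := by
    simp
  have h3 : ∑ i : Fin (r + 1), (if i = Fin.last r then (-1 : K) else 0) *
      (if bs = cword (fun j => f0 (min j r)) bs.length ∧ (i : ℕ) = min bs.length r then G bs
      else 0) = -
      if bs = cword (fun j => f0 (min j r)) bs.length ∧ r ≤ bs.length then G bs else 0 := by
    rw [Finset.sum_eq_single (Fin.last r)]
    · have : ((Fin.last r : Fin (r + 1)) : ℕ) = min bs.length r ↔ r ≤ bs.length := by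
        rw [Fin.val_last]; omega
      simp only [this, if_true]
      ring
    · intro m _ hm; simp [hm]
    · intro h; exact absurd (Finset.mem_univ _) h
  rw [h1, h2, h3]
  ring

theorem out_true (bs : List L) (G : List L → K) :
    ∑ n, lam K z r n true * Run (gam K x r) (TT K F r f0) bs G n =
      if memL x bs = (z, z, z) then 0 else G bs := by
  simp only [Fintype.sum_sum_type, run_B, run_C, run_I, lam, zero_mul, Finset.sum_const_zero,
    add_zero, zero_add]
  rw [Finset.sum_eq_single (memL x bs)]
  · simp
  · intro m _ hm; simp [hm]
  · intro h; exact absurd (Finset.mem_univ _) h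

/-- The transduction is injective if the computation never halts. -/
theorem zinj_of_nonhalting (f : ℕ → ℕ → L) (hxz : x ≠ z) (hf0 : ∀ j, f 0 j = f0 (min j r))
    (hfx : ∀ t j, f t j = x ↔ j < t) (hstep : ∀ t j, F (mem x (f t) j) = some (f (t + 1) j)) :
    ZInj (gam K x r) (TT K F r f0) (lam K z r) := by
  intro G hG
  have hFx : F (x, x, x) = some x := by
    have := hstep 0 0
    rw [(hfx 1 0).2 (by omega)] at this
    exact this
  have hf0' : (fun j => f0 (min j r)) = f 0 := funext fun j => (hf0 j).symm
  have hxxx : ((x, x, x) : L × L × L) ≠ (z, z, z) := by
    intro h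
    exact hxz (congrArg Prod.fst h)
  have h2 : ∀ b, memL x b ≠ (z, z, z) → G b = 0 := by
    intro b hb
    have := hG b true
    rwa [out_true, if_neg hb] at this
  have h1 : ∀ b, b ≠ cword (f 0) b.length → G b = -∑ as ∈ words L b.length,
      if nxt x F as = some b ∧ memL x as = (z, z, z) then G as else 0 := by
    intro b hb
    have := hG b false
    rw [out_false, hf0', if_neg (fun h => hb h.1), sub_zero] at this
    exact eq_neg_of_add_eq_zero_right this
  -- orbit
  have hnx : ∀ l t, nxt x F (cword (f t) l) = some (cword (f (t + 1)) l) := fun l t =>
    nxt_cword x F _ _ l fun j _ => hstep t j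
  have claim : ∀ k (b : List L), (∀ t, b ≠ cword (f t) b.length) → ¬ XP x k b → G b = 0 := by
    intro k
    induction k with
    | zero => intro b _ hb; exact absurd (XP_zero x b) hb
    | succ k ih =>
      intro b hb hX
      rw [h1 b (hb 0), neg_eq_zero]
      apply Finset.sum_eq_zero
      intro as has
      rw [mem_words] at has
      split_ifs with hc
      · apply ih
        · intro t ht
          apply hb (t + 1)
          have h3 := hc.1
          rw [ht, hnx, has, Option.some.injEq] at h3
          exact h3.symm
        · intro hX'
          exact hX (XP_nxt x F hFx k hc.1 hX')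
      · rfl
  have hnon : ∀ b : List L, (∀ t, b ≠ cword (f t) b.length) → G b = 0 := by
    intro b hb
    by_cases hX : XP x b.length b
    · apply h2
      rw [XP_mem x _ b hX le_rfl]
      exact hxxx
    · exact claim _ b hb hX
  have horb : ∀ l d t, l ≤ t + d → G (cword (f t) l) = 0 := by
    intro l d
    induction d with
    | zero =>
      intro t ht
      apply h2
      rw [XP_mem x l]
      · exact hxxx
      · rw [XP_cword]
        intro j hj _
        exact (hfx t j).2 (by omega)
      · simp
    | succ d ih =>
      intro t ht
      by_cases ht' : l ≤ t + d
      · exact ih t ht'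
      by_cases hbl : memL x (cword (f t) l) = (z, z, z)
      · have h0 : cword (f (t + 1)) l ≠ cword (f 0) (cword (f (t + 1)) l).length := by
          rw [length_cword]
          intro h
          have h3 := cword_inj h 0 (by omega)
          rw [(hfx (t + 1) 0).2 (by omega)] at h3
          have h4 := (hfx 0 0).1 h3.symm
          omega
        have h3 := h1 _ h0
        rw [ih (t + 1) (by omega), length_cword, eq_comm, neg_eq_zero,
          Finset.sum_eq_single (cword (f t) l)] at h3
        · rw [if_pos ⟨hnx l t, hbl⟩] at h3
          exact h3
        · intro as has hne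
          rw [mem_words] at has
          split_ifs with hc
          · by_cases hor : ∀ s, as ≠ cword (f s) as.length
            · exact hnon as hor
            · push Not at hor
              obtain ⟨s, hs⟩ := hor
              rw [has] at hs
              rw [hs]
              by_cases hst : t < s
              · exact ih s (by omega)
              · have hst' : s ≠ t := by
                  rintro rfl
                  exact hne hs
                exfalso
                have h4 := hc.1
                rw [hs, hnx, Option.some.injEq] at h4
                have h5 := cword_inj h4 (s + 1) (by omega)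
                rw [(hfx (t + 1) (s + 1)).2 (by omega)] at h5
                have h6 := (hfx (s + 1) (s + 1)).1 h5
                omega
          · rfl
        · intro h
          rw [mem_words, length_cword] at h
          exact absurd rfl h
      · exact h2 _ hbl
  funext b
  by_cases hb : ∀ t, b ≠ cword (f t) b.length
  · exact hnon b hb
  · push Not at hb
    obtain ⟨t, ht⟩ := hb
    rw [ht]
    exact horb _ b.length t (by omega)

/-- The transduction is not injective if the computation halts. -/
theorem not_zinj_of_halting (f : ℕ → ℕ → L) (T : ℕ) (hf0 : ∀ j, f 0 j = f0 (min j r))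
    (hfx : ∀ t j, t ≤ T → (f t j = x ↔ j < t))
    (hstep : ∀ t j, t < T → F (mem x (f t) j) = some (f (t + 1) j))
    (hhalt : ∃ j, F (mem x (f T) j) = none) (hbl : ∃ J, ∀ t j, t ≤ T → J ≤ j → f t j = z) :
    ¬ ZInj (gam K x r) (TT K F r f0) (lam K z r) := by
  intro hZ
  obtain ⟨j0, hj0⟩ := hhalt
  obtain ⟨J, hJ⟩ := hbl
  let l := J + r + j0 + 4
  have hl : l = J + r + j0 + 4 := rfl
  let c : ℕ → List L := fun t => cword (f t) l
  have hf0' : (fun j => f0 (min j r)) = f 0 := funext fun j => (hf0 j).symm
  have hc0 : ∀ t, t < T → c (t + 1) ≠ c 0 := by
    intro t ht h
    have h3 := cword_inj h 0 (by omega)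
    rw [(hfx (t + 1) 0 (by omega)).2 (by omega)] at h3
    have h4 := (hfx 0 0 (by omega)).1 h3.symm
    omega
  have hmem : ∀ t, t ≤ T → memL x (c t) = (z, z, z) := by
    intro t ht
    simp only [c]
    rw [memL_cword, hl, show J + r + j0 + 4 = (J + r + j0 + 1) + 3 by omega, mem_eq,
      hJ t _ ht (by omega), hJ t _ ht (by omega), hJ t _ ht (by omega)]
  have hnx : ∀ t, t < T → nxt x F (c t) = some (c (t + 1)) := fun t ht =>
    nxt_cword x F _ _ l fun j _ => hstep t j ht
  have hnT : nxt x F (c T) = none := nxt_cword_none x F _ l ⟨j0, by omega, hj0⟩
  let G : List L → K := fun b => ∑ t ∈ Finset.range (T + 1), if b = c t then (-1 : K) ^ t else 0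
  have hGlen : ∀ b, b.length ≠ l → G b = 0 := by
    intro b hb
    apply Finset.sum_eq_zero
    intro t _
    rw [if_neg]
    rintro rfl
    exact hb (length_cword _ _)
  have hG0 : G = 0 := by
    apply hZ
    intro b o
    cases o with
    | true =>
      rw [out_true]
      split_ifs with hb
      · rfl
      · apply Finset.sum_eq_zero
        intro t ht
        rw [if_neg]
        rintro rfl
        exact hb (hmem t (by simpa [Nat.lt_succ_iff] using ht))
    | false =>
      rw [out_false]
      by_cases hbl : b.length = l
      · have hs : ∑ as ∈ words L b.length,
            (if nxt x F as = some b ∧ memL x as = (z, z, z) then G as else 0) =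
            ∑ t ∈ Finset.range T, if b = c (t + 1) then (-1 : K) ^ t else 0 := by
          have h3 : ∀ as ∈ words L b.length,
              (if nxt x F as = some b ∧ memL x as = (z, z, z) then G as else 0) =
              ∑ t ∈ Finset.range (T + 1), if as = c t then
                (if nxt x F (c t) = some b ∧ memL x (c t) = (z, z, z) then (-1 : K) ^ t else 0)
                else 0 := by
            intro as _
            simp only [G]
            split_ifs with hc
            · apply Finset.sum_congr rfl
              intro t _
              split_ifs with h4 h5
              · rfl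
              · rw [← h4] at h5; exact absurd hc h5
              · rfl
            · symm
              apply Finset.sum_eq_zero
              intro t _
              split_ifs with h4 h5
              · rw [← h4] at h5; exact absurd h5 hc
              · rfl
              · rfl
          rw [Finset.sum_congr rfl h3, Finset.sum_comm]
          rw [Finset.sum_range_succ]
          have h4 : ∀ t, ∑ as ∈ words L b.length, (if as = c t then
              (if nxt x F (c t) = some b ∧ memL x (c t) = (z, z, z) then (-1 : K) ^ t else 0)
                else 0) =
              if nxt x F (c t) = some b ∧ memL x (c t) = (z, z, z) then (-1 : K) ^ t else 0 := by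
            intro t
            rw [Finset.sum_ite_eq', if_pos]
            rw [mem_words, length_cword, hbl]
          rw [h4, hnT]
          simp only [reduceCtorEq, false_and, if_false, add_zero, h4]
          apply Finset.sum_congr rfl
          intro t ht
          rw [Finset.mem_range] at ht
          rw [hnx t ht, hmem t ht.le]
          simp only [Option.some.injEq, and_true, eq_comm]
        rw [hs, hf0', hbl]
        have hr : r ≤ l := by omega
        by_cases hb0 : b = c 0
        · rw [if_pos ⟨hb0, hr⟩, add_sub_cancel_right]
          apply Finset.sum_eq_zero
          intro t ht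
          rw [Finset.mem_range] at ht
          rw [if_neg]
          rw [hb0]
          exact (hc0 t ht).symm
        · rw [if_neg (fun h => hb0 h.1), sub_zero]
          simp only [G]
          rw [Finset.sum_range_succ' _ T, if_neg hb0, add_zero, ← Finset.sum_add_distrib]
          apply Finset.sum_eq_zero
          intro t _
          split_ifs
          · ring
          · ring
      · rw [hGlen b hbl]
        rw [Finset.sum_eq_zero]
        · simp
        · intro as has
          rw [mem_words] at has
          rw [hGlen as (by rw [has]; exact hbl)]
          simp
  have h1 : G (c 0) = 1 := by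
    simp only [G]
    rw [Finset.sum_range_succ' _ T, if_pos rfl, pow_zero, Finset.sum_eq_zero, zero_add]
    intro t ht
    rw [Finset.mem_range] at ht
    rw [if_neg (hc0 t ht).symm]
  rw [hG0] at h1
  exact zero_ne_one h1

end

end Pool.Agent.H.MP_fc7d68_al
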