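import Pool.Agent.H.MP_fc7d68_al.Present

/-!
Presentation data for the coded modules and for the residue field.
-/

set_option linter.unusedSimpArgs false
set_option linter.unusedSectionVars false

namespace Pool.Agent.H.MP_fc7d68_al

open MvPolynomial Mdl

section

variable {K W V : Type*} [Field K] [Fintype W] [Fintype V] [DecidableEq W] [DecidableEq V]
  {c : RingCode} (eZ : W ⊕ V ≃ Fin c.1) (hI : IsGoodIdeal eZ (idealOf K c))

include hI in
theorem mem_ringDeg_one (r : RingOf K c) :
    r ∈ ringDeg K c 1 ↔ (isoR eZ hI r).c = 0 ∧ ∀ w v, (isoR eZ hI r).xy w v = 0 := by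
  constructor
  · rintro ⟨p, hp, rfl⟩
    exact ev_deg_one eZ p hp
  · rintro ⟨h1, h2⟩
    refine ⟨∑ w, C ((isoR eZ hI r).x w) * X (eZ (.inl w)) +
      ∑ v, C ((isoR eZ hI r).y v) * X (eZ (.inr v)), ?_, ?_⟩
    · apply IsHomogeneous.add
      · apply IsHomogeneous.sum
        intro w _
        rw [show (1 : ℕ) = 0 + 1 from rfl]
        exact (isHomogeneous_C _ _).mul (isHomogeneous_X _ _)
      · apply IsHomogeneous.sum
        intro w _
        rw [show (1 : ℕ) = 0 + 1 from rfl]
        exact (isHomogeneous_C _ _).mul (isHomogeneous_X _ _)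
    · have h3 : r = secR eZ _ (isoR eZ hI r) := by
        rw [← isoR_symm eZ hI, RingEquiv.symm_apply_apply]
      conv_rhs => rw [h3]
      simp [secR, h1, h2]

theorem mem_ringDeg_zero (r : RingOf K c) :
    r ∈ ringDeg K c 0 ↔ ∃ a, r = Ideal.Quotient.mk (idealOf K c) (C a) := by
  constructor
  · rintro ⟨p, hp, rfl⟩
    obtain ⟨a, rfl⟩ := (deg_zero_iff p).1 hp
    exact ⟨a, rfl⟩
  · rintro ⟨a, rfl⟩
    exact ⟨C a, isHomogeneous_C _ _, rfl⟩

section

variable {P0 P1 : Type*} [Fintype P0] [Fintype P1] [DecidableEq P0] [DecidableEq P1]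
  {d : ModCode} (eG : P0 ≃ Fin d.1) (φW : W → Matrix P1 P0 K) (φV : V → Matrix P1 P0 K)
  (hrel : ∀ v : Fin d.1 → RingOf K c, v ∈ relOf K c d ↔
    KCond φW φV (fun ν => isoR eZ hI (v (eG ν))))

include hrel in
/-- presentation data of a coded module -/
noncomputable def modData : ModData K W V P0 (fun w => (φW w).mulVecLin)
    (fun y => (φV y).mulVecLin) (RingOf K c) (ringDeg K c 1) (ModOf K c d) (modDeg K c d 0) where
  e := isoR eZ hI
  π := (relOf K c d).mkQ ∘ₗ LinearMap.funLeft (RingOf K c) (RingOf K c) eG.symm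
  surj := by
    intro m
    obtain ⟨v, rfl⟩ := Submodule.mkQ_surjective _ m
    refine ⟨fun ν => v (eG ν), ?_⟩
    change (relOf K c d).mkQ (fun k => v (eG (eG.symm k))) = _
    simp
  ker := by
    intro v
    change (relOf K c d).mkQ (fun k => v (eG.symm k)) = 0 ↔ _
    have h1 : (relOf K c d).mkQ (fun k => v (eG.symm k)) = 0 ↔
        (fun k => v (eG.symm k)) ∈ relOf K c d := Submodule.Quotient.mk_eq_zero _
    rw [h1, hrel]
    simp only [Equiv.symm_apply_apply]
    rfl
  memR1 := mem_ringDeg_one eZ hI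
  memM0 := by
    intro m
    constructor
    · rintro ⟨v, hv, rfl⟩
      have hv' : ∀ k, ∃ a, v k = Ideal.Quotient.mk (idealOf K c) (C a) := fun k =>
        (mem_ringDeg_zero _).1 (hv k)
      choose a ha using hv'
      refine ⟨fun ν => a (eG ν), ?_⟩
      change _ = (relOf K c d).mkQ (fun k => (isoR eZ hI).symm (sc (a (eG (eG.symm k)))))
      have h2 : (fun k => (isoR eZ hI).symm (sc (a (eG (eG.symm k))))) = v := by
        funext k
        rw [isoR_symm_sc, ha, Equiv.apply_symm_apply]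
      rw [h2]
      rfl
    · rintro ⟨cc, rfl⟩
      refine ⟨fun k => (isoR eZ hI).symm (sc (cc (eG.symm k))), fun k => ?_, rfl⟩
      rw [mem_ringDeg_zero]
      exact ⟨_, isoR_symm_sc eZ hI _⟩

include hrel in
theorem mem_modDeg_two (i : ℕ) (hi : 1 < i) (m : ModOf K c d) (hm : m ∈ modDeg K c d i) :
    m = 0 := by
  obtain ⟨v, hv, rfl⟩ := hm
  rw [Submodule.Quotient.mk_eq_zero, hrel]
  apply KCond_deg_two
  intro ν
  obtain ⟨p, hp, hpv⟩ := hv (eG ν)
  rw [← hpv, isoR_mk]
  exact ev_deg_two eZ p hi hp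

end

/-- the constant coefficient as a ring homomorphism -/
def cRing : Mdl K W V →+* K where
  toFun := Mdl.c
  map_one' := rfl
  map_mul' _ _ := rfl
  map_zero' := rfl
  map_add' _ _ := rfl

include hI in
theorem mem_maxOf (r : RingOf K c) : r ∈ maxOf K c ↔ (isoR eZ hI r).c = 0 := by
  constructor
  · intro hr
    have hle : maxOf K c ≤ RingHom.ker ((cRing (K := K) (W := W) (V := V)).comp
        (isoR eZ hI : RingOf K c →+* Mdl K W V)) := by
      rw [maxOf, Ideal.span_le]
      rintro _ ⟨i, rfl⟩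
      change (isoR eZ hI (Ideal.Quotient.mk (idealOf K c) (X i))).c = 0
      rw [isoR_mk, ev_X]
      simp
    exact hle hr
  · intro hr
    have hX : ∀ i, Ideal.Quotient.mk (idealOf K c) (X i) ∈ maxOf K c := fun i =>
      Ideal.subset_span ⟨i, rfl⟩
    have h3 : r = secR eZ _ (isoR eZ hI r) := by
      rw [← isoR_symm eZ hI, RingEquiv.symm_apply_apply]
    rw [h3, secR, hr]
    simp only [map_zero, zero_add]
    refine Ideal.add_mem _ (Ideal.add_mem _ ?_ ?_) ?_
    · exact Ideal.sum_mem _ fun w _ => Ideal.mul_mem_left _ _ (hX _)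
    · exact Ideal.sum_mem _ fun w _ => Ideal.mul_mem_left _ _ (hX _)
    · exact Ideal.sum_mem _ fun w _ => Ideal.sum_mem _ fun v _ =>
        Ideal.mul_mem_left _ _ (Ideal.mul_mem_left _ _ (hX _))

/-- presentation data of the residue field -/
noncomputable def resData : ModData K W V Unit (fun _ : W => (0 : (Unit → K) →ₗ[K] PUnit))
    (fun _ : V => (0 : (Unit → K) →ₗ[K] PUnit)) (RingOf K c) (ringDeg K c 1)
    (RingOf K c ⧸ maxOf K c)
    {m | ∃ a : K, Ideal.Quotient.mk (maxOf K c) (Ideal.Quotient.mk (idealOf K c) (C a)) = m} where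
  e := isoR eZ hI
  π := (Submodule.mkQ (maxOf K c)) ∘ₗ LinearMap.proj ()
  surj := by
    intro m
    obtain ⟨v, rfl⟩ := Submodule.mkQ_surjective _ m
    exact ⟨fun _ => v, rfl⟩
  ker := by
    intro v
    change Submodule.mkQ (maxOf K c) (v ()) = 0 ↔ _
    have h1 : Submodule.mkQ (maxOf K c) (v ()) = 0 ↔ v () ∈ maxOf K c :=
      Submodule.Quotient.mk_eq_zero _
    rw [h1, mem_maxOf eZ hI]
    constructor
    · intro h
      exact ⟨fun _ => h, Subsingleton.elim _ _⟩
    · intro h
      exact h.1 ()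
  memR1 := mem_ringDeg_one eZ hI
  memM0 := by
    intro m
    constructor
    · rintro ⟨a, rfl⟩
      refine ⟨fun _ => a, ?_⟩
      change _ = Submodule.mkQ (maxOf K c) ((isoR eZ hI).symm (sc a))
      rw [isoR_symm_sc]
      rfl
    · rintro ⟨cc, rfl⟩
      refine ⟨cc (), ?_⟩
      change _ = Submodule.mkQ (maxOf K c) ((isoR eZ hI).symm (sc (cc ())))
      rw [isoR_symm_sc]
      rfl

include hI in
theorem isKoszul_of_good : IsKoszul K c := by
  have hs : ∀ i, Function.Surjective (psi (fun _ : W => (0 : (Unit → K) →ₗ[K] PUnit))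
      (fun _ : V => (0 : (Unit → K) →ₗ[K] PUnit)) i) := by
    intro i q
    exact ⟨0, Subsingleton.elim _ _⟩
  exact (hasLinearResolution_iff (resData eZ hI) (hs 0)).2 hs

end

end Pool.Agent.H.MP_fc7d68_al
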