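import Pool.Agent.H.MP_fc7d68_al.Machine2
import Pool.Agent.H.MP_fc7d68_al.Present2

/-!
The relations of the instance: typed version.
-/

set_option linter.unusedSimpArgs false
set_option linter.unusedSectionVars false
set_option synthInstance.maxSize 1000

namespace Pool.Agent.H.MP_fc7d68_al

section

variable {K : Type*} [Field K] {L : Type} [DecidableEq L] [Fintype L]

/-- all letters -/
abbrev ZZ (L : Type) := WL L ⊕ VL L

/-- keys: a letter and a generator -/
abbrev KY (L : Type) (r : ℕ) := ZZ L × I0 (NN L r) Bool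

variable (x : L) (r : ℕ)

/-- a letter and a generator producing a given basis element of degree one -/
def defz : I1 L (NN L r) → KY L r
  | .inl _ => (.inr .vs, .inr (.inl (.inr (.inl (x, x, x)))))
  | .inr (.inl n) => (.inl .w0, .inr (.inl n))
  | .inr (.inr (.inl (a, n))) => (.inl (.wa a), .inl n)
  | .inr (.inr (.inr n)) => (.inl .we, .inl n)

variable (z : L) (F : L × L × L → Option L) (f0 : ℕ → L)

/-- transitions out of a state, as entries -/
def entT (a : L) : NN L r → List (KY L r × ℤ)
  | .inl m =>
    match F m with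
    | some b => [((.inr (.vb b), .inr (.inl (.inl (upd m a)))), -1)]
    | none => []
  | .inr (.inl m) => [((.inr (.vb a), .inr (.inl (.inr (.inl (upd m a))))), -1)]
  | .inr (.inr i) =>
    if a = f0 i then [((.inr (.vb a), .inr (.inl (.inr (.inr (nextFin r i))))), -1)] else []

/-- outputs of a state, as entries -/
def entO : NN L r → List (KY L r × ℤ)
  | .inl m => if m = (z, z, z) then [((.inr .ve, .inr (.inr false)), -1)] else []
  | .inr (.inl m) => ((.inr .ve, .inr (.inr false)), -1) ::
      if m = (z, z, z) then [] else [((.inr .ve, .inr (.inr true)), -1)]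
  | .inr (.inr i) => if (i : ℕ) = r then [((.inr .ve, .inr (.inr false)), 1)] else []

/-- all entries with a given target -/
def entOf : I1 L (NN L r) → List (KY L r × ℤ)
  | .inl _ => [((.inr .vs, .inr (.inl (.inl (x, x, x)))), -1),
      ((.inr .vs, .inr (.inl (.inr (.inl (x, x, x))))), -1),
      ((.inr .vs, .inr (.inl (.inr (.inr 0)))), -1)]
  | .inr (.inl n) => [((.inr .v0, .inl n), -1), ((.inl .w0, .inr (.inl n)), -1)]
  | .inr (.inr (.inl (a, n))) => ((.inl (.wa a), .inl n), -1) :: entT r F f0 a n
  | .inr (.inr (.inr n)) => ((.inl .we, .inl n), -1) :: entO r z n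

variable (K) in
/-- the matrices of the instance -/
abbrev PH : ZZ L → Matrix (I1 L (NN L r)) (I0 (NN L r) Bool) K :=
  phi (phiW K) (phiV (gam K x r) (TT K F r f0) (lam K z r))

theorem sum_map_nil {A : Type*} {K : Type*} [Field K] (f : A → K) : (([] : List A).map f).sum = 0 := rfl
theorem sum_map_cons {A : Type*} {K : Type*} [Field K] (f : A → K) (a : A) (l : List A) :
    ((a :: l).map f).sum = f a + (l.map f).sum := rfl

theorem entOf_sum_iS (k : KY L r) :
    ((entOf x r z F f0 (.inl ())).map fun t => if t.1 = k then (t.2 : K) else 0).sum =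
      - PH K x r z F f0 k.1 (.inl ()) k.2 := by
  obtain ⟨ζ, ν⟩ := k
  simp only [entOf, sum_map_cons, sum_map_nil, add_zero]
  rcases ζ with ζ | (_ | _ | _ | b)
  · rcases ζ with _ | _ | a <;> simp [PH, phi, phiW]
  · rcases ν with ν | (m | m | i) | o
    · simp [PH, phi, phiV]
    · by_cases h : m = (x, x, x)
      · simp [PH, phi, phiV, gam, h]
      · simp [PH, phi, phiV, gam, h, Ne.symm h]
    · by_cases h : m = (x, x, x)
      · simp [PH, phi, phiV, gam, h]
      · simp [PH, phi, phiV, gam, h, Ne.symm h]
    · by_cases h : i = 0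
      · simp [PH, phi, phiV, gam, h]
      · simp [PH, phi, phiV, gam, h, Ne.symm h]
    · simp [PH, phi, phiV]
  · simp [PH, phi, phiV]
  · simp [PH, phi, phiV]
  · simp [PH, phi, phiV]

theorem entOf_sum_iN (n : NN L r) (k : KY L r) :
    ((entOf x r z F f0 (.inr (.inl n))).map fun t => if t.1 = k then (t.2 : K) else 0).sum =
      - PH K x r z F f0 k.1 (.inr (.inl n)) k.2 := by
  obtain ⟨ζ, ν⟩ := k
  simp only [entOf, sum_map_cons, sum_map_nil, add_zero]
  rcases ζ with (_ | _ | a) | (_ | _ | _ | b)
  · rcases ν with n' | n' | o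
    · simp [PH, phi, phiW]
    · by_cases h : n = n'
      · simp [PH, phi, phiW, h]
      · simp [PH, phi, phiW, h]
    · simp [PH, phi, phiW]
  · simp [PH, phi, phiW]
  · simp [PH, phi, phiW]
  · rcases ν with n' | n' | o <;> simp [PH, phi, phiV]
  · rcases ν with n' | n' | o
    · by_cases h : n = n'
      · simp [PH, phi, phiV, h]
      · simp [PH, phi, phiV, h]
    · simp [PH, phi, phiV]
    · simp [PH, phi, phiV]
  · rcases ν with n' | n' | o <;> simp [PH, phi, phiV]
  · rcases ν with n' | n' | o <;> simp [PH, phi, phiV]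

theorem entT_sum (a : L) (n : NN L r) (k : KY L r) :
    ((entT r F f0 a n).map fun t => if t.1 = k then (t.2 : K) else 0).sum =
      - (match k with
        | (.inr (.vb b), .inr (.inl n1)) => TT K F r f0 n a b n1
        | _ => 0) := by
  obtain ⟨ζ, ν⟩ := k
  rcases n with m | m | i
  · rcases hF : F m with _ | b'
    · simp only [entT, hF, sum_map_nil]
      rcases ζ with ζ | (_ | _ | _ | b) <;> rcases ν with n' | (m' | m' | i) | o <;>
        simp [TT, hF]
    · simp only [entT, hF, sum_map_cons, sum_map_nil, add_zero]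
      rcases ζ with ζ | (_ | _ | _ | b)
      · simp
      · simp
      · simp
      · simp
      · rcases ν with n' | (m' | m' | i) | o
        · simp
        · simp only [Prod.mk.injEq, Sum.inr.injEq, VL.vb.injEq, Sum.inl.injEq, TT, hF,
            Option.some.injEq, eq_comm (a := upd m a)]
          split_ifs <;> simp
        · simp [TT]
        · simp [TT]
        · simp
  · simp only [entT, sum_map_cons, sum_map_nil, add_zero]
    rcases ζ with ζ | (_ | _ | _ | b)
    · simp
    · simp
    · simp
    · simp
    · rcases ν with n' | (m' | m' | i) | o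
      · simp
      · simp [TT]
      · simp only [Prod.mk.injEq, Sum.inr.injEq, VL.vb.injEq, Sum.inl.injEq, TT,
          eq_comm (a := upd m a), eq_comm (a := b)]
        split_ifs <;> simp
      · simp [TT]
      · simp
  · by_cases ha : a = f0 i
    · simp only [entT, if_pos ha, sum_map_cons, sum_map_nil, add_zero]
      rcases ζ with ζ | (_ | _ | _ | b)
      · simp
      · simp
      · simp
      · simp
      · rcases ν with n' | (m' | m' | i') | o
        · simp
        · simp [TT]
        · simp [TT]
        · simp only [Prod.mk.injEq, Sum.inr.injEq, VL.vb.injEq, Sum.inl.injEq, TT,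
            eq_comm (a := nextFin r i), eq_comm (a := b), ha, true_and]
          split_ifs <;> simp
        · simp
    · simp only [entT, if_neg ha, sum_map_nil]
      rcases ζ with ζ | (_ | _ | _ | b) <;> rcases ν with n' | (m' | m' | i) | o <;>
        simp [TT, ha]

theorem entOf_sum_iT (a : L) (n : NN L r) (k : KY L r) :
    ((entOf x r z F f0 (.inr (.inr (.inl (a, n))))).map
      fun t => if t.1 = k then (t.2 : K) else 0).sum =
      - PH K x r z F f0 k.1 (.inr (.inr (.inl (a, n)))) k.2 := by
  rw [entOf, sum_map_cons, entT_sum]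
  obtain ⟨ζ, ν⟩ := k
  rcases ζ with (_ | _ | a') | (_ | _ | _ | b)
  · simp [PH, phi, phiW]
  · simp [PH, phi, phiW]
  · rcases ν with n' | n' | o
    · simp only [Prod.mk.injEq, Sum.inl.injEq, WL.wa.injEq, PH, phi, phiW, Sum.elim_inl,
        Matrix.of_apply, neg_zero, add_zero]
      split_ifs <;> simp
    · simp [PH, phi, phiW]
    · simp [PH, phi, phiW]
  · rcases ν with n' | n' | o <;> simp [PH, phi, phiV]
  · rcases ν with n' | n' | o <;> simp [PH, phi, phiV]
  · rcases ν with n' | n' | o <;> simp [PH, phi, phiV]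
  · rcases ν with n' | n' | o <;> simp [PH, phi, phiV]

theorem entO_sum (n : NN L r) (k : KY L r) :
    ((entO r z n).map fun t => if t.1 = k then (t.2 : K) else 0).sum =
      - (match k with
        | (.inr .ve, .inr (.inr o)) => lam K z r n o
        | _ => 0) := by
  obtain ⟨ζ, ν⟩ := k
  rcases n with m | m | i
  · by_cases hm : m = (z, z, z)
    · simp only [entO, if_pos hm, sum_map_cons, sum_map_nil, add_zero]
      rcases ζ with ζ | (_ | _ | _ | b)
      · simp
      · simp
      · simp
      · rcases ν with n' | n' | (_ | _) <;> simp [lam, hm]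
      · simp
    · simp only [entO, if_neg hm, sum_map_nil]
      rcases ζ with ζ | (_ | _ | _ | b) <;> rcases ν with n' | n' | (_ | _) <;> simp [lam, hm]
  · by_cases hm : m = (z, z, z)
    · simp only [entO, if_pos hm, sum_map_cons, sum_map_nil, add_zero]
      rcases ζ with ζ | (_ | _ | _ | b)
      · simp
      · simp
      · simp
      · rcases ν with n' | n' | (_ | _) <;> simp [lam, hm]
      · simp
    · simp only [entO, if_neg hm, sum_map_cons, sum_map_nil, add_zero]
      rcases ζ with ζ | (_ | _ | _ | b) <;> rcases ν with n' | n' | (_ | _) <;> simp [lam, hm]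
  · have hi : i = Fin.last r ↔ (i : ℕ) = r := by
      rw [Fin.ext_iff, Fin.val_last]
    by_cases hir : (i : ℕ) = r
    · simp only [entO, if_pos hir, sum_map_cons, sum_map_nil, add_zero]
      rcases ζ with ζ | (_ | _ | _ | b)
      · simp
      · simp
      · simp
      · rcases ν with n' | n' | (_ | _) <;> simp [lam, hi, hir]
      · simp
    · simp only [entO, if_neg hir, sum_map_nil]
      rcases ζ with ζ | (_ | _ | _ | b) <;> rcases ν with n' | n' | (_ | _) <;>
        simp [lam, hi, hir]

theorem entOf_sum_iE (n : NN L r) (k : KY L r) :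
    ((entOf x r z F f0 (.inr (.inr (.inr n)))).map
      fun t => if t.1 = k then (t.2 : K) else 0).sum =
      - PH K x r z F f0 k.1 (.inr (.inr (.inr n))) k.2 := by
  rw [entOf, sum_map_cons, entO_sum]
  obtain ⟨ζ, ν⟩ := k
  rcases ζ with (_ | _ | a') | (_ | _ | _ | b)
  · simp [PH, phi, phiW]
  · rcases ν with n' | n' | o
    · simp only [Prod.mk.injEq, Sum.inl.injEq, PH, phi, phiW, Sum.elim_inl, true_and,
        Matrix.of_apply, neg_zero, add_zero]
      split_ifs <;> simp
    · simp [PH, phi, phiW]
    · simp [PH, phi, phiW]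
  · simp [PH, phi, phiW]
  · rcases ν with n' | n' | o <;> simp [PH, phi, phiV]
  · rcases ν with n' | n' | o <;> simp [PH, phi, phiV]
  · rcases ν with n' | n' | o <;> simp [PH, phi, phiV]
  · rcases ν with n' | n' | o <;> simp [PH, phi, phiV]

theorem entOf_sum (μ : I1 L (NN L r)) (k : KY L r) :
    ((entOf x r z F f0 μ).map fun t => if t.1 = k then (t.2 : K) else 0).sum =
      - PH K x r z F f0 k.1 μ k.2 := by
  rcases μ with ⟨⟩ | n | ⟨a, n⟩ | n
  · exact entOf_sum_iS x r z F f0 k
  · exact entOf_sum_iN x r z F f0 n k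
  · exact entOf_sum_iT x r z F f0 a n k
  · exact entOf_sum_iE x r z F f0 n k

theorem PH_defz (μ μ' : I1 L (NN L r)) :
    PH K x r z F f0 (defz x r μ).1 μ' (defz x r μ).2 = if μ' = μ then 1 else 0 := by
  rcases μ with ⟨⟩ | n | ⟨a, n⟩ | n <;> rcases μ' with ⟨⟩ | n' | ⟨a', n'⟩ | n' <;>
    simp [defz, PH, phi, phiW, phiV, gam]

end

end Pool.Agent.H.MP_fc7d68_al
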