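import Pool.Agent.H.MP_fc7d68_al.Inst

/-!
The relations of the instance: kernel conditions and codes.
-/

set_option linter.unusedSimpArgs false
set_option linter.unusedSectionVars false
set_option synthInstance.maxSize 1000

namespace Pool.Agent.H.MP_fc7d68_al

open MvPolynomial Mdl

section

variable {K W V : Type*} [Field K] [Fintype W] [Fintype V] [DecidableEq W] [DecidableEq V]
  {P0 P1 : Type*} [Fintype P0] [Fintype P1] [DecidableEq P0] [DecidableEq P1]

/-- the linear functional of a basis element of degree one -/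
def LPhi (φW : W → Matrix P1 P0 K) (φV : V → Matrix P1 P0 K) (μ : P1) :
    (P0 → Mdl K W V) →+ K where
  toFun v := ∑ w, ∑ ν, φW w μ ν * (v ν).x w + ∑ y, ∑ ν, φV y μ ν * (v ν).y y
  map_zero' := by simp
  map_add' u v := by
    simp only [Pi.add_apply, x_add, y_add, mul_add, Finset.sum_add_distrib]
    ring

theorem LPhi_sc (φW : W → Matrix P1 P0 K) (φV : V → Matrix P1 P0 K) (μ : P1) (a : K)
    (v : P0 → Mdl K W V) : LPhi φW φV μ (fun ν => sc a * v ν) = a * LPhi φW φV μ v := by
  simp only [LPhi, AddMonoidHom.coe_mk, ZeroHom.coe_mk, x_mul, y_mul, c_sc, x_sc, y_sc, zero_mul,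
    add_zero, mul_add, Finset.mul_sum]
  congr 1
  · refine Finset.sum_congr rfl fun w _ => Finset.sum_congr rfl fun ν _ => ?_
    ring
  · refine Finset.sum_congr rfl fun w _ => Finset.sum_congr rfl fun ν _ => ?_
    ring

theorem LPhi_single (φW : W → Matrix P1 P0 K) (φV : V → Matrix P1 P0 K) (μ : P1) (z : W ⊕ V)
    (ν : P0) : LPhi φW φV μ (Pi.single ν (gen z)) = phi φW φV z μ ν := by
  simp only [LPhi, AddMonoidHom.coe_mk, ZeroHom.coe_mk]
  have h1 : ∀ w, ∑ ν', φW w μ ν' * ((Pi.single ν (gen z) : P0 → Mdl K W V) ν').x w =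
      φW w μ ν * (gen z : Mdl K W V).x w := by
    intro w
    rw [Finset.sum_eq_single ν]
    · rw [Pi.single_eq_same]
    · intro ν' _ h
      rw [Pi.single_eq_of_ne h, x_zero, mul_zero]
    · intro h; exact absurd (Finset.mem_univ _) h
  have h2 : ∀ w, ∑ ν', φV w μ ν' * ((Pi.single ν (gen z) : P0 → Mdl K W V) ν').y w =
      φV w μ ν * (gen z : Mdl K W V).y w := by
    intro w
    rw [Finset.sum_eq_single ν]
    · rw [Pi.single_eq_same]
    · intro ν' _ h
      rw [Pi.single_eq_of_ne h, y_zero, mul_zero]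
    · intro h; exact absurd (Finset.mem_univ _) h
  simp only [h1, h2]
  rcases z with w | v
  · simp [phi, Pi.single_apply]
  · simp [phi, Pi.single_apply]

theorem KCond_iff_LPhi {φW : W → Matrix P1 P0 K} {φV : V → Matrix P1 P0 K}
    {v : P0 → Mdl K W V} :
    KCond φW φV v ↔ (∀ ν, (v ν).c = 0) ∧ ∀ μ, LPhi φW φV μ v = 0 :=
  KCond_iff_phi

theorem KCond_rel (φW : W → Matrix P1 P0 K) (φV : V → Matrix P1 P0 K)
    (defz : P1 → (W ⊕ V) × P0)
    (hdef : ∀ μ μ', phi φW φV (defz μ).1 μ' (defz μ).2 = if μ' = μ then 1 else 0)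
    (z : W ⊕ V) (ν : P0) :
    KCond φW φV ((Pi.single ν (gen z) : P0 → Mdl K W V) -
      ∑ μ, (fun ν' => sc (phi φW φV z μ ν) *
        (Pi.single (defz μ).2 (gen (defz μ).1) : P0 → Mdl K W V) ν')) := by
  rw [KCond_iff_LPhi]
  constructor
  · intro ν'
    have hc : ∀ (ν : P0) (z : W ⊕ V), ((Pi.single ν (gen z) : P0 → Mdl K W V) ν').c = 0 := by
      intro ν z
      by_cases h : ν' = ν
      · subst h; rw [Pi.single_eq_same]; simp
      · rw [Pi.single_eq_of_ne h]; simp
    simp only [Pi.sub_apply, c_sub, Finset.sum_apply, c_sum, c_mul, hc, mul_zero,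
      Finset.sum_const_zero, sub_zero]
  · intro μ'
    rw [map_sub, map_sum, LPhi_single]
    simp only [LPhi_sc, LPhi_single, hdef]
    simp

end

end Pool.Agent.H.MP_fc7d68_al
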