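import Pool.Agent.H.MP_fc7d68_al.Inst2

/-!
The relation submodule of a coded module given by a list of entries.
-/

set_option linter.unusedSimpArgs false
set_option linter.unusedSectionVars false
set_option synthInstance.maxSize 1000

namespace Pool.Agent.H.MP_fc7d68_al

open MvPolynomial Mdl

/-- numeric entries -/
abbrev NEnt := (ℕ × ℕ) × ℤ × (ℕ × ℕ)

/-- the relation with leading term `x_z e_ν` -/
def relCode (E : List NEnt) (z ν : ℕ) : VecCode :=
  ((1 : ℤ), [z], ν) :: (E.filter fun t => decide (t.1 = (z, ν))).map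
    fun t => (t.2.1, [t.2.2.1], t.2.2.2)

/-- all relations -/
def relsCode (n g : ℕ) (E : List NEnt) : List VecCode :=
  ((List.range n).flatMap fun z => (List.range g).map fun ν => relCode E z ν) ++
  (List.range n).flatMap fun z => (List.range n).flatMap fun z' =>
    (List.range g).map fun ν => [((1 : ℤ), [z, z'], ν)]

theorem monOf_singleton (K : Type*) [Field K] {n : ℕ} (i : Fin n) :
    monOf K n [(i : ℕ)] = X i := by
  simp [monOf]

theorem monOf_pair (K : Type*) [Field K] {n : ℕ} (i j : Fin n) :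
    monOf K n [(i : ℕ), (j : ℕ)] = X i * X j := by
  simp [monOf]

theorem monOf_isHomogeneous (K : Type*) [Field K] (n : ℕ) (l : List ℕ) :
    (monOf K n l).IsHomogeneous l.length := by
  induction l with
  | nil => simpa [monOf] using isHomogeneous_one (Fin n) K
  | cons i l ih =>
    have h : monOf K n (i :: l) = (if h : i < n then X ⟨i, h⟩ else 0) * monOf K n l := rfl
    rw [h, List.length_cons, add_comm]
    refine IsHomogeneous.mul ?_ ih
    split_ifs
    · exact isHomogeneous_X _ _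
    · exact isHomogeneous_zero _ _ _

theorem intCast_isHomogeneous (K : Type*) [Field K] (n : ℕ) (a : ℤ) :
    (a : MvPolynomial (Fin n) K).IsHomogeneous 0 := by
  have h : (a : MvPolynomial (Fin n) K) = C (a : K) := by simp
  rw [h]
  exact isHomogeneous_C _ _

theorem vecOf_isHomogeneous (K : Type*) [Field K] (n g : ℕ) (v : VecCode) (i : ℕ)
    (hv : ∀ t ∈ v, t.2.1.length = i) (k : Fin g) : (vecOf K n g v k).IsHomogeneous i := by
  induction v with
  | nil => simpa [vecOf] using isHomogeneous_zero (Fin n) K i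
  | cons t v ih =>
    have h : vecOf K n g (t :: v) k =
      (if t.2.2 = (k : ℕ) then (t.1 : MvPolynomial (Fin n) K) * monOf K n t.2.1 else 0) +
        vecOf K n g v k := rfl
    rw [h]
    refine IsHomogeneous.add ?_ (ih fun t ht => hv t (List.mem_cons_of_mem _ ht))
    split_ifs
    · have h1 := (intCast_isHomogeneous K n t.1).mul (monOf_isHomogeneous K n t.2.1)
      rw [zero_add, hv t List.mem_cons_self] at h1
      exact h1
    · exact isHomogeneous_zero _ _ _

section

variable {K W V : Type*} [Field K] [Fintype W] [Fintype V] [DecidableEq W] [DecidableEq V]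
  {P0 P1 : Type*} [Fintype P0] [Fintype P1] [DecidableEq P0] [DecidableEq P1]
  {c : RingCode} (eZ : W ⊕ V ≃ Fin c.1) (hI : IsGoodIdeal eZ (idealOf K c))
  {g : ℕ} (eG : P0 ≃ Fin g)

/-- vectors of a code, reindexed -/
noncomputable def vecP (c : RingCode) {g : ℕ} (eG : P0 ≃ Fin g) (v : VecCode) :
    P0 → RingOf K c :=
  fun ν => Ideal.Quotient.mk (idealOf K c) (vecOf K c.1 g v (eG ν))

theorem vecP_nil : vecP (K := K) c eG [] = 0 := by
  funext ν
  simp [vecP, vecOf]

theorem vecP_cons (a : ℤ) (l : List ℕ) (ν : P0) (v : VecCode) :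
    vecP (K := K) c eG ((a, l, (eG ν : ℕ)) :: v) =
      (a : RingOf K c) • (Pi.single ν (Ideal.Quotient.mk (idealOf K c) (monOf K c.1 l)) :
        P0 → RingOf K c) + vecP c eG v := by
  funext ν'
  have h : vecOf K c.1 g ((a, l, (eG ν : ℕ)) :: v) (eG ν') =
      (if (eG ν : ℕ) = (eG ν' : ℕ) then (a : MvPolynomial (Fin c.1) K) * monOf K c.1 l else 0) +
        vecOf K c.1 g v (eG ν') := rfl
  rw [vecP, h, map_add]
  change _ = (a : RingOf K c) • (Pi.single ν (Ideal.Quotient.mk (idealOf K c) (monOf K c.1 l)) :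
        P0 → RingOf K c) ν' + vecP c eG v ν'
  congr 1
  by_cases hν : ν = ν'
  · subst hν
    rw [if_pos rfl, Pi.single_eq_same, map_mul, map_intCast, smul_eq_mul]
  · rw [if_neg, map_zero, Pi.single_eq_of_ne (Ne.symm hν), smul_zero]
    intro h
    exact hν (eG.injective (Fin.ext h))

theorem vecP_map {T : Type*} (l : List T) (a : T → ℤ) (m : T → List ℕ) (ν : T → P0) :
    vecP (K := K) c eG (l.map fun t => (a t, m t, (eG (ν t) : ℕ))) =
      (l.map fun t => (a t : RingOf K c) •
        (Pi.single (ν t) (Ideal.Quotient.mk (idealOf K c) (monOf K c.1 (m t))) :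
          P0 → RingOf K c)).sum := by
  induction l with
  | nil => exact vecP_nil eG
  | cons t l ih =>
    rw [List.map_cons, vecP_cons, ih, List.map_cons, List.sum_cons]

/-- numeric version of an entry -/
def encE (eZ : W ⊕ V ≃ Fin c.1) (eG : P0 ≃ Fin g) (t : ((W ⊕ V) × P0) × ℤ × ((W ⊕ V) × P0)) :
    NEnt :=
  (((eZ t.1.1 : ℕ), (eG t.1.2 : ℕ)), t.2.1, ((eZ t.2.2.1 : ℕ), (eG t.2.2.2 : ℕ)))

theorem vecP_relCode (EE : List (((W ⊕ V) × P0) × ℤ × ((W ⊕ V) × P0))) (z : W ⊕ V) (ν : P0) :
    vecP (K := K) c eG (relCode (EE.map (encE eZ eG)) (eZ z) (eG ν)) =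
      Pi.single ν (Ideal.Quotient.mk (idealOf K c) (X (eZ z))) +
      ((EE.filter fun t => decide (t.1 = (z, ν))).map fun t => (t.2.1 : RingOf K c) •
        (Pi.single t.2.2.2 (Ideal.Quotient.mk (idealOf K c) (X (eZ t.2.2.1))) :
          P0 → RingOf K c)).sum := by
  rw [relCode, vecP_cons, monOf_singleton, Int.cast_one, one_smul]
  congr 1
  rw [List.filter_map, List.map_map]
  have h1 : (List.filter ((fun t : NEnt => decide (t.1 = ((eZ z : ℕ), (eG ν : ℕ)))) ∘
      encE eZ eG) EE) = EE.filter fun t => decide (t.1 = (z, ν)) := by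
    apply List.filter_congr
    intro t _
    simp only [Function.comp_apply, encE, decide_eq_decide, Prod.mk.injEq]
    rw [Prod.ext_iff]
    simp only [Fin.val_inj, EmbeddingLike.apply_eq_iff_eq]
  rw [h1]
  have h2 : ((fun t : NEnt => (t.2.1, [t.2.2.1], t.2.2.2)) ∘ encE eZ eG) =
      fun t : ((W ⊕ V) × P0) × ℤ × ((W ⊕ V) × P0) =>
        (t.2.1, [(eZ t.2.2.1 : ℕ)], (eG t.2.2.2 : ℕ)) := rfl
  rw [h2]
  rw [vecP_map]
  simp only [monOf_singleton]

theorem vecP_quad (z z' : W ⊕ V) (ν : P0) :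
    vecP (K := K) c eG [((1 : ℤ), [(eZ z : ℕ), (eZ z' : ℕ)], (eG ν : ℕ))] =
      Pi.single ν (Ideal.Quotient.mk (idealOf K c) (X (eZ z)) *
        Ideal.Quotient.mk (idealOf K c) (X (eZ z'))) := by
  rw [vecP_cons, vecP_nil, monOf_pair, Int.cast_one, one_smul, add_zero, map_mul]

theorem hrel_of (φW : W → Matrix P1 P0 K) (φV : V → Matrix P1 P0 K)
    (defz : P1 → (W ⊕ V) × P0)
    (hdef : ∀ μ μ', phi φW φV (defz μ).1 μ' (defz μ).2 = if μ' = μ then 1 else 0)
    (EE : List (((W ⊕ V) × P0) × ℤ × ((W ⊕ V) × P0)))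
    (hEE : ∀ (k : (W ⊕ V) × P0) (h : (W ⊕ V) × P0 → P0 → RingOf K c),
      ((EE.filter fun t => decide (t.1 = k)).map fun t => (t.2.1 : RingOf K c) • h t.2.2).sum =
      - ∑ μ, Ideal.Quotient.mk (idealOf K c) (C (phi φW φV k.1 μ k.2)) • h (defz μ))
    (v : Fin g → RingOf K c) :
    v ∈ relOf K c (g, relsCode c.1 g (EE.map (encE eZ eG))) ↔
      KCond φW φV (fun ν => isoR eZ hI (v (eG ν))) := by
  have hcode : ∀ z ν, vecP (K := K) c eG (relCode (EE.map (encE eZ eG)) (eZ z) (eG ν)) =
      Pi.single ν (Ideal.Quotient.mk (idealOf K c) (X (eZ z))) -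
      ∑ μ, Ideal.Quotient.mk (idealOf K c) (C (phi φW φV z μ ν)) •
        (Pi.single (defz μ).2 (Ideal.Quotient.mk (idealOf K c) (X (eZ (defz μ).1))) :
          P0 → RingOf K c) := by
    intro z ν
    rw [vecP_relCode, sub_eq_add_neg]
    congr 1
    exact hEE (z, ν) (fun k => Pi.single k.2 (Ideal.Quotient.mk (idealOf K c) (X (eZ k.1))))
  have hmem1 : ∀ z ν, relCode (EE.map (encE eZ eG)) (eZ z) (eG ν) ∈
      relsCode c.1 g (EE.map (encE eZ eG)) := by
    intro z ν
    rw [relsCode, List.mem_append]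
    left
    rw [List.mem_flatMap]
    refine ⟨(eZ z : ℕ), List.mem_range.2 (eZ z).2, ?_⟩
    rw [List.mem_map]
    exact ⟨(eG ν : ℕ), List.mem_range.2 (eG ν).2, rfl⟩
  have hmem2 : ∀ z z' ν, [((1 : ℤ), [(eZ z : ℕ), (eZ z' : ℕ)], (eG ν : ℕ))] ∈
      relsCode c.1 g (EE.map (encE eZ eG)) := by
    intro z z' ν
    rw [relsCode, List.mem_append]
    right
    rw [List.mem_flatMap]
    refine ⟨(eZ z : ℕ), List.mem_range.2 (eZ z).2, ?_⟩
    rw [List.mem_flatMap]
    refine ⟨(eZ z' : ℕ), List.mem_range.2 (eZ z').2, ?_⟩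
    rw [List.mem_map]
    exact ⟨(eG ν : ℕ), List.mem_range.2 (eG ν).2, rfl⟩
  have hcases : ∀ q ∈ relsCode c.1 g (EE.map (encE eZ eG)),
      (∃ z ν, q = relCode (EE.map (encE eZ eG)) (eZ z) (eG ν)) ∨
      ∃ z z' ν, q = [((1 : ℤ), [(eZ z : ℕ), (eZ z' : ℕ)], (eG ν : ℕ))] := by
    intro q hq
    rw [relsCode, List.mem_append] at hq
    rcases hq with hq | hq
    · rw [List.mem_flatMap] at hq
      obtain ⟨z, hz, hq⟩ := hq
      rw [List.mem_map] at hq
      obtain ⟨ν, hν, rfl⟩ := hq
      rw [List.mem_range] at hz hν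
      left
      refine ⟨eZ.symm ⟨z, hz⟩, eG.symm ⟨ν, hν⟩, ?_⟩
      simp
    · rw [List.mem_flatMap] at hq
      obtain ⟨z, hz, hq⟩ := hq
      rw [List.mem_flatMap] at hq
      obtain ⟨z', hz', hq⟩ := hq
      rw [List.mem_map] at hq
      obtain ⟨ν, hν, rfl⟩ := hq
      rw [List.mem_range] at hz hν hz'
      right
      refine ⟨eZ.symm ⟨z, hz⟩, eZ.symm ⟨z', hz'⟩, eG.symm ⟨ν, hν⟩, ?_⟩
      simp
  have hiso : ∀ (ν ν' : P0) (r : RingOf K c),
      isoR eZ hI ((Pi.single ν r : P0 → RingOf K c) ν') =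
        (Pi.single ν (isoR eZ hI r) : P0 → Mdl K W V) ν' := by
    intro ν ν' r
    by_cases h : ν' = ν
    · subst h; rw [Pi.single_eq_same, Pi.single_eq_same]
    · rw [Pi.single_eq_of_ne h, Pi.single_eq_of_ne h, map_zero]
  constructor
  · intro hv
    rw [relOf] at hv
    induction hv using Submodule.span_induction with
    | mem v hv =>
      obtain ⟨q, hq, rfl⟩ := hv
      change KCond φW φV (fun ν => isoR eZ hI (vecP c eG q ν))
      rcases hcases q hq with ⟨z, ν, rfl⟩ | ⟨z, z', ν, rfl⟩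
      · rw [hcode]
        convert KCond_rel φW φV defz hdef z ν using 1
        funext ν'
        simp only [Pi.sub_apply, map_sub, hiso, isoR_mk, ev_X, Equiv.symm_apply_apply,
          Finset.sum_apply, map_sum, Pi.smul_apply, smul_eq_mul, map_mul, ev_C]
      · rw [vecP_quad eZ]
        apply KCond_deg_two
        intro ν'
        rw [hiso, map_mul, isoR_mk, isoR_mk, ev_X, ev_X, Equiv.symm_apply_apply,
          Equiv.symm_apply_apply]
        by_cases h : ν' = ν
        · subst h; rw [Pi.single_eq_same]; simp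
        · rw [Pi.single_eq_of_ne h]; simp
    | zero =>
      have h0 : (fun ν => isoR eZ hI ((0 : Fin g → RingOf K c) (eG ν))) =
          (0 : P0 → Mdl K W V) := by
        funext ν
        simp
      rw [h0]
      exact KCond.zero
    | add u v _ _ hu hv =>
      convert hu.add hv using 1
      funext ν
      simp
    | smul r v _ hv =>
      convert hv.smul (isoR eZ hI r) using 1
      funext ν
      simp
  · intro hv
    have hN := mem_of_KCond eZ hI φW φV defz
      ((relOf K c (g, relsCode c.1 g (EE.map (encE eZ eG)))).comap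
        (LinearMap.funLeft (RingOf K c) (RingOf K c) eG.symm)) ?_ ?_ (fun ν => v (eG ν)) hv
    · rw [Submodule.mem_comap] at hN
      convert hN using 1
      funext k
      simp [LinearMap.funLeft]
    · intro z z' ν
      rw [← vecP_quad eZ eG z z' ν, Submodule.mem_comap]
      apply Submodule.subset_span
      refine ⟨_, hmem2 z z' ν, ?_⟩
      funext k
      simp [LinearMap.funLeft, vecP]
    · intro z ν
      rw [← hcode, Submodule.mem_comap]
      apply Submodule.subset_span
      refine ⟨_, hmem1 z ν, ?_⟩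
      funext k
      simp [LinearMap.funLeft, vecP]

end

end Pool.Agent.H.MP_fc7d68_al
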