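import Pool.Agent.H.MP_fc7d68_al.Inst3

/-!
Numbering of letters and generators; the coded instance.
-/

set_option linter.unusedSimpArgs false
set_option linter.unusedSectionVars false
set_option synthInstance.maxSize 1000

namespace Pool.Agent.H.MP_fc7d68_al

open MvPolynomial Mdl

section

variable {K W V : Type*} [Field K] [Fintype W] [Fintype V] [DecidableEq W] [DecidableEq V]
  {P0 P1 : Type*} [Fintype P0] [Fintype P1] [DecidableEq P0] [DecidableEq P1]

theorem psi_zero_surjective (φW : W → Matrix P1 P0 K) (φV : V → Matrix P1 P0 K)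
    (defz : P1 → (W ⊕ V) × P0)
    (hdef : ∀ μ μ', phi φW φV (defz μ).1 μ' (defz μ).2 = if μ' = μ then 1 else 0) :
    Function.Surjective (psi (fun w => (φW w).mulVecLin) (fun y => (φV y).mulVecLin) 0) := by
  intro q
  let α : W → PW V W 0 → P0 → K := fun x _ =>
    ∑ μ, if (defz μ).1 = .inl x then q PW.nil μ • (Pi.single (defz μ).2 1 : P0 → K) else 0
  let β : V → PW V W 0 → P0 → K := fun y _ =>
    ∑ μ, if (defz μ).1 = .inr y then q PW.nil μ • (Pi.single (defz μ).2 1 : P0 → K) else 0
  refine ⟨PW.glue α β, ?_⟩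
  funext t
  rw [PW.eq_nil t, psi_apply]
  simp only [PW.sw_nil, PW.sv_nil, PW.glue_cw, PW.glue_cv_nil]
  funext μ'
  have h1 : ∀ x, (φW x).mulVecLin (α x PW.nil) μ' =
      ∑ μ, if (defz μ).1 = .inl x then q PW.nil μ * φW x μ' (defz μ).2 else 0 := by
    intro x
    simp only [α, map_sum, Finset.sum_apply]
    apply Finset.sum_congr rfl
    intro μ _
    split_ifs
    · rw [map_smul]
      simp
    · simp
  have h2 : ∀ y, (φV y).mulVecLin (β y PW.nil) μ' =
      ∑ μ, if (defz μ).1 = .inr y then q PW.nil μ * φV y μ' (defz μ).2 else 0 := by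
    intro y
    simp only [β, map_sum, Finset.sum_apply]
    apply Finset.sum_congr rfl
    intro μ _
    split_ifs
    · rw [map_smul]
      simp
    · simp
  simp only [Pi.add_apply, Finset.sum_apply, h1, h2]
  rw [Finset.sum_comm, Finset.sum_comm (s := (Finset.univ : Finset V)), ← Finset.sum_add_distrib]
  have h3 : ∀ μ, (∑ x, if (defz μ).1 = .inl x then q PW.nil μ * φW x μ' (defz μ).2 else 0) +
      (∑ y, if (defz μ).1 = .inr y then q PW.nil μ * φV y μ' (defz μ).2 else 0) =
      if μ' = μ then q PW.nil μ else 0 := by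
    intro μ
    have h4 := hdef μ μ'
    rcases h5 : (defz μ).1 with x | y
    · rw [h5] at h4
      simp only [phi, Sum.elim_inl] at h4
      simp [h4]
    · rw [h5] at h4
      simp only [phi, Sum.elim_inr] at h4
      simp [h4]
  simp only [h3]
  simp

end

section

variable {L : Type} [DecidableEq L] [Fintype L]

/-- number of letters -/
noncomputable abbrev qq (L : Type) [Fintype L] : ℕ := Fintype.card L
/-- number of memory states -/
noncomputable abbrev pp (L : Type) [Fintype L] : ℕ := Fintype.card (L × L × L)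

/-- numbering of letters -/
noncomputable def eL : L ≃ Fin (qq L) := Fintype.equivFin L
/-- numbering of memory states -/
noncomputable def eM : L × L × L ≃ Fin (pp L) := Fintype.equivFin (L × L × L)

/-- numbering of the variables -/
noncomputable def zn : ZZ L → ℕ
  | .inl (.wa a) => eL a
  | .inl .w0 => qq L
  | .inl .we => qq L + 1
  | .inr (.vb b) => qq L + 2 + eL b
  | .inr .vs => 2 * qq L + 2
  | .inr .v0 => 2 * qq L + 3
  | .inr .ve => 2 * qq L + 4

/-- numbering of the states -/
noncomputable def sn {r : ℕ} : NN L r → ℕ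
  | .inl m => eM m
  | .inr (.inl m) => pp L + eM m
  | .inr (.inr i) => 2 * pp L + i

/-- numbering of the generators -/
noncomputable def gn {r : ℕ} : I0 (NN L r) Bool → ℕ
  | .inl n => 2 + 2 * sn n
  | .inr (.inl n) => 3 + 2 * sn n
  | .inr (.inr false) => 0
  | .inr (.inr true) => 1

/-- number of variables -/
noncomputable abbrev nv (L : Type) [Fintype L] : ℕ := 2 * qq L + 5
/-- number of generators -/
noncomputable abbrev ng (L : Type) [Fintype L] (r : ℕ) : ℕ := 4 * pp L + 2 * r + 4

theorem nv_eq (L : Type) [Fintype L] : nv L = 2 * qq L + 5 := rfl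
theorem ng_eq (L : Type) [Fintype L] (r : ℕ) : ng L r = 4 * pp L + 2 * r + 4 := rfl

theorem zn_lt (z : ZZ L) : zn z < nv L := by
  have hn := nv_eq L
  rcases z with (_ | _ | a) | (_ | _ | _ | b)
  · simp only [zn]; omega
  · simp only [zn]; omega
  · have := (eL a).2; simp only [zn]; omega
  · simp only [zn]; omega
  · simp only [zn]; omega
  · simp only [zn]; omega
  · have := (eL b).2; simp only [zn]; omega

theorem zn_injective : Function.Injective (zn : ZZ L → ℕ) := by
  intro z z' h
  rcases z with (_ | _ | a) | (_ | _ | _ | b) <;> rcases z' with (_ | _ | a') | (_ | _ | _ | b')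
  all_goals simp only [zn] at h
  all_goals first | rfl | skip
  all_goals try have h1 := (eL a).2
  all_goals try have h2 := (eL a').2
  all_goals try have h3 := (eL b).2
  all_goals try have h4 := (eL b').2
  all_goals first | (exfalso; omega) | skip
  · congr 2
    exact eL.injective (Fin.ext h)
  · congr 2
    exact eL.injective (Fin.ext (by omega))

theorem zn_surjective (i : ℕ) (hi : i < nv L) : ∃ z : ZZ L, zn z = i := by
  have hn := nv_eq L
  by_cases h1 : i < qq L
  · exact ⟨.inl (.wa (eL.symm ⟨i, h1⟩)), by simp [zn]⟩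
  by_cases h2 : i = qq L
  · exact ⟨.inl .w0, by simp [zn, h2]⟩
  by_cases h3 : i = qq L + 1
  · exact ⟨.inl .we, by simp [zn, h3]⟩
  by_cases h4 : i < 2 * qq L + 2
  · refine ⟨.inr (.vb (eL.symm ⟨i - qq L - 2, by omega⟩)), ?_⟩
    simp only [zn, Equiv.apply_symm_apply]
    omega
  by_cases h5 : i = 2 * qq L + 2
  · exact ⟨.inr .vs, by simp [zn, h5]⟩
  by_cases h6 : i = 2 * qq L + 3
  · exact ⟨.inr .v0, by simp [zn, h6]⟩
  · exact ⟨.inr .ve, by simp only [zn]; omega⟩

/-- numbering of the variables -/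
noncomputable def eZ : ZZ L ≃ Fin (nv L) :=
  Equiv.ofBijective (fun z => ⟨zn z, zn_lt z⟩)
    ⟨fun z z' h => zn_injective (congrArg Fin.val h), fun i => by
      obtain ⟨z, hz⟩ := zn_surjective i.1 i.2
      exact ⟨z, Fin.ext hz⟩⟩

@[simp] theorem eZ_val (z : ZZ L) : (eZ z : ℕ) = zn z := rfl

theorem sn_lt {r : ℕ} (n : NN L r) : sn n < 2 * pp L + r + 1 := by
  rcases n with m | m | i
  · have := (eM m).2; simp only [sn]; omega
  · have := (eM m).2; simp only [sn]; omega
  · have := i.2; simp only [sn]; omega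

theorem sn_injective {r : ℕ} : Function.Injective (sn : NN L r → ℕ) := by
  intro n n' h
  rcases n with m | m | i <;> rcases n' with m' | m' | i'
  all_goals simp only [sn] at h
  all_goals try have h1 := (eM m).2
  all_goals try have h2 := (eM m').2
  all_goals try have h3 := i.2
  all_goals try have h4 := i'.2
  all_goals first | (exfalso; omega) | skip
  · congr 1
    exact eM.injective (Fin.ext h)
  · congr 2
    exact eM.injective (Fin.ext (by omega))
  · congr 2
    exact Fin.ext (by omega)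

theorem sn_surjective {r : ℕ} (i : ℕ) (hi : i < 2 * pp L + r + 1) : ∃ n : NN L r, sn n = i := by
  by_cases h1 : i < pp L
  · exact ⟨.inl (eM.symm ⟨i, h1⟩), by simp [sn]⟩
  by_cases h2 : i < 2 * pp L
  · refine ⟨.inr (.inl (eM.symm ⟨i - pp L, by omega⟩)), ?_⟩
    simp only [sn, Equiv.apply_symm_apply]
    omega
  · refine ⟨.inr (.inr ⟨i - 2 * pp L, by omega⟩), ?_⟩
    simp only [sn]
    omega

theorem gn_lt {r : ℕ} (n : I0 (NN L r) Bool) : gn n < ng L r := by
  have hn := ng_eq L r
  rcases n with n | n | (_ | _)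
  · have := sn_lt n; simp only [gn]; omega
  · have := sn_lt n; simp only [gn]; omega
  · simp only [gn]; omega
  · simp only [gn]; omega

theorem gn_injective {r : ℕ} : Function.Injective (gn : I0 (NN L r) Bool → ℕ) := by
  intro n n' h
  rcases n with m | m | (_ | _) <;> rcases n' with m' | m' | (_ | _)
  all_goals simp only [gn] at h
  all_goals first | rfl | (exfalso; omega) | skip
  · congr 1
    exact sn_injective (by omega)
  · congr 2
    exact sn_injective (by omega)

theorem gn_surjective {r : ℕ} (i : ℕ) (hi : i < ng L r) : ∃ n : I0 (NN L r) Bool, gn n = i := by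
  have hn := ng_eq L r
  by_cases h0 : i = 0
  · exact ⟨.inr (.inr false), by simp [gn, h0]⟩
  by_cases h1 : i = 1
  · exact ⟨.inr (.inr true), by simp [gn, h1]⟩
  by_cases h2 : i % 2 = 0
  · obtain ⟨n, hn⟩ := sn_surjective (L := L) (r := r) ((i - 2) / 2) (by omega)
    exact ⟨.inl n, by simp only [gn, hn]; omega⟩
  · obtain ⟨n, hn⟩ := sn_surjective (L := L) (r := r) ((i - 3) / 2) (by omega)
    exact ⟨.inr (.inl n), by simp only [gn, hn]; omega⟩

/-- numbering of the generators -/
noncomputable def eG (r : ℕ) : I0 (NN L r) Bool ≃ Fin (ng L r) :=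
  Equiv.ofBijective (fun z => ⟨gn z, gn_lt z⟩)
    ⟨fun z z' h => gn_injective (congrArg Fin.val h), fun i => by
      obtain ⟨z, hz⟩ := gn_surjective i.1 i.2
      exact ⟨z, Fin.ext hz⟩⟩

@[simp] theorem eG_val {r : ℕ} (z : I0 (NN L r) Bool) : (eG r z : ℕ) = gn z := rfl

/-- generators of the ideal -/
def idealCode (q : ℕ) : List PolyCode :=
  ((List.range (q + 2)).flatMap fun i => (List.range (q + 2)).map fun j => [((1 : ℤ), [i, j])]) ++
  (List.range (q + 3)).flatMap fun i => (List.range (q + 3)).map fun j =>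
    [((1 : ℤ), [q + 2 + i, q + 2 + j])]

/-- the code of the ring -/
noncomputable abbrev rc (L : Type) [Fintype L] : RingCode := (nv L, idealCode (qq L))

theorem zn_inl_lt (w : WL L) : zn (.inl w : ZZ L) < qq L + 2 := by
  rcases w with _ | _ | a
  · simp only [zn]; omega
  · simp only [zn]; omega
  · have := (eL a).2; simp only [zn]; omega

theorem zn_inr_ge (v : VL L) : qq L + 2 ≤ zn (.inr v : ZZ L) := by
  rcases v with _ | _ | _ | b <;> simp only [zn] <;> omega

theorem polyOf_pair (K : Type*) [Field K] {n : ℕ} (i j : Fin n) :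
    polyOf K n [((1 : ℤ), [(i : ℕ), (j : ℕ)])] = X i * X j := by
  simp [polyOf, monOf_pair]

theorem mem_idealCode (p : PolyCode) : p ∈ idealCode (qq L) ↔
    (∃ w w' : WL L, p = [((1 : ℤ), [zn (.inl w : ZZ L), zn (.inl w' : ZZ L)])]) ∨
    ∃ v v' : VL L, p = [((1 : ℤ), [zn (.inr v : ZZ L), zn (.inr v' : ZZ L)])] := by
  have hn := nv_eq L
  have hinl : ∀ i, i < qq L + 2 → ∃ w : WL L, zn (.inl w : ZZ L) = i := by
    intro i hi
    obtain ⟨z, hz⟩ := zn_surjective (L := L) i (by omega)
    rcases z with w | v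
    · exact ⟨w, hz⟩
    · have := zn_inr_ge v; omega
  have hinr : ∀ i, i < qq L + 3 → ∃ v : VL L, zn (.inr v : ZZ L) = qq L + 2 + i := by
    intro i hi
    obtain ⟨z, hz⟩ := zn_surjective (L := L) (qq L + 2 + i) (by omega)
    rcases z with w | v
    · have := zn_inl_lt w; omega
    · exact ⟨v, hz⟩
  rw [idealCode, List.mem_append, List.mem_flatMap, List.mem_flatMap]
  constructor
  · rintro (⟨i, hi, hp⟩ | ⟨i, hi, hp⟩)
    · rw [List.mem_map] at hp
      obtain ⟨j, hj, rfl⟩ := hp
      rw [List.mem_range] at hi hj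
      obtain ⟨w, rfl⟩ := hinl i hi
      obtain ⟨w', rfl⟩ := hinl j hj
      exact Or.inl ⟨w, w', rfl⟩
    · rw [List.mem_map] at hp
      obtain ⟨j, hj, rfl⟩ := hp
      rw [List.mem_range] at hi hj
      obtain ⟨w, hw⟩ := hinr i hi
      obtain ⟨w', hw'⟩ := hinr j hj
      rw [← hw, ← hw']
      exact Or.inr ⟨w, w', rfl⟩
  · rintro (⟨w, w', rfl⟩ | ⟨v, v', rfl⟩)
    · left
      refine ⟨_, List.mem_range.2 (zn_inl_lt w), ?_⟩
      rw [List.mem_map]
      exact ⟨_, List.mem_range.2 (zn_inl_lt w'), rfl⟩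
    · right
      have h1 := zn_inr_ge v
      have h2 := zn_inr_ge v'
      have h3 := zn_lt (.inr v : ZZ L)
      have h4 := zn_lt (.inr v' : ZZ L)
      refine ⟨zn (.inr v : ZZ L) - (qq L + 2), List.mem_range.2 (by omega), ?_⟩
      rw [List.mem_map]
      refine ⟨zn (.inr v' : ZZ L) - (qq L + 2), List.mem_range.2 (by omega), ?_⟩
      rw [Nat.add_sub_cancel' h1, Nat.add_sub_cancel' h2]

theorem isGood (K : Type*) [Field K] : IsGoodIdeal (K := K) (eZ (L := L)) (idealOf K (rc L)) where
  le := by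
    intro p hp
    have hle : idealOf K (rc L) ≤ RingHom.ker (ev K (eZ (L := L))) := by
      rw [idealOf, Ideal.span_le]
      rintro _ ⟨q, hq, rfl⟩
      change ev K (eZ (L := L)) (polyOf K (nv L) q) = 0
      rcases (mem_idealCode q).1 hq with ⟨w, w', rfl⟩ | ⟨v, v', rfl⟩
      · have := polyOf_pair K (eZ (.inl w : ZZ L)) (eZ (.inl w' : ZZ L))
        simp only [eZ_val] at this
        rw [this, map_mul, ev_X, ev_X, Equiv.symm_apply_apply, Equiv.symm_apply_apply, gen_ww]
      · have := polyOf_pair K (eZ (.inr v : ZZ L)) (eZ (.inr v' : ZZ L))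
        simp only [eZ_val] at this
        rw [this, map_mul, ev_X, ev_X, Equiv.symm_apply_apply, Equiv.symm_apply_apply, gen_vv]
    exact hle hp
  ww := by
    intro w w'
    apply Ideal.subset_span
    refine ⟨_, (mem_idealCode _).2 (Or.inl ⟨w, w', rfl⟩), ?_⟩
    exact (polyOf_pair K (eZ (.inl w : ZZ L)) (eZ (.inl w' : ZZ L))).symm
  vv := by
    intro w w'
    apply Ideal.subset_span
    refine ⟨_, (mem_idealCode _).2 (Or.inr ⟨w, w', rfl⟩), ?_⟩
    exact (polyOf_pair K (eZ (.inr w : ZZ L)) (eZ (.inr w' : ZZ L))).symm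

theorem ideal_homogeneous (K : Type*) [Field K] :
    ∀ q ∈ (rc L).2, ∃ i ≥ 2, (polyOf K (rc L).1 q).IsHomogeneous i := by
  intro q hq
  refine ⟨2, le_rfl, ?_⟩
  rcases (mem_idealCode q).1 hq with ⟨w, w', rfl⟩ | ⟨v, v', rfl⟩
  · have := polyOf_pair K (eZ (.inl w : ZZ L)) (eZ (.inl w' : ZZ L))
    simp only [eZ_val] at this
    change (polyOf K (nv L) _).IsHomogeneous 2
    rw [this]
    exact (isHomogeneous_X _ _).mul (isHomogeneous_X _ _)
  · have := polyOf_pair K (eZ (.inr v : ZZ L)) (eZ (.inr v' : ZZ L))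
    simp only [eZ_val] at this
    change (polyOf K (nv L) _).IsHomogeneous 2
    rw [this]
    exact (isHomogeneous_X _ _).mul (isHomogeneous_X _ _)

end

end Pool.Agent.H.MP_fc7d68_al
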