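import Pool.Agent.H.MP_fc7d68_al.Inst4

/-!
The coded instance is admissible, and its regularity is governed by the transduction.
-/

set_option linter.unusedSimpArgs false
set_option linter.unusedSectionVars false
set_option synthInstance.maxSize 1000

namespace Pool.Agent.H.MP_fc7d68_al

open MvPolynomial Mdl

theorem sum_flatMap_map {A B M : Type*} [AddCommMonoid M] (l : List A) (g : A → List B)
    (f : B → M) : ((l.flatMap g).map f).sum = (l.map fun a => ((g a).map f).sum).sum := by
  induction l with
  | nil => simp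
  | cons a l ih => simp [List.flatMap_cons, ih]

theorem sum_filter_map {A M : Type*} [AddCommMonoid M] (l : List A) (p : A → Bool)
    (f : A → M) : ((l.filter p).map f).sum = (l.map fun a => if p a then f a else 0).sum := by
  induction l with
  | nil => simp
  | cons a l ih =>
    by_cases h : p a
    · simp [List.filter_cons, h, ih]
    · simp [List.filter_cons, h, ih]

section

variable {L : Type} [DecidableEq L] [Fintype L] (x z : L) (r : ℕ) (F : L × L × L → Option L)
  (f0 : ℕ → L)

/-- basis elements of degree one attached to a state -/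
noncomputable def musOf (n : NN L r) : List (I1 L (NN L r)) :=
  .inr (.inl n) :: .inr (.inr (.inr n)) ::
    (Finset.univ.toList : List L).map fun a => .inr (.inr (.inl (a, n)))

/-- all basis elements of degree one -/
noncomputable def allmu : List (I1 L (NN L r)) :=
  .inl () :: (((Finset.univ.toList : List (L × L × L)).flatMap fun m =>
    musOf r (.inl m) ++ musOf r (.inr (.inl m))) ++
    (List.finRange (r + 1)).flatMap fun i => musOf r (.inr (.inr i)))

theorem sum_musOf {M : Type*} [AddCommMonoid M] (n : NN L r) (f : I1 L (NN L r) → M) :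
    ((musOf r n).map f).sum = f (.inr (.inl n)) + (f (.inr (.inr (.inr n))) +
      ∑ a, f (.inr (.inr (.inl (a, n))))) := by
  rw [musOf, List.map_cons, List.map_cons, List.sum_cons, List.sum_cons, List.map_map]
  congr 2
  exact Finset.sum_map_toList _ _

theorem sum_allmu {M : Type*} [AddCommMonoid M] (f : I1 L (NN L r) → M) :
    ((allmu r).map f).sum = ∑ μ, f μ := by
  rw [allmu, List.map_cons, List.sum_cons, List.map_append, List.sum_append, sum_flatMap_map,
    sum_flatMap_map, Finset.sum_map_toList, ← Fin.sum_univ_def]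
  simp only [List.map_append, List.sum_append, sum_musOf, Fintype.sum_sum_type,
    Finset.univ_unique, Finset.sum_singleton, Fintype.sum_prod_type, Finset.sum_add_distrib]
  have h1 : ∀ (g : L → L × L × L → M), ∑ m, ∑ a, g a m = ∑ a, ∑ m, g a m := fun g =>
    Finset.sum_comm
  have h2 : ∀ (g : L → Fin (r + 1) → M), ∑ m, ∑ a, g a m = ∑ a, ∑ m, g a m := fun g =>
    Finset.sum_comm
  have e1 := h1 fun a m => f (.inr (.inr (.inl (a, .inl m))))
  have e2 := h1 fun a m => f (.inr (.inr (.inl (a, .inr (.inl m)))))
  have e3 := h2 fun a m => f (.inr (.inr (.inl (a, .inr (.inr m)))))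
  simp only [Fintype.sum_prod_type] at e1 e2 e3
  rw [e1, e2, e3]
  have hu : f (.inl ()) = f (.inl default) := rfl
  rw [hu]
  abel

/-- all entries -/
noncomputable def EE : List (KY L r × ℤ × KY L r) :=
  (allmu r).flatMap fun μ => (entOf x r z F f0 μ).map fun t => (t.1, t.2, defz x r μ)

theorem hEE_aux {K R A : Type*} [Field K] [CommRing R] [AddCommGroup A] [Module R A]
    (κ : K →+* R) (k : KY L r) (h : KY L r → A) :
    (((EE x z r F f0).filter fun t => decide (t.1 = k)).map fun t =>
        (t.2.1 : R) • h t.2.2).sum =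
      - ∑ μ, κ (PH K x r z F f0 k.1 μ k.2) • h (defz x r μ) := by
  rw [sum_filter_map, EE, sum_flatMap_map, sum_allmu, ← Finset.sum_neg_distrib]
  apply Finset.sum_congr rfl
  intro μ _
  rw [List.map_map]
  have h1 := entOf_sum (K := K) x r z F f0 μ k
  have h2 : κ (PH K x r z F f0 k.1 μ k.2) =
      - ((entOf x r z F f0 μ).map fun t => if t.1 = k then (t.2 : R) else 0).sum := by
    rw [← neg_eq_iff_eq_neg, ← map_neg, ← h1]
    clear h1
    induction entOf x r z F f0 μ with
    | nil => simp
    | cons t l ih =>
      rw [List.map_cons, List.map_cons, List.sum_cons, List.sum_cons, map_add, ih]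
      congr 1
      split_ifs
      · rw [map_intCast]
      · simp
  rw [h2, neg_smul, neg_neg]
  clear h1 h2
  induction entOf x r z F f0 μ with
  | nil => simp
  | cons t l ih =>
    rw [List.map_cons, List.map_cons, List.sum_cons, List.sum_cons, add_smul, ih]
    congr 1
    simp only [Function.comp_apply, decide_eq_true_eq]
    split_ifs
    · rfl
    · rw [zero_smul]

theorem hEE (K : Type*) [Field K] (c : RingCode) (k : KY L r)
    (h : KY L r → I0 (NN L r) Bool → RingOf K c) :
    (((EE x z r F f0).filter fun t => decide (t.1 = k)).map fun t =>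
        (t.2.1 : RingOf K c) • h t.2.2).sum =
      - ∑ μ, Ideal.Quotient.mk (idealOf K c) (C (PH K x r z F f0 k.1 μ k.2)) •
        h (defz x r μ) :=
  hEE_aux x z r F f0 ((Ideal.Quotient.mk (idealOf K c)).comp C) k h

/-- the code of the module -/
noncomputable abbrev mc : ModCode :=
  (ng L r, relsCode (nv L) (ng L r) ((EE x z r F f0).map (encE (c := rc L) eZ (eG r))))

variable (K : Type*) [Field K]

theorem hrel_mc (v : Fin (mc x z r F f0).1 → RingOf K (rc L)) :
    v ∈ relOf K (rc L) (mc x z r F f0) ↔
      KCond (phiW K) (phiV (gam K x r) (TT K F r f0) (lam K z r))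
        (fun ν => isoR eZ (isGood K) (v (eG r ν))) :=
  hrel_of (c := rc L) eZ (isGood K) (eG r) _ _ (defz x r) (PH_defz x r z F f0) (EE x z r F f0)
    (hEE x z r F f0 K (rc L)) v

theorem regZero_iff : RegZero K (rc L) (mc x z r F f0) ↔
    ZInj (gam K x r) (TT K F r f0) (lam K z r) := by
  rw [← ker_trivial_iff, ← psi_surjective_iff_ker]
  exact hasLinearResolution_iff
    (modData (c := rc L) (d := mc x z r F f0) eZ (isGood K) (eG r) _ _ (hrel_mc x z r F f0 K))
    (psi_zero_surjective _ _ (defz x r) (PH_defz x r z F f0))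

theorem relsCode_hom (n g : ℕ) (E : List NEnt) (q : VecCode) (hq : q ∈ relsCode n g E) :
    ∃ i, ∀ t ∈ q, t.2.1.length = i := by
  rw [relsCode, List.mem_append] at hq
  rcases hq with hq | hq
  · rw [List.mem_flatMap] at hq
    obtain ⟨z, hz, hq⟩ := hq
    rw [List.mem_map] at hq
    obtain ⟨ν, hν, rfl⟩ := hq
    refine ⟨1, fun t ht => ?_⟩
    rw [relCode, List.mem_cons] at ht
    rcases ht with rfl | ht
    · rfl
    · rw [List.mem_map] at ht
      obtain ⟨s, hs, rfl⟩ := ht
      rfl
  · rw [List.mem_flatMap] at hq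
    obtain ⟨z, hz, hq⟩ := hq
    rw [List.mem_flatMap] at hq
    obtain ⟨z', hz', hq⟩ := hq
    rw [List.mem_map] at hq
    obtain ⟨ν, hν, rfl⟩ := hq
    refine ⟨2, fun t ht => ?_⟩
    rw [List.mem_singleton] at ht
    rw [ht]
    rfl

theorem admissible_mc : Admissible K (rc L) (mc x z r F f0) where
  ideal_homogeneous := ideal_homogeneous K
  koszul := isKoszul_of_good (c := rc L) eZ (isGood K)
  rel_homogeneous := by
    intro q hq
    obtain ⟨i, hi⟩ := relsCode_hom _ _ _ q hq
    exact ⟨i, fun k => vecOf_isHomogeneous K _ _ q i hi k⟩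
  deg_one := by
    let ν : I0 (NN L r) Bool := .inl (.inl (x, x, x))
    let v : Fin (mc x z r F f0).1 → RingOf K (rc L) :=
      Pi.single (eG r ν) (Ideal.Quotient.mk (idealOf K (rc L)) (X (eZ (.inr .v0 : ZZ L))))
    refine ⟨Submodule.Quotient.mk v, ⟨v, fun k => ?_, rfl⟩, ?_⟩
    · by_cases hk : k = eG r ν
      · subst hk
        simp only [v, Pi.single_eq_same]
        exact ⟨_, isHomogeneous_X _ _, rfl⟩
      · simp only [v]
        rw [Pi.single_eq_of_ne hk]
        exact ⟨0, isHomogeneous_zero _ _ _, map_zero _⟩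
    · intro h0
      rw [Submodule.Quotient.mk_eq_zero, hrel_mc, KCond_iff_LPhi] at h0
      have h1 := h0.2 (.inr (.inl (.inl (x, x, x))))
      have h2 : (fun ν' => isoR eZ (isGood K) (v (eG r ν'))) =
          (Pi.single ν (gen (.inr .v0 : ZZ L)) :
            I0 (NN L r) Bool → Mdl K (WL L) (VL L)) := by
        funext ν'
        by_cases hk : ν' = ν
        · subst hk
          simp only [v, Pi.single_eq_same]
          rw [isoR_mk, ev_X, Equiv.symm_apply_apply]
        · have hk' : eG r ν' ≠ eG r ν := fun h => hk ((eG r).injective h)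
          simp only [v]
          rw [Pi.single_eq_of_ne hk, Pi.single_eq_of_ne hk', map_zero]
      rw [h2, LPhi_single] at h1
      simp [phi, phiV, ν] at h1
  deg_two := fun i hi m hm =>
    mem_modDeg_two (c := rc L) (d := mc x z r F f0) eZ (isGood K) (eG r) _ _
      (hrel_mc x z r F f0 K) i hi m hm

end

end Pool.Agent.H.MP_fc7d68_al
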