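import Mathlib

/-!
Pairs of words and the linear complexes over `K[x,y]/((x)^2+(y)^2)` in operator form.
-/

namespace Pool.Agent.H.MP_fc7d68_al

/-- pairs of words of total length `i` -/
def PW (V W : Type*) (i : ℕ) := {p : List V × List W // p.1.length + p.2.length = i}

namespace PW

variable {V W A : Type*} {i : ℕ}

/-- cons a `W`-letter -/
def cw (x : W) (t : PW V W i) : PW V W (i + 1) :=
  ⟨(t.1.1, x :: t.1.2), by have := t.2; simp only [List.length_cons]; omega⟩
/-- cons a `V`-letter -/
def cv (y : V) (t : PW V W i) : PW V W (i + 1) :=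
  ⟨(y :: t.1.1, t.1.2), by have := t.2; simp only [List.length_cons]; omega⟩
/-- snoc a `W`-letter -/
def sw (x : W) (t : PW V W i) : PW V W (i + 1) :=
  ⟨(t.1.1, t.1.2 ++ [x]), by
    have := t.2; simp only [List.length_append, List.length_cons, List.length_nil]; omega⟩
/-- snoc a `V`-letter -/
def sv (y : V) (t : PW V W i) : PW V W (i + 1) :=
  ⟨(t.1.1 ++ [y], t.1.2), by
    have := t.2; simp only [List.length_append, List.length_cons, List.length_nil]; omega⟩

/-- the empty pair -/
def nil : PW V W 0 := ⟨([], []), rfl⟩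

theorem eq_nil (t : PW V W 0) : t = nil := by
  obtain ⟨⟨u, w⟩, h⟩ := t
  simp only [Nat.add_eq_zero_iff, List.length_eq_zero_iff] at h
  obtain ⟨rfl, rfl⟩ := h
  rfl

theorem cw_sw (x x' : W) (t : PW V W i) : cw x (sw x' t) = sw x' (cw x t) := rfl
theorem cw_sv (x : W) (y : V) (t : PW V W i) : cw x (sv y t) = sv y (cw x t) := rfl
theorem cv_sw (y : V) (x : W) (t : PW V W i) : cv y (sw x t) = sw x (cv y t) := rfl
theorem cv_sv (y y' : V) (t : PW V W i) : cv y (sv y' t) = sv y' (cv y t) := rfl
theorem cw_cv (x : W) (y : V) (t : PW V W i) : cw x (cv y t) = cv y (cw x t) := rfl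
theorem sw_sv (x : W) (y : V) (t : PW V W i) : sw x (sv y t) = sv y (sw x t) := rfl
theorem sw_nil (x : W) : sw x (nil : PW V W 0) = cw x nil := rfl
theorem sv_nil (y : V) : sv y (nil : PW V W 0) = cv y nil := rfl

theorem cases_cons (t : PW V W (i + 1)) :
    (∃ x s, t = cw x s) ∨ (∃ y s, t = cv y s) := by
  obtain ⟨⟨u, w⟩, h⟩ := t
  cases w with
  | cons x w =>
    left
    refine ⟨x, ⟨(u, w), by simp only [List.length_cons] at h ⊢; omega⟩, rfl⟩
  | nil =>
    cases u with
    | cons y u =>
      right
      refine ⟨y, ⟨(u, []), by simp only [List.length_cons] at h ⊢; omega⟩, rfl⟩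
    | nil => simp at h

theorem ext_cons {p q : PW V W (i + 1) → A} (h1 : ∀ x t, p (cw x t) = q (cw x t))
    (h2 : ∀ y t, p (cv y t) = q (cv y t)) : p = q := by
  funext t
  rcases cases_cons t with ⟨x, s, rfl⟩ | ⟨y, s, rfl⟩
  · exact h1 x s
  · exact h2 y s

/-- glue functions along the first letters -/
def glue (α : W → PW V W i → A) (β : V → PW V W i → A) : PW V W (i + 1) → A
  | ⟨(u, x :: w), h⟩ => α x ⟨(u, w), by simp only [List.length_cons] at h ⊢; omega⟩
  | ⟨(y :: u, []), h⟩ => β y ⟨(u, []), by simp only [List.length_cons] at h ⊢; omega⟩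
  | ⟨([], []), h⟩ => absurd h (by simp)

@[simp] theorem glue_cw (α : W → PW V W i → A) (β : V → PW V W i → A) (x : W) (t : PW V W i) :
    glue α β (cw x t) = α x t := rfl

theorem glue_cv_nil (α : W → PW V W 0 → A) (β : V → PW V W 0 → A) (y : V) (t : PW V W 0) :
    glue α β (cv y t) = β y t := by
  rw [eq_nil t]; rfl

theorem glue_cv (α : W → PW V W (i + 1) → A) (β : V → PW V W (i + 1) → A)
    (h : ∀ x y t, α x (cv y t) = β y (cw x t)) (y : V) (t : PW V W (i + 1)) :
    glue α β (cv y t) = β y t := by
  obtain ⟨⟨u, w⟩, ht⟩ := t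
  cases w with
  | nil => rfl
  | cons x w =>
    exact h x y ⟨(u, w), by simp only [List.length_cons] at ht ⊢; omega⟩

/-- glue functions along the first `V`-letter only -/
def glueV [Zero A] (γ : V → PW V W i → A) : PW V W (i + 1) → A
  | ⟨(y :: u, w), h⟩ => γ y ⟨(u, w), by simp only [List.length_cons] at h ⊢; omega⟩
  | ⟨([], _), _⟩ => 0

@[simp] theorem glueV_cv [Zero A] (γ : V → PW V W i → A) (y : V) (t : PW V W i) :
    glueV γ (cv y t) = γ y t := rfl

instance [Finite V] [Finite W] : Finite (PW V W i) := by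
  have h : {p : List V × List W | p.1.length + p.2.length = i}.Finite := by
    apply ((List.finite_length_le V i).prod (List.finite_length_le W i)).subset
    rintro ⟨u, w⟩ h
    simp only [Set.mem_ofPred_eq] at h
    simp only [Set.mem_prod, Set.mem_ofPred_eq]
    omega
  exact h.to_subtype

end PW

open PW

section Psi

variable {K V W A0 A1 : Type*} [Field K] [Fintype V] [Fintype W]
  [AddCommGroup A0] [Module K A0] [AddCommGroup A1] [Module K A1]
variable (X : W → A0 →ₗ[K] A1) (Y : V → A0 →ₗ[K] A1)

/-- the map `ψ` from functions on words of length `i+1` to functions on words of length `i` -/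
def psi (i : ℕ) : (PW V W (i + 1) → A0) →ₗ[K] (PW V W i → A1) where
  toFun p t := ∑ x, X x (p (sw x t)) + ∑ y, Y y (p (sv y t))
  map_add' p q := by
    funext t
    simp only [Pi.add_apply, map_add, Finset.sum_add_distrib]
    abel
  map_smul' r p := by
    funext t
    simp only [Pi.smul_apply, map_smul, RingHom.id_apply, Finset.smul_sum, smul_add]

theorem psi_apply (i : ℕ) (p : PW V W (i + 1) → A0) (t : PW V W i) :
    psi X Y i p t = ∑ x, X x (p (sw x t)) + ∑ y, Y y (p (sv y t)) := rfl

theorem psi_cw (i : ℕ) (p : PW V W (i + 2) → A0) (x : W) :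
    psi X Y i (p ∘ cw x) = psi X Y (i + 1) p ∘ cw x := rfl

theorem psi_cv (i : ℕ) (p : PW V W (i + 2) → A0) (y : V) :
    psi X Y i (p ∘ cv y) = psi X Y (i + 1) p ∘ cv y := rfl

/-- A linear resolution in operator form. -/
structure IsOpRes (B : ℕ → Type*) [∀ i, AddCommGroup (B i)] [∀ i, Module K (B i)]
    (a : ∀ i, W → B (i + 1) →ₗ[K] B i) (c : ∀ i, V → B (i + 1) →ₗ[K] B i)
    (η : B 0 ≃ₗ[K] A0) : Prop where
  comm : ∀ i x y b, c i y (a (i + 1) x b) = a i x (c (i + 1) y b)
  rel : ∀ b, ∑ x, X x (η (a 0 x b)) + ∑ y, Y y (η (c 0 y b)) = 0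
  inj : ∀ i b, (∀ x, a i x b = 0) → (∀ y, c i y b = 0) → b = 0
  mid0 : ∀ (α : W → B 0) (β : V → B 0), ∑ x, X x (η (α x)) + ∑ y, Y y (η (β y)) = 0 →
    ∃ b, (∀ x, a 0 x b = α x) ∧ ∀ y, c 0 y b = β y
  mid : ∀ i (α : W → B (i + 1)) (β : V → B (i + 1)), (∀ x y, c i y (α x) = a i x (β y)) →
    ∃ b, (∀ x, a (i + 1) x b = α x) ∧ ∀ y, c (i + 1) y b = β y
  surj : ∀ i (γ : W → V → B i), ∃ (α : W → B (i + 1)) (β : V → B (i + 1)),
    ∀ x y, c i y (α x) - a i x (β y) = γ x y

/-! ### From surjectivity of `ψ` to an operator resolution -/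

/-- kernels of `ψ` -/
def G : ∀ i, Submodule K (PW V W i → A0)
  | 0 => ⊤
  | i + 1 => LinearMap.ker (psi X Y i)

theorem G_cw {i : ℕ} {p : PW V W (i + 1) → A0} (hp : p ∈ G X Y (i + 1)) (x : W) :
    p ∘ cw x ∈ G X Y i := by
  cases i with
  | zero => exact Submodule.mem_top
  | succ i =>
    have hp' : psi X Y (i + 1) p = 0 := hp
    change psi X Y i (p ∘ cw x) = 0
    rw [psi_cw, hp']; rfl

theorem G_cv {i : ℕ} {p : PW V W (i + 1) → A0} (hp : p ∈ G X Y (i + 1)) (y : V) :
    p ∘ cv y ∈ G X Y i := by
  cases i with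
  | zero => exact Submodule.mem_top
  | succ i =>
    have hp' : psi X Y (i + 1) p = 0 := hp
    change psi X Y i (p ∘ cv y) = 0
    rw [psi_cv, hp']; rfl

/-- restriction along `cw x` -/
def Ga (i : ℕ) (x : W) : G X Y (i + 1) →ₗ[K] G X Y i where
  toFun p := ⟨p.1 ∘ cw x, G_cw X Y p.2 x⟩
  map_add' _ _ := rfl
  map_smul' _ _ := rfl

/-- restriction along `cv y` -/
def Gc (i : ℕ) (y : V) : G X Y (i + 1) →ₗ[K] G X Y i where
  toFun p := ⟨p.1 ∘ cv y, G_cv X Y p.2 y⟩
  map_add' _ _ := rfl
  map_smul' _ _ := rfl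

/-- degree zero -/
def Geta : G X Y 0 ≃ₗ[K] A0 where
  toFun p := p.1 nil
  map_add' _ _ := rfl
  map_smul' _ _ := rfl
  invFun a := ⟨fun _ => a, Submodule.mem_top⟩
  left_inv p := by
    apply Subtype.ext
    funext t
    rw [eq_nil t]
  right_inv a := rfl

theorem isOpRes_G (hs : ∀ i, Function.Surjective (psi X Y i)) :
    IsOpRes X Y (fun i => G X Y i) (Ga X Y) (Gc X Y) (Geta X Y) where
  comm i x y b := rfl
  rel b := by
    have hb : psi X Y 0 b.1 = 0 := b.2
    exact congrFun hb nil
  inj i b ha hc := by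
    apply Subtype.ext
    apply ext_cons
    · intro x t
      exact congrFun (congrArg Subtype.val (ha x)) t
    · intro y t
      exact congrFun (congrArg Subtype.val (hc y)) t
  mid0 α β h := by
    let p : PW V W 1 → A0 := glue (fun x => (α x).1) (fun y => (β y).1)
    have hc : ∀ y t, p (cv y t) = (β y).1 t := glue_cv_nil _ _
    have hp : p ∈ G X Y 1 := by
      change psi X Y 0 p = 0
      funext t
      rw [eq_nil t, psi_apply]
      simp only [sw_nil, sv_nil, hc]
      exact h
    refine ⟨⟨p, hp⟩, fun x => rfl, fun y => Subtype.ext (funext fun t => hc y t)⟩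
  mid i α β h := by
    let p : PW V W (i + 2) → A0 := glue (fun x => (α x).1) (fun y => (β y).1)
    have hc : ∀ y t, p (cv y t) = (β y).1 t := by
      apply glue_cv
      intro x y t
      exact congrFun (congrArg Subtype.val (h x y)) t
    have hp : p ∈ G X Y (i + 2) := by
      change psi X Y (i + 1) p = 0
      apply ext_cons
      · intro x t
        have h1 : psi X Y i (p ∘ cw x) = 0 := (α x).2
        rw [psi_cw] at h1
        exact congrFun h1 t
      · intro y t
        have h0 : p ∘ cv y = (β y).1 := funext fun t => hc y t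
        have h1 : psi X Y i (p ∘ cv y) = 0 := by rw [h0]; exact (β y).2
        rw [psi_cv] at h1
        exact congrFun h1 t
    refine ⟨⟨p, hp⟩, fun x => rfl, fun y => Subtype.ext (funext fun t => hc y t)⟩
  surj i γ := by
    let α0 : W → PW V W (i + 1) → A0 := fun x => glueV fun y => (γ x y).1
    let q : PW V W (i + 1) → A1 := glue (fun x => psi X Y i (α0 x)) (fun _ _ => 0)
    have hq : ∀ y t, q (cv y t) = 0 := by
      cases i with
      | zero => exact glue_cv_nil _ _
      | succ i =>
        apply glue_cv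
        intro x y t
        have h1 : psi X Y i (γ x y).1 = 0 := (γ x y).2
        exact congrFun h1 t
    obtain ⟨p, hp⟩ := hs (i + 1) q
    refine ⟨fun x => ⟨α0 x - p ∘ cw x, ?_⟩, fun y => ⟨-(p ∘ cv y), ?_⟩, ?_⟩
    · change psi X Y i (α0 x - p ∘ cw x) = 0
      rw [map_sub, psi_cw, hp]
      funext t
      simp [q]
    · change psi X Y i (-(p ∘ cv y)) = 0
      rw [map_neg, psi_cv, hp]
      funext t
      simp [hq]
    · intro x y
      apply Subtype.ext
      funext t
      change (α0 x (cv y t) - p (cw x (cv y t))) - (-(p (cv y (cw x t)))) = (γ x y).1 t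
      rw [cw_cv]
      simp [α0]

/-! ### From an operator resolution to surjectivity of `ψ` -/

section Converse

variable {B : ℕ → Type*} [∀ i, AddCommGroup (B i)] [∀ i, Module K (B i)]
  {a : ∀ i, W → B (i + 1) →ₗ[K] B i} {c : ∀ i, V → B (i + 1) →ₗ[K] B i}
  {η : B 0 ≃ₗ[K] A0}

variable (a c η) in
/-- comparison map -/
def theta : ∀ i, B i → (PW V W i → A0)
  | 0, b => fun _ => η b
  | i + 1, b => glue (fun x => theta i (a i x b)) (fun y => theta i (c i y b))

theorem theta_cw (i : ℕ) (b : B (i + 1)) (x : W) (t : PW V W i) :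
    theta a c η (i + 1) b (cw x t) = theta a c η i (a i x b) t := rfl

variable {X Y}

theorem theta_cv (h : IsOpRes X Y B a c η) (i : ℕ) (b : B (i + 1)) (y : V) (t : PW V W i) :
    theta a c η (i + 1) b (cv y t) = theta a c η i (c i y b) t := by
  induction i generalizing y with
  | zero => exact glue_cv_nil _ _ y t
  | succ i ih =>
    apply glue_cv
    intro x y t
    rw [ih, theta_cw, h.comm]

theorem theta_sub (h : IsOpRes X Y B a c η) (i : ℕ) (b b' : B i) :
    theta a c η i (b - b') = theta a c η i b - theta a c η i b' := by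
  induction i with
  | zero =>
    funext t
    simp [theta]
  | succ i ih =>
    apply ext_cons
    · intro x t
      simp only [theta_cw, map_sub, ih, Pi.sub_apply]
    · intro y t
      simp only [theta_cv h, map_sub, ih, Pi.sub_apply]

theorem theta_inj (h : IsOpRes X Y B a c η) (i : ℕ) (b : B i)
    (hb : theta a c η i b = 0) : b = 0 := by
  induction i with
  | zero =>
    have := congrFun hb nil
    simpa [theta] using this
  | succ i ih =>
    apply h.inj i b
    · intro x
      apply ih
      funext t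
      rw [← theta_cw, hb]; rfl
    · intro y
      apply ih
      funext t
      rw [← theta_cv h, hb]; rfl

theorem theta_inj' (h : IsOpRes X Y B a c η) (i : ℕ) (b b' : B i)
    (hb : theta a c η i b = theta a c η i b') : b = b' := by
  rw [← sub_eq_zero]
  apply theta_inj h
  rw [theta_sub h, hb, sub_self]

theorem psi_theta (h : IsOpRes X Y B a c η) (i : ℕ) (b : B (i + 1)) :
    psi X Y i (theta a c η (i + 1) b) = 0 := by
  induction i with
  | zero =>
    funext t
    rw [eq_nil t, psi_apply]
    simp only [sw_nil, sv_nil, theta_cw, theta_cv h]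
    exact h.rel b
  | succ i ih =>
    apply ext_cons
    · intro x t
      have h1 : psi X Y i (theta a c η (i + 2) b ∘ cw x) = 0 := ih (a (i + 1) x b)
      rw [psi_cw] at h1
      exact congrFun h1 t
    · intro y t
      have h0 : theta a c η (i + 2) b ∘ cv y = theta a c η (i + 1) (c (i + 1) y b) :=
        funext fun t => theta_cv h _ b y t
      have h1 : psi X Y i (theta a c η (i + 2) b ∘ cv y) = 0 := by
        rw [h0]; exact ih (c (i + 1) y b)
      rw [psi_cv] at h1
      exact congrFun h1 t

theorem exists_theta (h : IsOpRes X Y B a c η) (i : ℕ) (p : PW V W (i + 1) → A0)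
    (hp : psi X Y i p = 0) : ∃ b, theta a c η (i + 1) b = p := by
  induction i with
  | zero =>
    have hp' := congrFun hp nil
    rw [psi_apply] at hp'
    simp only [sw_nil, sv_nil] at hp'
    obtain ⟨b, hb1, hb2⟩ := h.mid0 (fun x => η.symm (p (cw x nil)))
      (fun y => η.symm (p (cv y nil))) (by simpa using hp')
    refine ⟨b, ext_cons ?_ ?_⟩
    · intro x t
      rw [theta_cw, hb1, eq_nil t]
      simp [theta]
    · intro y t
      rw [theta_cv h, hb2, eq_nil t]
      simp [theta]
  | succ i ih =>
    have hx : ∀ x, ∃ b, theta a c η (i + 1) b = p ∘ cw x := by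
      intro x
      apply ih
      rw [psi_cw, hp]; rfl
    have hy : ∀ y, ∃ b, theta a c η (i + 1) b = p ∘ cv y := by
      intro y
      apply ih
      rw [psi_cv, hp]; rfl
    choose α hα using hx
    choose β hβ using hy
    obtain ⟨b, hb1, hb2⟩ := h.mid i α β (by
      intro x y
      apply theta_inj' h
      funext t
      rw [← theta_cv h, ← theta_cw, hα, hβ]
      rfl)
    refine ⟨b, ext_cons ?_ ?_⟩
    · intro x t
      rw [theta_cw, hb1, hα]; rfl
    · intro y t
      rw [theta_cv h, hb2, hβ]; rfl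

theorem psi_surjective_of_isOpRes (h : IsOpRes X Y B a c η)
    (h0 : Function.Surjective (psi X Y 0)) (i : ℕ) : Function.Surjective (psi X Y i) := by
  induction i with
  | zero => exact h0
  | succ i ih =>
    intro q
    have hx : ∀ x, ∃ p, psi X Y i p = q ∘ cw x := fun x => ih _
    have hy : ∀ y, ∃ p, psi X Y i p = q ∘ cv y := fun y => ih _
    choose p hp using hx
    choose p' hp' using hy
    have hγ : ∀ x y, ∃ b, theta a c η i b = p x ∘ cv y - p' y ∘ cw x := by
      intro x y
      cases i with
      | zero =>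
        refine ⟨η.symm ((p x ∘ cv y - p' y ∘ cw x) nil), ?_⟩
        funext t
        rw [eq_nil t]
        simp [theta]
      | succ i =>
        apply exists_theta h
        rw [map_sub, psi_cv, psi_cw, hp, hp']
        funext t
        simp [cw_cv]
    choose γ hγ using hγ
    obtain ⟨α, β, hαβ⟩ := h.surj i γ
    let P : PW V W (i + 2) → A0 := glue (fun x => p x - theta a c η (i + 1) (α x))
      (fun y => p' y - theta a c η (i + 1) (β y))
    have hP : ∀ y t, P (cv y t) = (p' y - theta a c η (i + 1) (β y)) t := by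
      apply glue_cv
      intro x y t
      have h1 := congrFun (hγ x y) t
      rw [← hαβ, theta_sub h] at h1
      simp only [Pi.sub_apply, Function.comp_apply] at h1 ⊢
      rw [theta_cv h, theta_cw]
      rw [sub_eq_sub_iff_add_eq_add] at h1 ⊢
      rw [← h1, add_comm]
    refine ⟨P, ext_cons ?_ ?_⟩
    · intro x t
      have h1 : psi X Y i (P ∘ cw x) = q ∘ cw x := by
        have : P ∘ cw x = p x - theta a c η (i + 1) (α x) := rfl
        rw [this, map_sub, hp, psi_theta h, sub_zero]
      rw [psi_cw] at h1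
      exact congrFun h1 t
    · intro y t
      have h1 : psi X Y i (P ∘ cv y) = q ∘ cv y := by
        have : P ∘ cv y = p' y - theta a c η (i + 1) (β y) := funext fun t => hP y t
        rw [this, map_sub, hp', psi_theta h, sub_zero]
      rw [psi_cv] at h1
      exact congrFun h1 t

end Converse

end Psi

end Pool.Agent.H.MP_fc7d68_al
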