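import Pool.Agent.H.MP_fc7d68_al.Model
import Pool.Agent.H.MP_fc7d68_al.Words
import Pool.Agent.H.MP_fc7d68_al.Defs

/-!
Linear resolutions over (a ring isomorphic to) the model ring versus operator resolutions.
-/

namespace Pool.Agent.H.MP_fc7d68_al

open Mdl

/-- data identifying a module with `π : R^P0 → M` and its kernel -/
structure ModData (K W V : Type*) [Field K] [Fintype W] [Fintype V] (P0 : Type*) {A1 : Type*}
    [AddCommGroup A1] [Module K A1] (X : W → (P0 → K) →ₗ[K] A1) (Y : V → (P0 → K) →ₗ[K] A1)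
    (R : Type*) [CommRing R] (R1 : Set R) (M : Type*) [AddCommGroup M] [Module R M]
    (M0 : Set M) where
  /-- the ring isomorphism -/
  e : R ≃+* Mdl K W V
  /-- the presentation -/
  π : (P0 → R) →ₗ[R] M
  surj : Function.Surjective π
  ker : ∀ v, π v = 0 ↔ (∀ ν, (e (v ν)).c = 0) ∧
    ∑ w, X w (fun ν => (e (v ν)).x w) + ∑ y, Y y (fun ν => (e (v ν)).y y) = 0
  memR1 : ∀ r, r ∈ R1 ↔ (e r).c = 0 ∧ ∀ w v, (e r).xy w v = 0
  memM0 : ∀ m, m ∈ M0 ↔ ∃ c : P0 → K, m = π (fun ν => e.symm (sc (c ν)))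

section

variable {K W V : Type*} [Field K] {R : Type*} [CommRing R]

theorem vecMul_coord (e : R ≃+* Mdl K W V) {n k : ℕ} (z : Fin n → R)
    (D : Matrix (Fin n) (Fin k) R) (hD : ∀ i j, (e (D i j)).c = 0 ∧ ∀ w v, (e (D i j)).xy w v = 0)
    (j : Fin k) :
    (e (Matrix.vecMul z D j)).c = 0 ∧
    (∀ w, (e (Matrix.vecMul z D j)).x w = ∑ i, (e (z i)).c * (e (D i j)).x w) ∧
    (∀ v, (e (Matrix.vecMul z D j)).y v = ∑ i, (e (z i)).c * (e (D i j)).y v) ∧
    (∀ w v, (e (Matrix.vecMul z D j)).xy w v =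
      ∑ i, (e (z i)).x w * (e (D i j)).y v + ∑ i, (e (z i)).y v * (e (D i j)).x w) := by
  have h : e (Matrix.vecMul z D j) = ∑ i, e (z i) * e (D i j) := by
    simp only [Matrix.vecMul, dotProduct, map_sum, map_mul]
  rw [h]
  refine ⟨?_, ?_, ?_, ?_⟩
  · simp [hD]
  · intro w
    simp [hD]
  · intro v
    simp [hD]
  · intro w v
    simp [hD, Finset.sum_add_distrib]

end

section

variable {K W V P0 A1 R M : Type*} [Field K] [Fintype W] [Fintype V] [Fintype P0]
    [AddCommGroup A1] [Module K A1] {X : W → (P0 → K) →ₗ[K] A1} {Y : V → (P0 → K) →ₗ[K] A1}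
    [CommRing R] {R1 : Set R} [AddCommGroup M] [Module R M]
    {M0 : Set M}

theorem isOpRes_of_hasLinearResolution (dat : ModData K W V P0 X Y R R1 M M0)
    (h : HasLinearResolution R R1 M M0) :
    ∃ (b : ℕ → ℕ) (a : ∀ i, W → (Fin (b (i + 1)) → K) →ₗ[K] (Fin (b i) → K))
      (c : ∀ i, V → (Fin (b (i + 1)) → K) →ₗ[K] (Fin (b i) → K))
      (η : (Fin (b 0) → K) ≃ₗ[K] (P0 → K)),
      IsOpRes X Y (fun i => Fin (b i) → K) a c η := by
  classical
  obtain ⟨b, m, D, hm, hD, hspan, hex0, hex⟩ := h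
  set e := dat.e with he
  have hD' : ∀ i j k, (e (D i j k)).c = 0 ∧ ∀ w v, (e (D i j k)).xy w v = 0 := fun i j k =>
    (dat.memR1 _).1 (hD i j k)
  have hm' : ∀ j, ∃ c : P0 → K, m j = dat.π (fun ν => e.symm (sc (c ν))) := fun j =>
    (dat.memM0 _).1 (hm j)
  choose μ hμ using hm'
  -- the sum in terms of π
  have hsum : ∀ z : Fin (b 0) → R, ∑ j, z j • m j =
      dat.π (fun ν => ∑ j, z j * e.symm (sc (μ j ν))) := by
    intro z
    have : (fun ν => ∑ j, z j * e.symm (sc (μ j ν))) =
        ∑ j, z j • (fun ν => e.symm (sc (μ j ν))) := by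
      funext ν
      simp
    rw [this, map_sum]
    simp only [map_smul, hμ]
  have hker0 : ∀ z : Fin (b 0) → R, ∑ j, z j • m j = 0 ↔
      (∀ ν, ∑ j, (e (z j)).c * μ j ν = 0) ∧
      ∑ w, X w (fun ν => ∑ j, (e (z j)).x w * μ j ν) +
        ∑ v, Y v (fun ν => ∑ j, (e (z j)).y v * μ j ν) = 0 := by
    intro z
    rw [hsum, dat.ker]
    have h1 : ∀ ν, e (∑ j, z j * e.symm (sc (μ j ν))) = ∑ j, e (z j) * sc (μ j ν) := by
      intro ν
      rw [map_sum]
      simp only [map_mul, RingEquiv.apply_symm_apply]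
    simp only [← he, h1]
    simp
  -- the operators
  let a : ∀ i, W → (Fin (b (i + 1)) → K) →ₗ[K] (Fin (b i) → K) := fun i w =>
    (Matrix.of fun j k => (e (D i j k)).x w).vecMulLinear
  let c' : ∀ i, V → (Fin (b (i + 1)) → K) →ₗ[K] (Fin (b i) → K) := fun i v =>
    (Matrix.of fun j k => (e (D i j k)).y v).vecMulLinear
  let c : ∀ i, V → (Fin (b (i + 1)) → K) →ₗ[K] (Fin (b i) → K) := fun i v =>
    ((-1 : K) ^ i) • c' i v
  have ha : ∀ i w z k, a i w z k = ∑ j, z j * (e (D i j k)).x w := by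
    intro i w z k
    simp [a, Matrix.vecMul, dotProduct]
  have hc' : ∀ i v z k, c' i v z k = ∑ j, z j * (e (D i j k)).y v := by
    intro i v z k
    simp [c', Matrix.vecMul, dotProduct]
  have hc : ∀ i v z k, c i v z k = (-1 : K) ^ i * ∑ j, z j * (e (D i j k)).y v := by
    intro i v z k
    simp only [c, LinearMap.smul_apply, Pi.smul_apply, hc', smul_eq_mul]
  have hsign : ∀ i : ℕ, (-1 : K) ^ i * (-1 : K) ^ i = 1 := by
    intro i
    rw [← mul_pow]; simp
  -- coordinates of vecMul
  have hvm : ∀ i (z : Fin (b (i + 1)) → R) k,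
      (e (Matrix.vecMul z (D i) k)).c = 0 ∧
      (∀ w, (e (Matrix.vecMul z (D i) k)).x w = a i w (fun j => (e (z j)).c) k) ∧
      (∀ v, (e (Matrix.vecMul z (D i) k)).y v = c' i v (fun j => (e (z j)).c) k) ∧
      (∀ w v, (e (Matrix.vecMul z (D i) k)).xy w v =
        c' i v (fun j => (e (z j)).x w) k + a i w (fun j => (e (z j)).y v) k) := by
    intro i z k
    have h := vecMul_coord e z (D i) (hD' i) k
    refine ⟨h.1, ?_, ?_, ?_⟩
    · intro w; rw [h.2.1, ha]
    · intro v; rw [h.2.2.1, hc']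
    · intro w v; rw [h.2.2.2, ha, hc']
  -- D ∘ D = 0
  have hDD : ∀ i w v (z : Fin (b (i + 2)) → K),
      c' i v (a (i + 1) w z) + a i w (c' (i + 1) v z) = 0 := by
    intro i w v z
    have h1 : Matrix.vecMul (Matrix.vecMul (fun j => e.symm (sc (z j))) (D (i + 1))) (D i) = 0 :=
      (hex i _).2 ⟨_, rfl⟩
    funext k
    have h2 := congrArg (fun f : Fin (b i) → R => (e (f k)).xy w v) h1
    simp only [(hvm i _ k).2.2.2, (hvm (i + 1) _ _).2.1, (hvm (i + 1) _ _).2.2.1,
      RingEquiv.apply_symm_apply, Pi.zero_apply, map_zero, xy_zero, c_sc] at h2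
    exact h2
  have hcomm : ∀ i w v (z : Fin (b (i + 2)) → K),
      c i v (a (i + 1) w z) = a i w (c (i + 1) v z) := by
    intro i w v z
    have h1 := hDD i w v z
    have h2 : c' i v (a (i + 1) w z) = - a i w (c' (i + 1) v z) := eq_neg_of_add_eq_zero_left h1
    simp only [c, LinearMap.smul_apply, h2, map_smul, pow_succ]
    simp
  -- η
  let η' : (Fin (b 0) → K) →ₗ[K] (P0 → K) := (Matrix.of μ).vecMulLinear
  have hη' : ∀ z ν, η' z ν = ∑ j, z j * μ j ν := by
    intro z ν
    simp [η', Matrix.vecMul, dotProduct]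
  have hηinj : Function.Injective η' := by
    rw [injective_iff_map_eq_zero]
    intro z hz
    have h1 : ∑ j, (fun j => e.symm (sc (z j))) j • m j = 0 := by
      rw [hker0]
      simp only [RingEquiv.apply_symm_apply, c_sc, x_sc, y_sc, zero_mul, Finset.sum_const_zero]
      refine ⟨fun ν => ?_, ?_⟩
      · rw [← hη', hz]; rfl
      · have h0 : (fun _ : P0 => (0 : K)) = 0 := rfl
        simp [h0]
    obtain ⟨y, hy⟩ := (hex0 _).1 h1
    funext j
    have h2 := (hvm 0 y j).1
    rw [hy] at h2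
    simpa using h2
  have hηsurj : Function.Surjective η' := by
    intro p
    have h1 : dat.π (fun ν => e.symm (sc (p ν))) ∈ Submodule.span R (Set.range m) := by
      rw [hspan]; exact Submodule.mem_top
    rw [Submodule.mem_span_range_iff_exists_fun] at h1
    obtain ⟨z, hz⟩ := h1
    refine ⟨fun j => (e (z j)).c, ?_⟩
    rw [hsum, ← sub_eq_zero, ← map_sub, dat.ker] at hz
    funext ν
    rw [hη']
    have h2 := hz.1 ν
    simp only [← he, Pi.sub_apply, map_sub, map_sum, map_mul, RingEquiv.apply_symm_apply, c_sub,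
      c_sum, c_mul, c_sc] at h2
    exact sub_eq_zero.1 h2
  let η : (Fin (b 0) → K) ≃ₗ[K] (P0 → K) := LinearEquiv.ofBijective η' ⟨hηinj, hηsurj⟩
  have hη : ∀ z ν, η z ν = ∑ j, z j * μ j ν := hη'
  have hker0' : ∀ z : Fin (b 0) → R, ∑ j, z j • m j = 0 ↔
      η (fun j => (e (z j)).c) = 0 ∧
      ∑ w, X w (η fun j => (e (z j)).x w) + ∑ v, Y v (η fun j => (e (z j)).y v) = 0 := by
    intro z
    rw [hker0]
    have h1 : ∀ f : Fin (b 0) → K, η f = fun ν => ∑ j, f j * μ j ν := fun f => funext (hη f)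
    simp only [h1, funext_iff, Pi.zero_apply]
  refine ⟨b, a, c, η, ?_⟩
  constructor
  · intro i x y z
    exact hcomm i x y z
  · intro z
    have h1 : ∑ j, (Matrix.vecMul (fun j => e.symm (sc (z j))) (D 0)) j • m j = 0 :=
      (hex0 _).2 ⟨_, rfl⟩
    rw [hker0'] at h1
    have h2 := h1.2
    simp only [(hvm 0 _ _).2.1, (hvm 0 _ _).2.2.1, RingEquiv.apply_symm_apply, c_sc] at h2
    have h3 : ∀ v, c 0 v z = c' 0 v z := by
      intro v; simp [c]
    simp only [h3]
    exact h2
  · intro i z hz1 hz2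
    have h1 : Matrix.vecMul (fun j => e.symm (sc (z j))) (D i) = 0 := by
      funext k
      apply e.injective
      apply ext'
      · rw [(hvm i _ k).1]; simp
      · intro w
        rw [(hvm i _ k).2.1]
        simp [hz1]
      · intro v
        rw [(hvm i _ k).2.2.1]
        have h3 : c' i v z = 0 := by
          have h4 : c' i v z = (-1 : K) ^ i • c i v z := by
            simp only [c, LinearMap.smul_apply, smul_smul, hsign, one_smul]
          rw [h4, hz2, smul_zero]
        simp [h3]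
      · intro w v
        rw [(hvm i _ k).2.2.2]
        have h0 : (fun _ : Fin (b (i + 1)) => (0 : K)) = 0 := rfl
        simp [h0]
    obtain ⟨y, hy⟩ := (hex i _).1 h1
    funext j
    have h2 := (hvm (i + 1) y j).1
    rw [hy] at h2
    simpa using h2
  · intro α β hαβ
    have h1 : ∑ j, (fun j => e.symm (lin (fun w => α w j) (fun v => β v j))) j • m j = 0 := by
      rw [hker0']
      simp only [RingEquiv.apply_symm_apply, c_lin, x_lin, y_lin]
      refine ⟨?_, hαβ⟩
      have h0 : (fun _ : Fin (b 0) => (0 : K)) = 0 := rfl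
      simp [h0]
    obtain ⟨y, hy⟩ := (hex0 _).1 h1
    refine ⟨fun j => (e (y j)).c, ?_, ?_⟩
    · intro x
      funext k
      rw [← (hvm 0 y k).2.1, hy]
      simp
    · intro v
      have h3 : ∀ z, c 0 v z = c' 0 v z := by
        intro z; simp [c]
      funext k
      rw [h3, ← (hvm 0 y k).2.2.1, hy]
      simp
  · intro i α β hαβ
    have h1 : Matrix.vecMul
        (fun j => e.symm (lin (fun w => α w j) (fun v => (-1 : K) ^ (i + 1) * β v j))) (D i) =
        0 := by
      funext k
      apply e.injective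
      have h0 : (fun _ : Fin (b (i + 1)) => (0 : K)) = 0 := rfl
      apply ext'
      · rw [(hvm i _ k).1]; simp
      · intro w
        rw [(hvm i _ k).2.1]
        simp [h0]
      · intro v
        rw [(hvm i _ k).2.2.1]
        simp [h0]
      · intro w v
        rw [(hvm i _ k).2.2.2]
        simp only [RingEquiv.apply_symm_apply, x_lin, y_lin, Pi.zero_apply, map_zero, xy_zero]
        have h2 : (fun j => (-1 : K) ^ (i + 1) * β v j) = (-1 : K) ^ (i + 1) • β v := rfl
        have h3 := congrFun (hαβ w v) k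
        simp only [c, LinearMap.smul_apply, Pi.smul_apply, smul_eq_mul] at h3
        rw [h2, map_smul, Pi.smul_apply, smul_eq_mul, ← h3, ← mul_assoc, pow_succ,
          show (-1 : K) ^ i * -1 * (-1) ^ i = -((-1) ^ i * (-1) ^ i) by ring, hsign]
        ring
    obtain ⟨y, hy⟩ := (hex i _).1 h1
    refine ⟨fun j => (e (y j)).c, ?_, ?_⟩
    · intro x
      funext k
      rw [← (hvm (i + 1) y k).2.1, hy]
      simp
    · intro v
      funext k
      have h3 : ∀ z, c (i + 1) v z k = (-1 : K) ^ (i + 1) * c' (i + 1) v z k := by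
        intro z; simp [c]
      rw [h3, ← (hvm (i + 1) y k).2.2.1, hy]
      simp only [RingEquiv.apply_symm_apply, y_lin]
      rw [← mul_assoc, hsign, one_mul]
  · intro i γ
    -- an element with only `xy` coordinates
    have key : ∃ y : Fin (b (i + 1)) → R, Matrix.vecMul y (D i) =
        fun j => e.symm ⟨0, 0, 0, fun w v => γ w v j⟩ := by
      have h0 : ∀ n, (fun _ : Fin n => (0 : K)) = 0 := fun _ => rfl
      cases i with
      | zero =>
        apply (hex0 _).1
        rw [hker0']
        simp [h0]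
      | succ i =>
        apply (hex i _).1
        funext k
        apply e.injective
        apply ext'
        · rw [(hvm i _ k).1]; simp
        · intro w
          rw [(hvm i _ k).2.1]
          simp [h0]
        · intro v
          rw [(hvm i _ k).2.2.1]
          simp [h0]
        · intro w v
          rw [(hvm i _ k).2.2.2]
          simp [h0]
    obtain ⟨y, hy⟩ := key
    refine ⟨fun w => (-1 : K) ^ i • fun j => (e (y j)).x w, fun v => - fun j => (e (y j)).y v, ?_⟩
    intro w v
    funext k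
    have h1 := (hvm i y k).2.2.2 w v
    rw [hy] at h1
    simp only [RingEquiv.apply_symm_apply] at h1
    simp only [map_smul, map_neg, c, LinearMap.smul_apply, smul_smul, hsign, one_smul,
      sub_neg_eq_add, Pi.add_apply]
    exact h1.symm

end

end Pool.Agent.H.MP_fc7d68_al
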