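import Pool.Agent.H.MP_fc7d68_al.LinRes

/-!
Operator resolutions give linear resolutions.
-/

namespace Pool.Agent.H.MP_fc7d68_al

open Mdl

section

variable {K W V A0 A1 : Type*} [Field K] [Fintype W] [Fintype V]
    [AddCommGroup A0] [Module K A0] [AddCommGroup A1] [Module K A1]
    {X : W → A0 →ₗ[K] A1} {Y : V → A0 →ₗ[K] A1}

/-- transfer to coordinate spaces -/
theorem IsOpRes.transfer {B : ℕ → Type*} [∀ i, AddCommGroup (B i)] [∀ i, Module K (B i)]
    {a : ∀ i, W → B (i + 1) →ₗ[K] B i} {c : ∀ i, V → B (i + 1) →ₗ[K] B i}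
    {η : B 0 ≃ₗ[K] A0} (h : IsOpRes X Y B a c η)
    {B' : ℕ → Type*} [∀ i, AddCommGroup (B' i)] [∀ i, Module K (B' i)]
    (E : ∀ i, B i ≃ₗ[K] B' i) :
    IsOpRes X Y B' (fun i w => (E i).toLinearMap ∘ₗ a i w ∘ₗ (E (i + 1)).symm.toLinearMap)
      (fun i v => (E i).toLinearMap ∘ₗ c i v ∘ₗ (E (i + 1)).symm.toLinearMap)
      ((E 0).symm.trans η) where
  comm i x y b := by simp [h.comm]
  rel b := by simpa using h.rel ((E 1).symm b)
  inj i b h1 h2 := by
    have := h.inj i ((E (i + 1)).symm b) (fun x => by simpa using h1 x)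
      (fun y => by simpa using h2 y)
    simpa using this
  mid0 α β hαβ := by
    obtain ⟨b, hb1, hb2⟩ := h.mid0 (fun x => (E 0).symm (α x)) (fun y => (E 0).symm (β y))
      (by simpa using hαβ)
    exact ⟨E 1 b, fun x => by simp [hb1], fun y => by simp [hb2]⟩
  mid i α β hαβ := by
    obtain ⟨b, hb1, hb2⟩ := h.mid i (fun x => (E (i + 1)).symm (α x))
      (fun y => (E (i + 1)).symm (β y)) (by
        intro x y
        have := hαβ x y
        simpa using this)
    exact ⟨E (i + 2) b, fun x => by simp [hb1], fun y => by simp [hb2]⟩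
  surj i γ := by
    obtain ⟨α, β, hαβ⟩ := h.surj i (fun x y => (E i).symm (γ x y))
    refine ⟨fun x => E (i + 1) (α x), fun y => E (i + 1) (β y), fun x y => ?_⟩
    simp only [LinearMap.comp_apply, LinearEquiv.coe_coe, LinearEquiv.symm_apply_apply]
    rw [← map_sub, hαβ, LinearEquiv.apply_symm_apply]

theorem IsOpRes.coords {B : ℕ → Type*} [∀ i, AddCommGroup (B i)] [∀ i, Module K (B i)]
    [∀ i, FiniteDimensional K (B i)]
    {a : ∀ i, W → B (i + 1) →ₗ[K] B i} {c : ∀ i, V → B (i + 1) →ₗ[K] B i}
    {η : B 0 ≃ₗ[K] A0} (h : IsOpRes X Y B a c η) :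
    ∃ (b : ℕ → ℕ) (a : ∀ i, W → (Fin (b (i + 1)) → K) →ₗ[K] (Fin (b i) → K))
      (c : ∀ i, V → (Fin (b (i + 1)) → K) →ₗ[K] (Fin (b i) → K))
      (η : (Fin (b 0) → K) ≃ₗ[K] A0),
      IsOpRes X Y (fun i => Fin (b i) → K) a c η :=
  ⟨fun i => Module.finrank K (B i), _, _, _,
    h.transfer (fun i => (Module.finBasis K (B i)).equivFun)⟩

end

section

variable {K W V P0 A1 R M : Type*} [Field K] [Fintype W] [Fintype V] [Fintype P0]
    [AddCommGroup A1] [Module K A1] {X : W → (P0 → K) →ₗ[K] A1} {Y : V → (P0 → K) →ₗ[K] A1}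
    [CommRing R] {R1 : Set R} [AddCommGroup M] [Module R M]
    {M0 : Set M}

theorem hasLinearResolution_of_isOpRes (dat : ModData K W V P0 X Y R R1 M M0)
    {b : ℕ → ℕ} {a : ∀ i, W → (Fin (b (i + 1)) → K) →ₗ[K] (Fin (b i) → K)}
    {c : ∀ i, V → (Fin (b (i + 1)) → K) →ₗ[K] (Fin (b i) → K)}
    {η : (Fin (b 0) → K) ≃ₗ[K] (P0 → K)}
    (h : IsOpRes X Y (fun i => Fin (b i) → K) a c η) :
    HasLinearResolution R R1 M M0 := by
  classical
  set e := dat.e with he
  have hsign : ∀ i : ℕ, (-1 : K) ^ i * (-1 : K) ^ i = 1 := by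
    intro i
    rw [← mul_pow]; simp
  let μ : Fin (b 0) → P0 → K := fun j => η (Pi.single j 1)
  have hη : ∀ z ν, η z ν = ∑ j, z j * μ j ν := by
    intro z ν
    have h1 : z = ∑ j, z j • (Pi.single j (1 : K) : Fin (b 0) → K) := by
      funext k
      simp [Finset.sum_apply, Pi.single_apply]
    conv_lhs => rw [h1]
    rw [map_sum]
    simp [μ]
  let c' : ∀ i, V → (Fin (b (i + 1)) → K) →ₗ[K] (Fin (b i) → K) := fun i v =>
    ((-1 : K) ^ i) • c i v
  let D : ∀ i, Matrix (Fin (b (i + 1))) (Fin (b i)) R := fun i j k =>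
    e.symm (lin (fun w => a i w (Pi.single j 1) k) (fun v => c' i v (Pi.single j 1) k))
  let m : Fin (b 0) → M := fun j => dat.π (fun ν => e.symm (sc (μ j ν)))
  have hD' : ∀ i j k, (e (D i j k)).c = 0 ∧ ∀ w v, (e (D i j k)).xy w v = 0 := by
    intro i j k
    simp [D]
  have hexp : ∀ {n k : ℕ} (f : (Fin n → K) →ₗ[K] (Fin k → K)) (z : Fin n → K) (l : Fin k),
      ∑ j, z j * f (Pi.single j 1) l = f z l := by
    intro n k f z l
    have h1 : z = ∑ j, z j • (Pi.single j (1 : K) : Fin n → K) := by
      funext k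
      simp [Finset.sum_apply, Pi.single_apply]
    conv_rhs => rw [h1]
    rw [map_sum]
    simp
  -- coordinates of vecMul
  have hvm : ∀ i (z : Fin (b (i + 1)) → R) k,
      (e (Matrix.vecMul z (D i) k)).c = 0 ∧
      (∀ w, (e (Matrix.vecMul z (D i) k)).x w = a i w (fun j => (e (z j)).c) k) ∧
      (∀ v, (e (Matrix.vecMul z (D i) k)).y v = c' i v (fun j => (e (z j)).c) k) ∧
      (∀ w v, (e (Matrix.vecMul z (D i) k)).xy w v =
        c' i v (fun j => (e (z j)).x w) k + a i w (fun j => (e (z j)).y v) k) := by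
    intro i z k
    have h := vecMul_coord e z (D i) (hD' i) k
    refine ⟨h.1, ?_, ?_, ?_⟩
    · intro w
      rw [h.2.1, ← hexp]
      simp [D]
    · intro v
      rw [h.2.2.1, ← hexp]
      simp [D]
    · intro w v
      rw [h.2.2.2, ← hexp, ← hexp]
      simp [D]
  -- the sum in terms of π
  have hsum : ∀ z : Fin (b 0) → R, ∑ j, z j • m j =
      dat.π (fun ν => ∑ j, z j * e.symm (sc (μ j ν))) := by
    intro z
    have : (fun ν => ∑ j, z j * e.symm (sc (μ j ν))) =
        ∑ j, z j • (fun ν => e.symm (sc (μ j ν))) := by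
      funext ν
      simp
    rw [this, map_sum]
    simp only [map_smul, m]
  have hker0' : ∀ z : Fin (b 0) → R, ∑ j, z j • m j = 0 ↔
      η (fun j => (e (z j)).c) = 0 ∧
      ∑ w, X w (η fun j => (e (z j)).x w) + ∑ v, Y v (η fun j => (e (z j)).y v) = 0 := by
    intro z
    rw [hsum, dat.ker]
    have h1 : ∀ ν, e (∑ j, z j * e.symm (sc (μ j ν))) = ∑ j, e (z j) * sc (μ j ν) := by
      intro ν
      rw [map_sum]
      simp only [map_mul, RingEquiv.apply_symm_apply]
    have h2 : ∀ f : Fin (b 0) → K, η f = fun ν => ∑ j, f j * μ j ν := fun f => funext (hη f)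
    simp only [← he, h1, h2, funext_iff, Pi.zero_apply]
    simp
  have h0 : ∀ n, (fun _ : Fin n => (0 : K)) = 0 := fun _ => rfl
  -- solving the mixed equations
  have hsurj : ∀ i (γ : W → V → Fin (b i) → K), ∃ (α : W → Fin (b (i + 1)) → K)
      (β : V → Fin (b (i + 1)) → K), ∀ w v k, c' i v (α w) k + a i w (β v) k = γ w v k := by
    intro i γ
    obtain ⟨α, β, hαβ⟩ := h.surj i γ
    refine ⟨fun w => (-1 : K) ^ i • α w, fun v => - β v, fun w v k => ?_⟩
    rw [← hαβ w v]
    simp only [c', map_smul, map_neg, LinearMap.smul_apply, smul_smul, hsign, one_smul,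
      Pi.sub_apply, Pi.neg_apply]
    ring
  refine ⟨b, m, D, ?_, ?_, ?_, ?_, ?_⟩
  · intro j
    exact (dat.memM0 _).2 ⟨μ j, rfl⟩
  · intro i j k
    exact (dat.memR1 _).2 (hD' i j k)
  · -- spanning
    rw [eq_top_iff]
    rintro x -
    obtain ⟨v, rfl⟩ := dat.surj x
    have hv : v = ∑ ν, v ν • (Pi.single ν (1 : R) : P0 → R) := by
      funext k
      simp [Finset.sum_apply, Pi.single_apply]
    rw [hv, map_sum]
    refine Submodule.sum_mem _ fun ν _ => ?_
    rw [map_smul]
    refine Submodule.smul_mem _ _ ?_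
    rw [Submodule.mem_span_range_iff_exists_fun]
    refine ⟨fun j => e.symm (sc (η.symm (Pi.single ν 1) j)), ?_⟩
    rw [hsum]
    congr 1
    funext ν'
    apply e.injective
    simp only [map_sum, map_mul, RingEquiv.apply_symm_apply]
    have h1 : ∑ j, η.symm (Pi.single ν 1) j * μ j ν' = (Pi.single ν (1 : K) : P0 → K) ν' := by
      rw [← hη, LinearEquiv.apply_symm_apply]
    have h2 : e ((Pi.single ν (1 : R) : P0 → R) ν') =
        sc ((Pi.single ν (1 : K) : P0 → K) ν') := by
      by_cases hν : ν' = ν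
      · subst hν
        simp only [Pi.single_eq_same, map_one]
        rfl
      · simp only [Pi.single_eq_of_ne hν, map_zero]
        rfl
    rw [h2]
    apply ext'
    · simp only [c_sum, c_mul, c_sc]
      exact h1
    · intro w; simp
    · intro v; simp
    · intro w v; simp
  · -- exactness at zero
    intro z
    rw [hker0']
    constructor
    · rintro ⟨hz0, hz1⟩
      have hz0' : ∀ j, (e (z j)).c = 0 := by
        intro j
        exact congrFun ((LinearEquiv.map_eq_zero_iff η).1 hz0) j
      obtain ⟨z0, hz2, hz3⟩ := h.mid0 (fun w j => (e (z j)).x w) (fun v j => (e (z j)).y v) hz1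
      obtain ⟨α, β, hαβ⟩ := hsurj 0 (fun w v j => (e (z j)).xy w v)
      refine ⟨fun j => e.symm ⟨z0 j, fun w => α w j, fun v => β v j, 0⟩, ?_⟩
      funext k
      apply e.injective
      apply ext'
      · rw [(hvm 0 _ k).1, hz0']
      · intro w
        rw [(hvm 0 _ k).2.1]
        simp only [RingEquiv.apply_symm_apply]
        exact congrFun (hz2 w) k
      · intro v
        rw [(hvm 0 _ k).2.2.1]
        simp only [RingEquiv.apply_symm_apply]
        have h3 : c' 0 v z0 = c 0 v z0 := by simp [c']
        exact (congrFun h3 k).trans (congrFun (hz3 v) k)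
      · intro w v
        rw [(hvm 0 _ k).2.2.2]
        simp only [RingEquiv.apply_symm_apply]
        exact hαβ w v k
    · rintro ⟨y, rfl⟩
      simp only [(hvm 0 y _).1, (hvm 0 y _).2.1, (hvm 0 y _).2.2.1]
      refine ⟨by rw [h0]; exact map_zero _, ?_⟩
      have h3 : ∀ v z, c' 0 v z = c 0 v z := by intro v z; simp [c']
      simp only [h3]
      exact h.rel _
  · -- exactness at `i + 1`
    intro i z
    constructor
    · intro hz
      have hz0 : (fun j => (e (z j)).c) = 0 := by
        apply h.inj i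
        · intro w
          funext k
          rw [← (hvm i z k).2.1, hz]
          simp
        · intro v
          have h3 : c' i v (fun j => (e (z j)).c) = 0 := by
            funext k
            rw [← (hvm i z k).2.2.1, hz]
            simp
          have h4 : c i v (fun j => (e (z j)).c) = (-1 : K) ^ i • c' i v (fun j => (e (z j)).c) := by
            simp only [c', LinearMap.smul_apply, smul_smul, hsign, one_smul]
          rw [h4, h3, smul_zero]
      obtain ⟨z0, hz2, hz3⟩ := h.mid i (fun w j => (e (z j)).x w)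
        (fun v => (-1 : K) ^ (i + 1) • fun j => (e (z j)).y v) (by
          intro w v
          funext k
          have h3 := (hvm i z k).2.2.2 w v
          rw [hz] at h3
          simp only [c', Pi.zero_apply, map_zero, xy_zero, LinearMap.smul_apply, Pi.smul_apply,
            smul_eq_mul] at h3
          rw [map_smul, Pi.smul_apply, smul_eq_mul]
          have h4 := congrArg (fun t => (-1 : K) ^ i * t) h3
          simp only [mul_zero, mul_add] at h4
          rw [← mul_assoc, hsign, one_mul] at h4
          rw [pow_succ]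
          linear_combination -h4)
      obtain ⟨α, β, hαβ⟩ := hsurj (i + 1) (fun w v j => (e (z j)).xy w v)
      refine ⟨fun j => e.symm ⟨z0 j, fun w => α w j, fun v => β v j, 0⟩, ?_⟩
      funext k
      apply e.injective
      apply ext'
      · rw [(hvm (i + 1) _ k).1]
        exact (congrFun hz0 k).symm
      · intro w
        rw [(hvm (i + 1) _ k).2.1]
        simp only [RingEquiv.apply_symm_apply]
        exact congrFun (hz2 w) k
      · intro v
        rw [(hvm (i + 1) _ k).2.2.1]
        simp only [RingEquiv.apply_symm_apply]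
        have h3 : c' (i + 1) v z0 = fun j => (e (z j)).y v := by
          simp only [c', LinearMap.smul_apply, hz3, smul_smul, hsign, one_smul]
        exact congrFun h3 k
      · intro w v
        rw [(hvm (i + 1) _ k).2.2.2]
        simp only [RingEquiv.apply_symm_apply]
        exact hαβ w v k
    · rintro ⟨y, rfl⟩
      funext k
      apply e.injective
      apply ext'
      · rw [(hvm i _ k).1]; simp
      · intro w
        rw [(hvm i _ k).2.1]
        simp only [(hvm (i + 1) _ _).1, h0, map_zero, Pi.zero_apply, x_zero]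
      · intro v
        rw [(hvm i _ k).2.2.1]
        simp only [(hvm (i + 1) _ _).1, h0, map_zero, Pi.zero_apply, y_zero]
      · intro w v
        rw [(hvm i _ k).2.2.2]
        simp only [(hvm (i + 1) _ _).2.1, (hvm (i + 1) _ _).2.2.1, Pi.zero_apply, map_zero,
          xy_zero]
        have h1 := congrFun (h.comm i w v (fun j => (e (y j)).c)) k
        have h2 : (fun k => (c' (i + 1) v fun j => (e (y j)).c) k) =
            (-1 : K) ^ (i + 1) • c (i + 1) v (fun j => (e (y j)).c) := rfl
        have h3 : (fun k => (a (i + 1) w fun j => (e (y j)).c) k) =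
            a (i + 1) w (fun j => (e (y j)).c) := rfl
        rw [h2, h3, map_smul, Pi.smul_apply, smul_eq_mul]
        simp only [c', LinearMap.smul_apply, Pi.smul_apply, smul_eq_mul]
        rw [h1, pow_succ]
        ring

theorem hasLinearResolution_iff (dat : ModData K W V P0 X Y R R1 M M0)
    (h0 : Function.Surjective (psi X Y 0)) :
    HasLinearResolution R R1 M M0 ↔ ∀ i, Function.Surjective (psi X Y i) := by
  constructor
  · intro h
    obtain ⟨b, a, c, η, hres⟩ := isOpRes_of_hasLinearResolution dat h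
    exact psi_surjective_of_isOpRes hres h0
  · intro h
    obtain ⟨b, a, c, η, hres⟩ := (isOpRes_G X Y h).coords
    exact hasLinearResolution_of_isOpRes dat hres

end

end Pool.Agent.H.MP_fc7d68_al
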