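import Pool.Agent.H.MP_fc7d68_al.Dyn

/-!
The word dynamics of a (finite) Post-Turing machine.
-/

set_option linter.unusedSimpArgs false
set_option linter.unusedSectionVars false

namespace Pool.Agent.H.MP_fc7d68_al

open Turing

section

variable {Γ Q : Type} [Inhabited Γ] [Inhabited Q] [DecidableEq Γ] [DecidableEq Q]

/-- letters: `none` is the left filler, `some (a, none)` a cell, `some (a, some q)` the head -/
abbrev LL (Γ Q : Type) := Option (Γ × Option Q)

/-- symbol of a letter -/
def sy : LL Γ Q → Γ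
  | some (a, _) => a
  | none => default

/-- head state of a letter -/
def hd : LL Γ Q → Option Q
  | some (_, o) => o
  | none => none

variable (M : Q → Γ → Option (Q × TM0.Stmt Γ))

/-- the head arriving from the given letter when it moves in direction `d` -/
def arr (d : Dir) (a : LL Γ Q) : Option Q :=
  match hd a with
  | none => none
  | some q =>
    match M q (sy a) with
    | some (q', .move d') => if d' = d then some q' else none
    | _ => none

/-- local rule -/
def FF : LL Γ Q × LL Γ Q × LL Γ Q → Option (LL Γ Q)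
  | (a, b, c) =>
    if c = none ∧ b = none ∧ a = none then some none else
    match hd b with
    | some q =>
      match M q (sy b) with
      | none => none
      | some (q', .write s) => some (some (s, some q'))
      | some (_, .move _) => some (some (sy b, none))
    | none => some (some (sy b, (arr M Dir.right a).or (arr M Dir.left c)))

/-- displacement -/
def disp : TM0.Stmt Γ → ℤ
  | .move .left => 1
  | .move .right => 3
  | .write _ => 2

/-- the step function, with the position of the head -/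
def stepP (p : TM0.Cfg Γ Q × ℤ) : Option (TM0.Cfg Γ Q × ℤ) :=
  (M p.1.q p.1.Tape.head).map fun s =>
    (⟨s.1, match s.2 with
      | .move d => p.1.Tape.move d
      | .write a => p.1.Tape.write a⟩, p.2 + disp s.2)

theorem stepP_fst (p : TM0.Cfg Γ Q × ℤ) : (stepP M p).map Prod.fst = TM0.step M p.1 := by
  obtain ⟨⟨q, T⟩, h⟩ := p
  simp only [stepP, TM0.step, Option.map_map]
  rfl

/-- the word of a configuration -/
def wd (t : ℤ) (p : TM0.Cfg Γ Q × ℤ) (j : ℤ) : LL Γ Q :=
  if j < t then none else some (p.1.Tape.nth (j - p.2), if j = p.2 then some p.1.q else none)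

/-- invariant -/
def Inv (t : ℤ) (p : TM0.Cfg Γ Q × ℤ) : Prop :=
  t ≤ p.2 ∧ ∀ j < t, p.1.Tape.nth (j - p.2) = default

theorem sy_wd {t : ℤ} {p : TM0.Cfg Γ Q × ℤ} (h : Inv t p) (j : ℤ) :
    sy (wd t p j) = p.1.Tape.nth (j - p.2) := by
  rw [wd]
  split_ifs with hj
  · exact (h.2 j hj).symm
  · rfl
  · rfl

theorem hd_wd {t : ℤ} {p : TM0.Cfg Γ Q × ℤ} (h : Inv t p) (j : ℤ) :
    hd (wd t p j) = if j = p.2 then some p.1.q else none := by
  have := h.1
  rw [wd]
  split_ifs with hj h1 h1
  · omega
  · rfl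
  · rfl
  · rfl

theorem wd_eq_none {t : ℤ} {p : TM0.Cfg Γ Q × ℤ} (j : ℤ) : wd t p j = none ↔ j < t := by
  rw [wd]
  split_ifs with hj <;> simp [hj]

theorem mem_wd {t : ℤ} (ht : 0 ≤ t) (p : TM0.Cfg Γ Q × ℤ) (j : ℕ) :
    mem none (fun j : ℕ => wd t p j) j = (wd t p (j - 3), wd t p (j - 2), wd t p (j - 1)) := by
  induction j with
  | zero =>
    rw [(wd_eq_none _).2 (by simp; omega), (wd_eq_none _).2 (by simp; omega),
      (wd_eq_none _).2 (by simp; omega)]
    rfl
  | succ j ih =>
    rw [mem, ih, upd]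
    simp only [Prod.mk.injEq]
    refine ⟨?_, ?_, ?_⟩ <;> congr 1 <;> push_cast <;> ring

theorem inv_step {t : ℤ} {p p' : TM0.Cfg Γ Q × ℤ} (h : Inv t p) (hs : stepP M p = some p') :
    Inv (t + 1) p' := by
  simp only [stepP, Option.map_eq_some_iff] at hs
  obtain ⟨⟨q', s⟩, -, rfl⟩ := hs
  have h1 := h.1
  constructor
  · rcases s with (_ | _) | _ <;> simp only [disp] <;> omega
  · intro j hj
    rcases s with (_ | _) | b
    · simp only [disp, Tape.move_left_nth]
      rw [show j - (p.2 + 1) - 1 = (j - 2) - p.2 by ring]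
      exact h.2 _ (by omega)
    · simp only [disp, Tape.move_right_nth]
      rw [show j - (p.2 + 3) + 1 = (j - 2) - p.2 by ring]
      exact h.2 _ (by omega)
    · simp only [disp, Tape.write_nth]
      rw [if_neg (by omega), show j - (p.2 + 2) = (j - 2) - p.2 by ring]
      exact h.2 _ (by omega)

theorem FF_halt {t : ℤ} (ht : 0 ≤ t) {p : TM0.Cfg Γ Q × ℤ} (h : Inv t p)
    (hs : stepP M p = none) :
    FF M (mem none (fun j : ℕ => wd t p j) (p.2.toNat + 2)) = none := by
  have h1 := h.1
  rw [mem_wd ht, FF]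
  have e2 : (((p.2.toNat + 2 : ℕ) : ℤ) - 2) = p.2 := by push_cast; omega
  rw [e2, if_neg, hd_wd h, sy_wd h]
  · simp only [if_true, sub_self, Tape.nth_zero]
    have : M p.1.q p.1.Tape.head = none := by
      simpa [stepP] using hs
    rw [this]
  · rintro ⟨-, h2, -⟩
    rw [wd_eq_none] at h2
    omega

theorem FF_step {t : ℤ} (ht : 0 ≤ t) {p p' : TM0.Cfg Γ Q × ℤ} (h : Inv t p)
    (hs : stepP M p = some p') (j : ℕ) :
    FF M (mem none (fun j : ℕ => wd t p j) j) = some (wd (t + 1) p' j) := by
  have h1 := h.1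
  rw [mem_wd ht, FF]
  by_cases hj : (j : ℤ) < t + 1
  · rw [if_pos, (wd_eq_none _).2 hj]
    refine ⟨?_, ?_, ?_⟩ <;> rw [wd_eq_none] <;> omega
  · have hne : ¬ (wd t p ((j : ℤ) - 1) = none ∧ wd t p ((j : ℤ) - 2) = none ∧
        wd t p ((j : ℤ) - 3) = none) := by
      rintro ⟨h2, -, -⟩
      rw [wd_eq_none] at h2
      omega
    rw [if_neg hne, hd_wd h, sy_wd h]
    have hM : ∃ s, M p.1.q p.1.Tape.head = some s ∧ p' = (⟨s.1, match s.2 with
      | .move d => p.1.Tape.move d
      | .write a => p.1.Tape.write a⟩, p.2 + disp s.2) := by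
      simp only [stepP, Option.map_eq_some_iff] at hs
      obtain ⟨s, hs1, hs2⟩ := hs
      exact ⟨s, hs1, hs2.symm⟩
    obtain ⟨⟨q', s⟩, hM1, rfl⟩ := hM
    have harr : ∀ d (i : ℤ), arr M d (wd t p i) = if i = p.2 then
        (match s with
        | .move d' => if d' = d then some q' else none
        | _ => none) else none := by
      intro d i
      rw [arr, hd_wd h, sy_wd h]
      by_cases hi : i = p.2
      · subst hi
        simp only [if_true, sub_self, Tape.nth_zero, hM1]
        rcases s with d' | _ <;> rfl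
      · rw [if_neg hi, if_neg hi]
    simp only [harr]
    rw [wd, if_neg hj]
    by_cases hj2 : (j : ℤ) - 2 = p.2
    · rw [if_pos hj2, hj2, sub_self, Tape.nth_zero]
      simp only [hM1]
      rcases s with (_ | _) | b
      · simp only [disp, Tape.move_left_nth]
        rw [show (j : ℤ) - (p.2 + 1) - 1 = 0 by omega, Tape.nth_zero, if_neg (by omega)]
      · simp only [disp, Tape.move_right_nth]
        rw [show (j : ℤ) - (p.2 + 3) + 1 = 0 by omega, Tape.nth_zero, if_neg (by omega)]
      · simp only [disp, Tape.write_nth]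
        rw [if_pos (by omega), if_pos (by omega)]
    · rw [if_neg hj2]
      rcases s with (_ | _) | b
      · simp only [disp, Tape.move_left_nth, reduceCtorEq, if_false, ite_self, Option.none_or,
          if_true]
        rw [show (j : ℤ) - (p.2 + 1) - 1 = (j : ℤ) - 2 - p.2 by ring]
        have : ((j : ℤ) - 1 = p.2) ↔ ((j : ℤ) = p.2 + 1) := by omega
        simp only [this]
      · simp only [disp, Tape.move_right_nth, reduceCtorEq, if_false, ite_self, Option.or_none,
          if_true]
        rw [show (j : ℤ) - (p.2 + 3) + 1 = (j : ℤ) - 2 - p.2 by ring]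
        have : ((j : ℤ) - 3 = p.2) ↔ ((j : ℤ) = p.2 + 3) := by omega
        simp only [this]
      · simp only [disp, Tape.write_nth, ite_self, Option.or_none]
        rw [if_neg (by omega), if_neg (by omega)]
        rw [show (j : ℤ) - (p.2 + 2) = (j : ℤ) - 2 - p.2 by ring]

theorem ListBlank_eventually (l : ListBlank Γ) : ∃ J, ∀ j, J ≤ j → l.nth j = default := by
  induction l using ListBlank.induction_on with
  | _ l =>
    refine ⟨l.length, fun j hj => ?_⟩
    rw [ListBlank.nth_mk, List.getI_eq_default _ hj]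

theorem Tape_eventually (T : Tape Γ) : ∃ J : ℤ, ∀ j, J ≤ j → T.nth j = default := by
  obtain ⟨J, hJ⟩ := ListBlank_eventually T.right₀
  refine ⟨J, fun j hj => ?_⟩
  obtain ⟨n, rfl⟩ := Int.eq_ofNat_of_zero_le (by omega : 0 ≤ j)
  rw [← Tape.right₀_nth]
  exact hJ n (by omega)

theorem wd_eventually (t : ℤ) (p : TM0.Cfg Γ Q × ℤ) :
    ∃ J : ℕ, ∀ j : ℕ, J ≤ j → wd t p j = some (default, none) := by
  obtain ⟨J, hJ⟩ := Tape_eventually p.1.Tape
  refine ⟨(J + p.2).toNat + (p.2 + 1).toNat + t.toNat, fun j hj => ?_⟩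
  rw [wd, if_neg (by omega), hJ _ (by omega), if_neg (by omega)]

/-- the initial word -/
def w0 (l : List Γ) (j : ℕ) : LL Γ Q := some (l.getI j, if j = 0 then some default else none)

theorem Tape_neg (l : List Γ) (j : ℤ) (hj : j < 0) : (Tape.mk₁ l).nth j = default := by
  obtain ⟨n, rfl⟩ := Int.eq_negSucc_of_lt_zero hj
  change (Tape.mk₁ l).left.nth n = default
  rw [Tape.mk₁, Tape.mk₂, Tape.mk'_left, ListBlank.nth_mk]
  simp

theorem Tape_nonneg (l : List Γ) (j : ℕ) : (Tape.mk₁ l).nth j = l.getI j := by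
  rw [Tape.mk₁, Tape.mk₂, Tape.mk'_nth_nat, ListBlank.nth_mk]

theorem inv_init (l : List Γ) : Inv 0 ((TM0.init l : TM0.Cfg Γ Q), 0) := by
  refine ⟨le_rfl, fun j hj => ?_⟩
  rw [sub_zero]
  exact Tape_neg l j hj

theorem wd_init (l : List Γ) (j : ℕ) : wd 0 ((TM0.init l : TM0.Cfg Γ Q), 0) j = w0 l j := by
  rw [wd, if_neg (by omega), w0, sub_zero]
  have : (TM0.init l : TM0.Cfg Γ Q).Tape.nth (j : ℤ) = l.getI j := Tape_nonneg l j
  rw [this]
  have h2 : ((j : ℤ) = 0) ↔ j = 0 := by omega
  simp only [h2]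
  rfl

/-- the computation -/
def seq (l : List Γ) : ℕ → Option (TM0.Cfg Γ Q × ℤ)
  | 0 => some (TM0.init l, 0)
  | t + 1 => (seq l t).bind (stepP M)

theorem reaches_seq (l : List Γ) (b : TM0.Cfg Γ Q)
    (h : StateTransition.Reaches (TM0.step M) (TM0.init l) b) :
    ∃ t p, seq M l t = some p ∧ p.1 = b := by
  induction h with
  | refl => exact ⟨0, _, rfl, rfl⟩
  | @tail b' c' _ hs ih =>
    obtain ⟨t, p, h2, h3⟩ := ih
    subst h3
    have h4 : (stepP M p).map Prod.fst = some c' := by rw [stepP_fst]; exact hs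
    simp only [Option.map_eq_some_iff] at h4
    obtain ⟨p', h5, h6⟩ := h4
    exact ⟨t + 1, p', by rw [seq, h2]; exact h5, h6⟩

theorem dom_iff (l : List Γ) :
    (TM0.eval (M : TM0.Machine Γ Q) l).Dom ↔ ∃ t p, seq M l t = some p ∧ stepP M p = none := by
  have h0 : (TM0.eval (M : TM0.Machine Γ Q) l).Dom ↔ (StateTransition.eval (TM0.step M) (TM0.init l)).Dom := Iff.rfl
  rw [h0, Part.dom_iff_mem]
  constructor
  · rintro ⟨b, hb⟩
    rw [StateTransition.mem_eval] at hb
    have hr : ∃ t p, seq M l t = some p ∧ p.1 = b := reaches_seq M l b hb.1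
    obtain ⟨t, p, h1, h2⟩ := hr
    refine ⟨t, p, h1, ?_⟩
    have := hb.2
    rw [← h2, ← stepP_fst, Option.map_eq_none_iff] at this
    exact this
  · rintro ⟨t, p, h1, h2⟩
    refine ⟨p.1, ?_⟩
    rw [StateTransition.mem_eval]
    constructor
    · clear h2
      induction t generalizing p with
      | zero =>
        simp only [seq, Option.some.injEq] at h1
        subst h1
        exact Relation.ReflTransGen.refl
      | succ t ih =>
        rw [seq, Option.bind_eq_some_iff] at h1
        obtain ⟨p0, h3, h4⟩ := h1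
        refine Relation.ReflTransGen.tail (ih p0 h3) ?_
        rw [← stepP_fst, h4]
        rfl
    · rw [← stepP_fst, h2]
      rfl

end

end Pool.Agent.H.MP_fc7d68_al
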