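import Pool.Agent.H.MP_fc7d68_al.Machine

/-!
Injectivity of the transduction is equivalent to non-halting, and reduction of the halting
problem to finite Post-Turing machines.
-/

set_option linter.unusedSimpArgs false
set_option linter.unusedSectionVars false

namespace Pool.Agent.H.MP_fc7d68_al

open Turing

section

variable {K : Type*} [Field K]
variable {Γ Q : Type} [Inhabited Γ] [Inhabited Q] [DecidableEq Γ] [DecidableEq Q]
  [Fintype Γ] [Fintype Q]
variable (M : Q → Γ → Option (Q × TM0.Stmt Γ))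

/-- blank letter -/
abbrev blk : LL Γ Q := some (default, none)

theorem inv_seq (l : List Γ) (t : ℕ) (p : TM0.Cfg Γ Q × ℤ) (h : seq M l t = some p) :
    Inv (t : ℤ) p := by
  induction t generalizing p with
  | zero =>
    simp only [seq, Option.some.injEq] at h
    subst h
    exact inv_init l
  | succ t ih =>
    rw [seq, Option.bind_eq_some_iff] at h
    obtain ⟨p0, h3, h4⟩ := h
    have := inv_step M (ih p0 h3) h4
    push_cast
    exact this

theorem w0_min (l : List Γ) (r : ℕ) (hr : l.length ≤ r) (hr1 : 1 ≤ r) (j : ℕ) :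
    (w0 l j : LL Γ Q) = w0 l (min j r) := by
  by_cases hj : j ≤ r
  · rw [min_eq_left hj]
  · rw [min_eq_right (by omega), w0, w0, List.getI_eq_default _ (by omega),
      List.getI_eq_default _ hr, if_neg (by omega), if_neg (by omega)]

theorem zinj_of_not_dom (l : List Γ) (r : ℕ) (hr : l.length ≤ r) (hr1 : 1 ≤ r)
    (h : ¬ (TM0.eval (M : TM0.Machine Γ Q) l).Dom) :
    ZInj (gam K none r) (TT K (FF M) r (w0 l)) (lam K (blk : LL Γ Q) r) := by
  rw [dom_iff] at h
  push Not at h
  have hsome : ∀ t, ∃ p, seq M l t = some p := by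
    intro t
    induction t with
    | zero => exact ⟨_, rfl⟩
    | succ t ih =>
      obtain ⟨p, hp⟩ := ih
      have h1 := h t p hp
      obtain ⟨p', hp'⟩ := Option.ne_none_iff_exists'.1 h1
      exact ⟨p', by rw [seq, hp]; exact hp'⟩
  choose p hp using hsome
  have hstep : ∀ t, stepP M (p t) = some (p (t + 1)) := by
    intro t
    have h1 := hp (t + 1)
    rw [seq, hp t] at h1
    exact h1
  apply zinj_of_nonhalting none blk (FF M) r (w0 l) (fun t j => wd t (p t) j)
  · simp
  · intro j
    have h0 : p 0 = (TM0.init l, 0) := by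
      have h1 := hp 0
      simp only [seq, Option.some.injEq] at h1
      exact h1.symm
    rw [h0, ← w0_min l r hr hr1]
    exact wd_init l j
  · intro t j
    rw [wd_eq_none]
    exact Nat.cast_lt
  · intro t j
    have h1 := FF_step M (Nat.cast_nonneg t) (inv_seq M l t _ (hp t)) (hstep t) j
    rw [h1]
    push_cast
    rfl

theorem not_zinj_of_dom (l : List Γ) (r : ℕ) (hr : l.length ≤ r) (hr1 : 1 ≤ r)
    (h : (TM0.eval (M : TM0.Machine Γ Q) l).Dom) :
    ¬ ZInj (gam K none r) (TT K (FF M) r (w0 l)) (lam K (blk : LL Γ Q) r) := by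
  rw [dom_iff] at h
  obtain ⟨T, pT, hT, hhalt⟩ := h
  have hsome : ∀ d t, t + d = T → ∃ p, seq M l t = some p := by
    intro d
    induction d with
    | zero => intro t ht; exact ⟨pT, by rw [← hT, ← ht]; rfl⟩
    | succ d ih =>
      intro t ht
      obtain ⟨p, hp⟩ := ih (t + 1) (by omega)
      rw [seq, Option.bind_eq_some_iff] at hp
      obtain ⟨p0, h0, -⟩ := hp
      exact ⟨p0, h0⟩
  let p : ℕ → TM0.Cfg Γ Q × ℤ := fun t => (seq M l t).getD (TM0.init l, 0)
  have hp : ∀ t, t ≤ T → seq M l t = some (p t) := by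
    intro t ht
    obtain ⟨q, hq⟩ := hsome (T - t) t (by omega)
    simp only [p, hq, Option.getD_some]
  have hstep : ∀ t, t < T → stepP M (p t) = some (p (t + 1)) := by
    intro t ht
    have h1 := hp (t + 1) (by omega)
    rw [seq, hp t ht.le] at h1
    exact h1
  have hpT : p T = pT := by
    have := hp T le_rfl
    rw [hT, Option.some.injEq] at this
    exact this.symm
  apply not_zinj_of_halting none blk (FF M) r (w0 l) (fun t j => wd t (p t) j) T
  · intro j
    have h0 : p 0 = (TM0.init l, 0) := rfl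
    rw [h0, ← w0_min l r hr hr1]
    exact wd_init l j
  · intro t j _
    rw [wd_eq_none]
    exact Nat.cast_lt
  · intro t j ht
    have h1 := FF_step M (Nat.cast_nonneg t) (inv_seq M l t _ (hp t ht.le)) (hstep t ht) j
    rw [h1]
    push_cast
    rfl
  · refine ⟨(p T).2.toNat + 2, ?_⟩
    exact FF_halt M (Nat.cast_nonneg T) (inv_seq M l T _ (hp T le_rfl)) (by rw [hpT]; exact hhalt)
  · choose J hJ using fun t : ℕ => wd_eventually (t : ℤ) (p t)
    refine ⟨(Finset.range (T + 1)).sup J, fun t j ht hj => ?_⟩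
    apply hJ
    refine le_trans ?_ hj
    exact Finset.le_sup (f := J) (by simpa [Nat.lt_succ_iff] using ht)

theorem zinj_iff (l : List Γ) (r : ℕ) (hr : l.length ≤ r) (hr1 : 1 ≤ r) :
    ZInj (gam K none r) (TT K (FF M) r (w0 l)) (lam K (blk : LL Γ Q) r) ↔
      ¬ (TM0.eval (M : TM0.Machine Γ Q) l).Dom :=
  ⟨fun h h' => not_zinj_of_dom M l r hr hr1 h' h, zinj_of_not_dom M l r hr hr1⟩

end

/-! ### Finite machines from partial recursive functions -/

section

open PartrecToTM2 ToPartrec

/-- restriction of a machine to a finite set of states -/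
theorem exists_finite_machine {Γ Λ : Type} [Inhabited Γ] [Inhabited Λ]
    (M : TM0.Machine Γ Λ) (S : Set Λ) (hS : S.Finite) (ss : TM0.Supports M S) :
    ∃ (Q : Type) (_ : Inhabited Q) (_ : Finite Q) (M' : TM0.Machine Γ Q),
      ∀ l, (TM0.eval M' l).Dom ↔ (TM0.eval M l).Dom := by
  classical
  let Q := {q // q ∈ S}
  let _ : Inhabited Q := ⟨⟨default, ss.1⟩⟩
  have hfin : Finite Q := hS.to_subtype
  let g₁ : PointedMap Λ Q := ⟨fun q => if h : q ∈ S then ⟨q, h⟩ else default, by
    rw [dif_pos ss.1]; rfl⟩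
  let g₂ : Q → Λ := Subtype.val
  let f₁ : PointedMap Γ Γ := ⟨id, rfl⟩
  have hr := TM0.Machine.map_respects M f₁ f₁ g₁ g₂ ss (fun _ => rfl) (by
    intro q hq
    change (g₁ q).1 = q
    change (if h : q ∈ S then (⟨q, h⟩ : Q) else default).1 = q
    rw [dif_pos hq])
  refine ⟨Q, inferInstance, hfin, M.map f₁ f₁ g₁ g₂, fun l => ?_⟩
  have h1 := StateTransition.tr_eval_dom hr (a₁ := TM0.init l) (a₂ := TM0.init l) (by
    refine ⟨ss.1, ?_⟩
    rw [TM0.map_init]
    congr 1
    exact List.map_id _)
  exact h1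

/-- The four stacks form a finite type. -/
instance : Fintype K' := ⟨{.main, .rev, .aux, .stack}, fun x => by cases x <;> simp⟩

/-- tape alphabet -/
abbrev GG := TM2to1.Γ' K' (fun _ => Γ')

theorem exists_machine (c : Code) :
    ∃ (Q : Type) (_ : Inhabited Q) (_ : Finite Q) (M : TM0.Machine GG Q),
      ∀ v, (TM0.eval M (TM2to1.trInit K'.main (trList v))).Dom ↔ (c.eval v).Dom := by
  classical
  let _ : Inhabited Λ' := ⟨trNormal c Cont'.halt⟩
  have s2 := PartrecToTM2.tr_supports c Cont'.halt
  have s1 := TM2to1.tr_supports PartrecToTM2.tr s2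
  have s0 := TM1to0.tr_supports (TM2to1.tr PartrecToTM2.tr) s1
  obtain ⟨Q, i1, i2, M, hM⟩ := exists_finite_machine _ _ (Finset.finite_toSet _) s0
  refine ⟨Q, i1, i2, M, fun v => ?_⟩
  rw [hM, TM1to0.tr_eval, TM2to1.tr_eval_dom]
  have h1 := PartrecToTM2.tr_eval c v
  have h2 : (TM2.eval PartrecToTM2.tr K'.main (trList v)).Dom ↔
      (StateTransition.eval (TM2.step PartrecToTM2.tr) (PartrecToTM2.init c v)).Dom := by
    have : (TM2.init K'.main (trList v) : TM2.Cfg (fun _ : K' => Γ') Λ' (Option Γ')) =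
        PartrecToTM2.init c v := by
      unfold TM2.init PartrecToTM2.init
      congr 1
      funext k
      cases k <;> rfl
    rw [← this]
    rfl
  rw [h2, h1]
  rfl

end

end Pool.Agent.H.MP_fc7d68_al
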