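import Mathlib

/-!
The model ring `K[x_w, y_v] / ((x)^2 + (y)^2)`, with explicit coordinates.
-/

namespace Pool.Agent.H.MP_fc7d68_al

/-- The ring `K ⊕ K^W ⊕ K^V ⊕ K^(W × V)` with basis `1, x_w, y_v, x_w y_v`. -/
@[ext]
structure Mdl (K W V : Type*) where
  /-- constant coefficient -/
  c : K
  /-- coefficient of `x_w` -/
  x : W → K
  /-- coefficient of `y_v` -/
  y : V → K
  /-- coefficient of `x_w y_v` -/
  xy : W → V → K

namespace Mdl

variable {K W V : Type*} [Field K]

instance : Zero (Mdl K W V) := ⟨⟨0, 0, 0, 0⟩⟩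
instance : One (Mdl K W V) := ⟨⟨1, 0, 0, 0⟩⟩
instance : Add (Mdl K W V) := ⟨fun a b => ⟨a.c + b.c, a.x + b.x, a.y + b.y, a.xy + b.xy⟩⟩
instance : Neg (Mdl K W V) := ⟨fun a => ⟨-a.c, -a.x, -a.y, -a.xy⟩⟩
instance : Sub (Mdl K W V) := ⟨fun a b => ⟨a.c - b.c, a.x - b.x, a.y - b.y, a.xy - b.xy⟩⟩
instance : SMul ℕ (Mdl K W V) := ⟨fun n a => ⟨n • a.c, n • a.x, n • a.y, n • a.xy⟩⟩
instance : SMul ℤ (Mdl K W V) := ⟨fun n a => ⟨n • a.c, n • a.x, n • a.y, n • a.xy⟩⟩
instance : Mul (Mdl K W V) := ⟨fun a b =>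
  ⟨a.c * b.c, fun w => a.c * b.x w + a.x w * b.c, fun v => a.c * b.y v + a.y v * b.c,
    fun w v => a.c * b.xy w v + a.xy w v * b.c + a.x w * b.y v + a.y v * b.x w⟩⟩

@[simp] theorem c_zero : (0 : Mdl K W V).c = 0 := rfl
@[simp] theorem x_zero (w : W) : (0 : Mdl K W V).x w = 0 := rfl
@[simp] theorem y_zero (v : V) : (0 : Mdl K W V).y v = 0 := rfl
@[simp] theorem xy_zero (w : W) (v : V) : (0 : Mdl K W V).xy w v = 0 := rfl
@[simp] theorem c_one : (1 : Mdl K W V).c = 1 := rfl
@[simp] theorem x_one (w : W) : (1 : Mdl K W V).x w = 0 := rfl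
@[simp] theorem y_one (v : V) : (1 : Mdl K W V).y v = 0 := rfl
@[simp] theorem xy_one (w : W) (v : V) : (1 : Mdl K W V).xy w v = 0 := rfl
@[simp] theorem c_add (a b : Mdl K W V) : (a + b).c = a.c + b.c := rfl
@[simp] theorem x_add (a b : Mdl K W V) (w : W) : (a + b).x w = a.x w + b.x w := rfl
@[simp] theorem y_add (a b : Mdl K W V) (v : V) : (a + b).y v = a.y v + b.y v := rfl
@[simp] theorem xy_add (a b : Mdl K W V) (w : W) (v : V) :
    (a + b).xy w v = a.xy w v + b.xy w v := rfl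
@[simp] theorem c_neg (a : Mdl K W V) : (-a).c = -a.c := rfl
@[simp] theorem x_neg (a : Mdl K W V) (w : W) : (-a).x w = -a.x w := rfl
@[simp] theorem y_neg (a : Mdl K W V) (v : V) : (-a).y v = -a.y v := rfl
@[simp] theorem xy_neg (a : Mdl K W V) (w : W) (v : V) : (-a).xy w v = -a.xy w v := rfl
@[simp] theorem c_sub (a b : Mdl K W V) : (a - b).c = a.c - b.c := rfl
@[simp] theorem x_sub (a b : Mdl K W V) (w : W) : (a - b).x w = a.x w - b.x w := rfl
@[simp] theorem y_sub (a b : Mdl K W V) (v : V) : (a - b).y v = a.y v - b.y v := rfl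
@[simp] theorem xy_sub (a b : Mdl K W V) (w : W) (v : V) :
    (a - b).xy w v = a.xy w v - b.xy w v := rfl
@[simp] theorem c_mul (a b : Mdl K W V) : (a * b).c = a.c * b.c := rfl
@[simp] theorem x_mul (a b : Mdl K W V) (w : W) :
    (a * b).x w = a.c * b.x w + a.x w * b.c := rfl
@[simp] theorem y_mul (a b : Mdl K W V) (v : V) :
    (a * b).y v = a.c * b.y v + a.y v * b.c := rfl
@[simp] theorem xy_mul (a b : Mdl K W V) (w : W) (v : V) :
    (a * b).xy w v = a.c * b.xy w v + a.xy w v * b.c + a.x w * b.y v + a.y v * b.x w := rfl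

/-- The model as a plain product (additively). -/
def toProd (a : Mdl K W V) : K × (W → K) × (V → K) × (W → V → K) := (a.c, a.x, a.y, a.xy)

theorem toProd_injective : Function.Injective (toProd : Mdl K W V → _) := by
  intro a b h
  simp only [toProd, Prod.mk.injEq] at h
  ext1
  · exact h.1
  · exact h.2.1
  · exact h.2.2.1
  · exact h.2.2.2

instance : AddCommGroup (Mdl K W V) :=
  toProd_injective.addCommGroup toProd rfl (fun _ _ => rfl) (fun _ => rfl) (fun _ _ => rfl)
    (fun _ _ => rfl) (fun _ _ => rfl)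

@[ext]
theorem ext' {a b : Mdl K W V} (h1 : a.c = b.c) (h2 : ∀ w, a.x w = b.x w)
    (h3 : ∀ v, a.y v = b.y v) (h4 : ∀ w v, a.xy w v = b.xy w v) : a = b :=
  Mdl.ext h1 (funext h2) (funext h3) (funext fun w => funext (h4 w))

instance : CommRing (Mdl K W V) :=
  { (inferInstance : AddCommGroup (Mdl K W V)) with
    mul := (· * ·)
    one := 1
    left_distrib := fun a b c => by
      apply ext' <;> intros <;> simp <;> ring
    right_distrib := fun a b c => by
      apply ext' <;> intros <;> simp <;> ring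
    zero_mul := fun a => by
      apply ext' <;> intros <;> simp
    mul_zero := fun a => by
      apply ext' <;> intros <;> simp
    mul_assoc := fun a b c => by
      apply ext' <;> intros <;> simp <;> ring
    one_mul := fun a => by
      apply ext' <;> intros <;> simp
    mul_one := fun a => by
      apply ext' <;> intros <;> simp
    mul_comm := fun a b => by
      apply ext' <;> intros <;> simp <;> ring }

/-- coordinates as additive maps -/
def cHom : Mdl K W V →+ K := ⟨⟨Mdl.c, rfl⟩, fun _ _ => rfl⟩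
/-- coordinates as additive maps -/
def xHom (w : W) : Mdl K W V →+ K := ⟨⟨fun a => a.x w, rfl⟩, fun _ _ => rfl⟩
/-- coordinates as additive maps -/
def yHom (v : V) : Mdl K W V →+ K := ⟨⟨fun a => a.y v, rfl⟩, fun _ _ => rfl⟩
/-- coordinates as additive maps -/
def xyHom (w : W) (v : V) : Mdl K W V →+ K := ⟨⟨fun a => a.xy w v, rfl⟩, fun _ _ => rfl⟩

@[simp] theorem c_sum {ι : Type*} (s : Finset ι) (f : ι → Mdl K W V) :
    (∑ i ∈ s, f i).c = ∑ i ∈ s, (f i).c := map_sum cHom f s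
@[simp] theorem x_sum {ι : Type*} (s : Finset ι) (f : ι → Mdl K W V) (w : W) :
    (∑ i ∈ s, f i).x w = ∑ i ∈ s, (f i).x w := map_sum (xHom w) f s
@[simp] theorem y_sum {ι : Type*} (s : Finset ι) (f : ι → Mdl K W V) (v : V) :
    (∑ i ∈ s, f i).y v = ∑ i ∈ s, (f i).y v := map_sum (yHom v) f s
@[simp] theorem xy_sum {ι : Type*} (s : Finset ι) (f : ι → Mdl K W V) (w : W) (v : V) :
    (∑ i ∈ s, f i).xy w v = ∑ i ∈ s, (f i).xy w v := map_sum (xyHom w v) f s

/-- scalars -/
def sc (a : K) : Mdl K W V := ⟨a, 0, 0, 0⟩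

@[simp] theorem c_sc (a : K) : (sc a : Mdl K W V).c = a := rfl
@[simp] theorem x_sc (a : K) (w : W) : (sc a : Mdl K W V).x w = 0 := rfl
@[simp] theorem y_sc (a : K) (v : V) : (sc a : Mdl K W V).y v = 0 := rfl
@[simp] theorem xy_sc (a : K) (w : W) (v : V) : (sc a : Mdl K W V).xy w v = 0 := rfl

/-- the linear forms -/
def lin (a : W → K) (b : V → K) : Mdl K W V := ⟨0, a, b, 0⟩

@[simp] theorem c_lin (a : W → K) (b : V → K) : (lin a b : Mdl K W V).c = 0 := rfl
@[simp] theorem x_lin (a : W → K) (b : V → K) (w : W) : (lin a b : Mdl K W V).x w = a w := rfl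
@[simp] theorem y_lin (a : W → K) (b : V → K) (v : V) : (lin a b : Mdl K W V).y v = b v := rfl
@[simp] theorem xy_lin (a : W → K) (b : V → K) (w : W) (v : V) :
    (lin a b : Mdl K W V).xy w v = 0 := rfl

end Mdl

end Pool.Agent.H.MP_fc7d68_al
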