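import Pool.Agent.H.MP_fc7d68_al.Ring
import Pool.Agent.H.MP_fc7d68_al.LinRes2

/-!
Presentations of the modules and of the residue field.
-/

set_option linter.unusedSimpArgs false
set_option linter.unusedSectionVars false

namespace Pool.Agent.H.MP_fc7d68_al

open MvPolynomial Mdl

section

variable {K W V : Type*} [Field K] [Fintype W] [Fintype V] [DecidableEq W] [DecidableEq V]
  {P0 P1 : Type*} [Fintype P0] [Fintype P1] [DecidableEq P0] [DecidableEq P1]

/-- kernel condition -/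
def KCond (φW : W → Matrix P1 P0 K) (φV : V → Matrix P1 P0 K) (v : P0 → Mdl K W V) : Prop :=
  (∀ ν, (v ν).c = 0) ∧
    ∑ w, (φW w).mulVecLin (fun ν => (v ν).x w) + ∑ y, (φV y).mulVecLin (fun ν => (v ν).y y) = 0

theorem KCond.add {φW : W → Matrix P1 P0 K} {φV : V → Matrix P1 P0 K} {u v : P0 → Mdl K W V}
    (hu : KCond φW φV u) (hv : KCond φW φV v) : KCond φW φV (u + v) := by
  refine ⟨fun ν => by simp [hu.1, hv.1], ?_⟩
  have h1 : ∀ w, (fun ν => ((u + v) ν).x w) = (fun ν => (u ν).x w) + fun ν => (v ν).x w :=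
    fun w => rfl
  have h2 : ∀ w, (fun ν => ((u + v) ν).y w) = (fun ν => (u ν).y w) + fun ν => (v ν).y w :=
    fun w => rfl
  simp only [h1, h2, map_add, Finset.sum_add_distrib]
  have := congrArg₂ (· + ·) hu.2 hv.2
  simp only [add_zero] at this
  rw [← this]
  abel

theorem KCond.smul {φW : W → Matrix P1 P0 K} {φV : V → Matrix P1 P0 K} {v : P0 → Mdl K W V}
    (hv : KCond φW φV v) (r : Mdl K W V) : KCond φW φV (fun ν => r * v ν) := by
  refine ⟨fun ν => by simp [hv.1], ?_⟩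
  have h1 : ∀ w, (fun ν => (r * v ν).x w) = r.c • (fun ν => (v ν).x w) := by
    intro w; funext ν; simp [hv.1]
  have h2 : ∀ w, (fun ν => (r * v ν).y w) = r.c • (fun ν => (v ν).y w) := by
    intro w; funext ν; simp [hv.1]
  simp only [h1, h2, map_smul, ← Finset.smul_sum, ← smul_add, hv.2, smul_zero]

theorem KCond.zero {φW : W → Matrix P1 P0 K} {φV : V → Matrix P1 P0 K} :
    KCond φW φV (0 : P0 → Mdl K W V) := by
  refine ⟨fun ν => rfl, ?_⟩
  have h1 : ∀ w, (fun ν => ((0 : P0 → Mdl K W V) ν).x w) = 0 := fun w => rfl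
  have h2 : ∀ w, (fun ν => ((0 : P0 → Mdl K W V) ν).y w) = 0 := fun w => rfl
  simp only [h1, h2, map_zero, Finset.sum_const_zero, add_zero]

theorem KCond_deg_two {φW : W → Matrix P1 P0 K} {φV : V → Matrix P1 P0 K}
    {v : P0 → Mdl K W V} (h : ∀ ν, (v ν).c = 0 ∧ (∀ w, (v ν).x w = 0) ∧ ∀ y, (v ν).y y = 0) :
    KCond φW φV v := by
  refine ⟨fun ν => (h ν).1, ?_⟩
  have h1 : ∀ w, (fun ν => (v ν).x w) = 0 := fun w => funext fun ν => (h ν).2.1 w
  have h2 : ∀ w, (fun ν => (v ν).y w) = 0 := fun w => funext fun ν => (h ν).2.2 w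
  simp [h1, h2]

/-- the matrix of a letter -/
def phi (φW : W → Matrix P1 P0 K) (φV : V → Matrix P1 P0 K) : W ⊕ V → Matrix P1 P0 K :=
  Sum.elim φW φV

theorem KCond_iff_phi {φW : W → Matrix P1 P0 K} {φV : V → Matrix P1 P0 K}
    {v : P0 → Mdl K W V} :
    KCond φW φV v ↔ (∀ ν, (v ν).c = 0) ∧
      ∀ μ, ∑ w, ∑ ν, φW w μ ν * (v ν).x w + ∑ y, ∑ ν, φV y μ ν * (v ν).y y = 0 := by
  rw [KCond, funext_iff]
  simp only [Pi.add_apply, Finset.sum_apply, Matrix.mulVecLin_apply, Matrix.mulVec, dotProduct,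
    Pi.zero_apply]

theorem mem_of_KCond_aux {R : Type*} [CommRing R] (κ : K →+* R) (xz : W ⊕ V → R)
    (e : R → Mdl K W V)
    (he : ∀ r, r = κ (e r).c + ∑ w, κ ((e r).x w) * xz (.inl w) + ∑ v, κ ((e r).y v) * xz (.inr v)
      + ∑ w, ∑ v, κ ((e r).xy w v) * (xz (.inl w) * xz (.inr v)))
    (φW : W → Matrix P1 P0 K) (φV : V → Matrix P1 P0 K)
    (defz : P1 → (W ⊕ V) × P0) (N : Submodule R (P0 → R))
    (hb : ∀ z z' ν, (Pi.single ν (xz z * xz z') : P0 → R) ∈ N)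
    (hc : ∀ z ν, (Pi.single ν (xz z) : P0 → R) -
      ∑ μ, κ (phi φW φV z μ ν) • (Pi.single (defz μ).2 (xz (defz μ).1) : P0 → R) ∈ N)
    (v : P0 → R) (hv : KCond φW φV (fun ν => e (v ν))) :
    v ∈ N := by
  rw [KCond_iff_phi] at hv
  rw [← Submodule.Quotient.mk_eq_zero]
  change N.mkQ v = 0
  have hc' : ∀ z ν, N.mkQ (Pi.single ν (xz z)) =
      ∑ μ, κ (phi φW φV z μ ν) • N.mkQ (Pi.single (defz μ).2 (xz (defz μ).1)) := by
    intro z ν
    have h1 := hc z ν
    rw [← Submodule.Quotient.mk_eq_zero] at h1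
    change N.mkQ _ = 0 at h1
    rw [map_sub, sub_eq_zero, map_sum] at h1
    rw [h1]
    simp only [map_smul]
  obtain ⟨dv, hdv⟩ : ∃ dv : P1 → (P0 → R) ⧸ N, ∀ z ν, N.mkQ (Pi.single ν (xz z)) =
      ∑ μ, κ (phi φW φV z μ ν) • dv μ := ⟨_, hc'⟩
  have hs : ∀ (ν : P0) (r s : R), (Pi.single ν (r * s) : P0 → R) = r • Pi.single ν s := by
    intro ν r s
    funext k
    simp [Pi.single_apply]
  have hb' : ∀ z z' ν, xz z • N.mkQ (Pi.single ν (xz z')) = 0 := by
    intro z z' ν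
    rw [← map_smul, ← hs]
    exact (Submodule.Quotient.mk_eq_zero _).2 (hb z z' ν)
  have hadd : ∀ (ν : P0) (r s : R), (Pi.single ν (r + s) : P0 → R) =
      Pi.single ν r + Pi.single ν s := by
    intro ν r s
    exact map_add (AddMonoidHom.single (fun _ : P0 => R) ν) r s
  have hsumW : ∀ (ν : P0) (f : W → R),
      (Pi.single ν (∑ i, f i) : P0 → R) = ∑ i, Pi.single ν (f i) := by
    intro ν f
    exact map_sum (AddMonoidHom.single (fun _ : P0 => R) ν) f Finset.univ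
  have hsumV : ∀ (ν : P0) (f : V → R),
      (Pi.single ν (∑ i, f i) : P0 → R) = ∑ i, Pi.single ν (f i) := by
    intro ν f
    exact map_sum (AddMonoidHom.single (fun _ : P0 => R) ν) f Finset.univ
  have hexp : v = ∑ ν, (Pi.single ν (v ν) : P0 → R) := by
    funext k
    simp [Finset.sum_apply, Pi.single_apply]
  have hν : ∀ ν, N.mkQ (Pi.single ν (v ν)) =
      ∑ w, ∑ μ, (κ ((e (v ν)).x w) * κ (φW w μ ν)) • dv μ +
      ∑ y, ∑ μ, (κ ((e (v ν)).y y) * κ (φV y μ ν)) • dv μ := by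
    intro ν
    conv_lhs => rw [he (v ν)]
    rw [hv.1 ν]
    simp only [map_zero, zero_add, hadd, hsumW, hsumV, hs, map_add, map_sum, map_smul]
    simp only [hb', smul_zero, Finset.sum_const_zero, add_zero]
    simp only [hdv, phi, Sum.elim_inl, Sum.elim_inr, Finset.smul_sum, smul_smul]
  rw [hexp, map_sum]
  simp only [hν, Finset.sum_add_distrib]
  have e1 : ∑ ν, ∑ w, ∑ μ, (κ ((e (v ν)).x w) * κ (φW w μ ν)) • dv μ =
      ∑ μ, κ (∑ w, ∑ ν, φW w μ ν * (e (v ν)).x w) • dv μ := by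
    simp only [map_sum, Finset.sum_smul]
    rw [Finset.sum_comm]
    rw [Finset.sum_comm (s := (Finset.univ : Finset P1))]
    apply Finset.sum_congr rfl
    intro w _
    rw [Finset.sum_comm]
    apply Finset.sum_congr rfl
    intro μ _
    apply Finset.sum_congr rfl
    intro ν _
    rw [map_mul, mul_comm]
  have e2 : ∑ ν, ∑ w, ∑ μ, (κ ((e (v ν)).y w) * κ (φV w μ ν)) • dv μ =
      ∑ μ, κ (∑ w, ∑ ν, φV w μ ν * (e (v ν)).y w) • dv μ := by
    simp only [map_sum, Finset.sum_smul]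
    rw [Finset.sum_comm]
    rw [Finset.sum_comm (s := (Finset.univ : Finset P1))]
    apply Finset.sum_congr rfl
    intro w _
    rw [Finset.sum_comm]
    apply Finset.sum_congr rfl
    intro μ _
    apply Finset.sum_congr rfl
    intro ν _
    rw [map_mul, mul_comm]
  rw [e1, e2, ← Finset.sum_add_distrib]
  apply Finset.sum_eq_zero
  intro μ _
  rw [← add_smul, ← map_add, hv.2 μ, map_zero, zero_smul]

variable {n : ℕ} (eZ : W ⊕ V ≃ Fin n) {I : Ideal (MvPolynomial (Fin n) K)}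

theorem mem_of_KCond (hI : IsGoodIdeal eZ I) (φW : W → Matrix P1 P0 K) (φV : V → Matrix P1 P0 K)
    (defz : P1 → (W ⊕ V) × P0) (N : Submodule (MvPolynomial (Fin n) K ⧸ I)
      (P0 → MvPolynomial (Fin n) K ⧸ I))
    (hb : ∀ z z' ν, (Pi.single ν (Ideal.Quotient.mk I (X (eZ z)) * Ideal.Quotient.mk I (X (eZ z')))
      : P0 → MvPolynomial (Fin n) K ⧸ I) ∈ N)
    (hc : ∀ z ν, (Pi.single ν (Ideal.Quotient.mk I (X (eZ z))) : P0 → MvPolynomial (Fin n) K ⧸ I) -
      ∑ μ, Ideal.Quotient.mk I (C (phi φW φV z μ ν)) •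
        (Pi.single (defz μ).2 (Ideal.Quotient.mk I (X (eZ (defz μ).1))) :
          P0 → MvPolynomial (Fin n) K ⧸ I) ∈ N)
    (v : P0 → MvPolynomial (Fin n) K ⧸ I) (hv : KCond φW φV (fun ν => isoR eZ hI (v ν))) :
    v ∈ N := by
  refine mem_of_KCond_aux ((Ideal.Quotient.mk I).comp C) (fun z => Ideal.Quotient.mk I (X (eZ z)))
    (isoR eZ hI) ?_ φW φV defz N hb hc v hv
  intro r
  have h1 : r = secR eZ I (isoR eZ hI r) := by
    rw [← isoR_symm eZ hI, RingEquiv.symm_apply_apply]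
  exact h1

end

end Pool.Agent.H.MP_fc7d68_al
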