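import Pool.Agent.H.MP_fc7d68_al.Model

/-!
The quotient `K[X]/((x)^2 + (y)^2)` is isomorphic to the model ring.
-/

set_option linter.unusedSimpArgs false
set_option linter.unusedSectionVars false

namespace Pool.Agent.H.MP_fc7d68_al

open MvPolynomial Mdl

section

variable {K W V : Type*} [Field K] [Fintype W] [Fintype V] [DecidableEq W] [DecidableEq V]

/-- scalars as a ring homomorphism -/
def scHom : K →+* Mdl K W V where
  toFun := sc
  map_one' := rfl
  map_mul' a b := by apply ext' <;> intros <;> simp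
  map_zero' := rfl
  map_add' a b := by apply ext' <;> intros <;> simp

@[simp] theorem scHom_apply (a : K) : (scHom a : Mdl K W V) = sc a := rfl

/-- the generators of the model ring -/
def gen : W ⊕ V → Mdl K W V
  | .inl w => lin (Pi.single w 1) 0
  | .inr v => lin 0 (Pi.single v 1)

@[simp] theorem gen_c (z : W ⊕ V) : (gen z : Mdl K W V).c = 0 := by cases z <;> rfl
@[simp] theorem gen_xy (z : W ⊕ V) (w : W) (v : V) : (gen z : Mdl K W V).xy w v = 0 := by
  cases z <;> rfl
@[simp] theorem gen_inl_x (w w' : W) :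
    (gen (.inl w) : Mdl K W V).x w' = (Pi.single w (1 : K) : W → K) w' := rfl
@[simp] theorem gen_inr_x (v : V) (w' : W) : (gen (.inr v) : Mdl K W V).x w' = 0 := rfl
@[simp] theorem gen_inr_y (v v' : V) :
    (gen (.inr v) : Mdl K W V).y v' = (Pi.single v (1 : K) : V → K) v' := rfl
@[simp] theorem gen_inl_y (w : W) (v' : V) : (gen (.inl w) : Mdl K W V).y v' = 0 := rfl

theorem gen_ww (w w' : W) : (gen (.inl w) * gen (.inl w') : Mdl K W V) = 0 := by
  apply ext' <;> intros <;> simp

theorem gen_vv (v v' : V) : (gen (.inr v) * gen (.inr v') : Mdl K W V) = 0 := by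
  apply ext' <;> intros <;> simp

variable {n : ℕ} (eZ : W ⊕ V ≃ Fin n)

variable (K) in
/-- evaluation of polynomials in the model ring -/
noncomputable def ev : MvPolynomial (Fin n) K →+* Mdl K W V :=
  MvPolynomial.eval₂Hom scHom (fun i => gen (eZ.symm i))

@[simp] theorem ev_C (a : K) : ev K eZ (C a) = sc a := by
  simp [ev]

@[simp] theorem ev_X (i : Fin n) : ev K eZ (X i) = gen (eZ.symm i) := by
  simp [ev]

/-- hypotheses identifying the ideal `(x)^2 + (y)^2` -/
structure IsGoodIdeal (I : Ideal (MvPolynomial (Fin n) K)) : Prop where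
  le : ∀ p ∈ I, ev K eZ p = 0
  ww : ∀ w w', (X (eZ (.inl w)) * X (eZ (.inl w')) : MvPolynomial (Fin n) K) ∈ I
  vv : ∀ v v', (X (eZ (.inr v)) * X (eZ (.inr v')) : MvPolynomial (Fin n) K) ∈ I

variable {I : Ideal (MvPolynomial (Fin n) K)}

variable (I) in
/-- the section from the model ring -/
noncomputable def secR (a : Mdl K W V) : MvPolynomial (Fin n) K ⧸ I :=
  Ideal.Quotient.mk I (C a.c)
    + ∑ w, Ideal.Quotient.mk I (C (a.x w)) * Ideal.Quotient.mk I (X (eZ (.inl w)))
    + ∑ v, Ideal.Quotient.mk I (C (a.y v)) * Ideal.Quotient.mk I (X (eZ (.inr v)))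
    + ∑ w, ∑ v, Ideal.Quotient.mk I (C (a.xy w v)) *
      (Ideal.Quotient.mk I (X (eZ (.inl w))) * Ideal.Quotient.mk I (X (eZ (.inr v))))

theorem secR_add (a b : Mdl K W V) : secR eZ I (a + b) = secR eZ I a + secR eZ I b := by
  simp only [secR, c_add, x_add, y_add, xy_add, map_add, add_mul, Finset.sum_add_distrib]
  abel

theorem secR_mul_gen (hI : IsGoodIdeal eZ I) (a : Mdl K W V) (z : W ⊕ V) :
    secR eZ I (a * gen z) = secR eZ I a * Ideal.Quotient.mk I (X (eZ z)) := by
  have hww : ∀ w w', Ideal.Quotient.mk I (X (eZ (.inl w))) *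
      Ideal.Quotient.mk I (X (eZ (.inl w'))) = 0 := by
    intro w w'
    rw [← map_mul, Ideal.Quotient.eq_zero_iff_mem]
    exact hI.ww w w'
  have hvv : ∀ v v', Ideal.Quotient.mk I (X (eZ (.inr v))) *
      Ideal.Quotient.mk I (X (eZ (.inr v'))) = 0 := by
    intro w w'
    rw [← map_mul, Ideal.Quotient.eq_zero_iff_mem]
    exact hI.vv w w'
  rcases z with w | v
  · simp only [secR, add_mul, Finset.sum_mul]
    have h1 : ∀ w', Ideal.Quotient.mk I (C (a.x w')) * Ideal.Quotient.mk I (X (eZ (.inl w'))) *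
        Ideal.Quotient.mk I (X (eZ (.inl w))) = 0 := by
      intro w'
      rw [mul_assoc, hww, mul_zero]
    have h2 : ∀ w' v, Ideal.Quotient.mk I (C (a.xy w' v)) *
        (Ideal.Quotient.mk I (X (eZ (.inl w'))) * Ideal.Quotient.mk I (X (eZ (.inr v)))) *
        Ideal.Quotient.mk I (X (eZ (.inl w))) = 0 := by
      intro w' v
      rw [mul_assoc, mul_right_comm, hww, zero_mul, mul_zero]
    simp only [h1, h2, Finset.sum_const_zero, add_zero]
    simp only [c_mul, gen_c, mul_zero, map_zero, zero_add, x_mul, add_zero, gen_inl_x, y_mul,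
      gen_inl_y, xy_mul, gen_xy, zero_mul, Finset.sum_const_zero]
    congr 1
    · rw [Finset.sum_eq_single w]
      · simp
      · intro w' _ hw'
        simp [hw']
      · intro h; exact absurd (Finset.mem_univ _) h
    · rw [Finset.sum_eq_single w]
      · apply Finset.sum_congr rfl
        intro v _
        simp only [Pi.single_eq_same, mul_one]
        ring
      · intro w' _ hw'
        apply Finset.sum_eq_zero
        intro v _
        simp [hw']
      · intro h; exact absurd (Finset.mem_univ _) h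
  · simp only [secR, add_mul, Finset.sum_mul]
    have h1 : ∀ v', Ideal.Quotient.mk I (C (a.y v')) * Ideal.Quotient.mk I (X (eZ (.inr v'))) *
        Ideal.Quotient.mk I (X (eZ (.inr v))) = 0 := by
      intro w'
      rw [mul_assoc, hvv, mul_zero]
    have h2 : ∀ w' v', Ideal.Quotient.mk I (C (a.xy w' v')) *
        (Ideal.Quotient.mk I (X (eZ (.inl w'))) * Ideal.Quotient.mk I (X (eZ (.inr v')))) *
        Ideal.Quotient.mk I (X (eZ (.inr v))) = 0 := by
      intro w' v'
      rw [mul_assoc, mul_assoc, hvv, mul_zero, mul_zero]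
    simp only [h1, h2, Finset.sum_const_zero, add_zero]
    simp only [c_mul, gen_c, mul_zero, map_zero, zero_add, x_mul, add_zero, gen_inr_x, y_mul,
      gen_inr_y, xy_mul, gen_xy, zero_mul, Finset.sum_const_zero]
    congr 1
    · rw [Finset.sum_eq_single v]
      · simp
      · intro w' _ hw'
        simp [hw']
      · intro h; exact absurd (Finset.mem_univ _) h
    · apply Finset.sum_congr rfl
      intro w _
      rw [Finset.sum_eq_single v]
      · simp only [Pi.single_eq_same, mul_one]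
        ring
      · intro v' _ hw'
        simp [hw']
      · intro h; exact absurd (Finset.mem_univ _) h

theorem secR_ev (hI : IsGoodIdeal eZ I) (p : MvPolynomial (Fin n) K) :
    secR eZ I (ev K eZ p) = Ideal.Quotient.mk I p := by
  induction p using MvPolynomial.induction_on with
  | C a => simp [secR]
  | add p q hp hq => rw [map_add, secR_add, hp, hq, map_add]
  | mul_X p i hp =>
    rw [map_mul, ev_X, secR_mul_gen eZ hI, hp, map_mul, Equiv.apply_symm_apply]

/-- the ring isomorphism -/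
noncomputable def isoR (hI : IsGoodIdeal eZ I) : (MvPolynomial (Fin n) K ⧸ I) ≃+* Mdl K W V :=
  { (Ideal.Quotient.lift I (ev K eZ) hI.le : (MvPolynomial (Fin n) K ⧸ I) →+* Mdl K W V) with
    invFun := secR eZ I
    left_inv := by
      intro r
      obtain ⟨p, rfl⟩ := Ideal.Quotient.mk_surjective r
      exact secR_ev eZ hI p
    right_inv := by
      intro a
      change Ideal.Quotient.lift I (ev K eZ) hI.le (secR eZ I a) = a
      simp only [secR, map_add, map_sum, map_mul, Ideal.Quotient.lift_mk, ev_C, ev_X,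
        Equiv.symm_apply_apply]
      apply ext'
      · simp
      · intro w
        simp [Finset.sum_apply, Pi.single_apply]
      · intro v
        simp [Finset.sum_apply, Pi.single_apply]
      · intro w v
        simp [Finset.sum_apply, Pi.single_apply] }

@[simp] theorem isoR_mk (hI : IsGoodIdeal eZ I) (p : MvPolynomial (Fin n) K) :
    isoR eZ hI (Ideal.Quotient.mk I p) = ev K eZ p := rfl

theorem isoR_symm (hI : IsGoodIdeal eZ I) (a : Mdl K W V) :
    (isoR eZ hI).symm a = secR eZ I a := rfl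

theorem isoR_symm_sc (hI : IsGoodIdeal eZ I) (a : K) :
    (isoR eZ hI).symm (sc a) = Ideal.Quotient.mk I (C a) := by
  rw [RingEquiv.symm_apply_eq, isoR_mk, ev_C]

/-! ### Homogeneous polynomials -/

theorem exists_single_add {m : Fin n →₀ ℕ} {d : ℕ} (hm : m.degree = d + 1) :
    ∃ i m', m = Finsupp.single i 1 + m' ∧ m'.degree = d := by
  have : m ≠ 0 := by
    rintro rfl
    simp at hm
  obtain ⟨i, hi⟩ := Finsupp.ne_iff.1 this
  have hle : Finsupp.single i 1 ≤ m := by
    rw [Finsupp.single_le_iff]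
    exact Nat.one_le_iff_ne_zero.2 hi
  refine ⟨i, m - Finsupp.single i 1, (add_tsub_cancel_of_le hle).symm, ?_⟩
  have h2 := congrArg Finsupp.degree (add_tsub_cancel_of_le hle)
  rw [map_add, Finsupp.degree_single, hm] at h2
  omega

theorem homogeneous_induction {A : Type*} [AddCommMonoid A] (f : MvPolynomial (Fin n) K →+ A)
    (S : AddSubmonoid A) {d : ℕ} (h : ∀ m : Fin n →₀ ℕ, m.degree = d → ∀ a, f (monomial m a) ∈ S)
    (p : MvPolynomial (Fin n) K) (hp : p.IsHomogeneous d) : f p ∈ S := by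
  rw [MvPolynomial.as_sum p, map_sum]
  apply AddSubmonoid.sum_mem
  intro m hm
  apply h
  by_contra hne
  exact (mem_support_iff.1 hm) (hp.coeff_eq_zero hne)

theorem ev_monomial_succ {m : Fin n →₀ ℕ} {d : ℕ} (hm : m.degree = d + 1) (a : K) :
    ∃ z m', m'.degree = d ∧ ev K eZ (monomial m a) = gen z * ev K eZ (monomial m' a) := by
  obtain ⟨i, m', rfl, hm'⟩ := exists_single_add hm
  refine ⟨eZ.symm i, m', hm', ?_⟩
  rw [← ev_X, ← map_mul, MvPolynomial.X, monomial_mul, one_mul]

theorem ev_deg_one (p : MvPolynomial (Fin n) K) (hp : p.IsHomogeneous 1) :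
    (ev K eZ p).c = 0 ∧ ∀ w v, (ev K eZ p).xy w v = 0 := by
  let S : AddSubmonoid (Mdl K W V) :=
    { carrier := {a | a.c = 0 ∧ ∀ w v, a.xy w v = 0}
      add_mem' := by
        rintro a b ⟨h1, h2⟩ ⟨h3, h4⟩
        exact ⟨by simp [h1, h3], fun w v => by simp [h2, h4]⟩
      zero_mem' := by simp }
  refine homogeneous_induction (ev K eZ).toAddMonoidHom S (d := 1) ?_ p hp
  intro m hm a
  obtain ⟨z, m', hm', h⟩ := ev_monomial_succ eZ (d := 0) hm a
  have h0 : m' = 0 := by
    rwa [Finsupp.degree_eq_zero_iff] at hm'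
  change ev K eZ (monomial m a) ∈ S
  rw [h, h0]
  change (gen z * ev K eZ (C a)).c = 0 ∧ ∀ w v, (gen z * ev K eZ (C a)).xy w v = 0
  rw [ev_C]
  simp

theorem ev_deg_two (p : MvPolynomial (Fin n) K) {d : ℕ} (hd : 1 < d) (hp : p.IsHomogeneous d) :
    (ev K eZ p).c = 0 ∧ (∀ w, (ev K eZ p).x w = 0) ∧ ∀ v, (ev K eZ p).y v = 0 := by
  let S : AddSubmonoid (Mdl K W V) :=
    { carrier := {a | a.c = 0 ∧ (∀ w, a.x w = 0) ∧ ∀ v, a.y v = 0}
      add_mem' := by
        rintro a b ⟨h1, h2, h3⟩ ⟨h4, h5, h6⟩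
        exact ⟨by simp [h1, h4], fun w => by simp [h2, h5], fun v => by simp [h3, h6]⟩
      zero_mem' := by simp }
  obtain ⟨d, rfl⟩ : ∃ d', d = d' + 2 := ⟨d - 2, by omega⟩
  refine homogeneous_induction (ev K eZ).toAddMonoidHom S (d := d + 2) ?_ p hp
  intro m hm a
  obtain ⟨z, m', hm', h⟩ := ev_monomial_succ eZ (d := d + 1) hm a
  obtain ⟨z', m'', hm'', h'⟩ := ev_monomial_succ eZ (d := d) hm' a
  change ev K eZ (monomial m a) ∈ S
  rw [h, h']
  change (gen z * (gen z' * ev K eZ (monomial m'' a))).c = 0 ∧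
    (∀ w, (gen z * (gen z' * ev K eZ (monomial m'' a))).x w = 0) ∧
    ∀ v, (gen z * (gen z' * ev K eZ (monomial m'' a))).y v = 0
  simp

theorem deg_zero_iff (p : MvPolynomial (Fin n) K) :
    p.IsHomogeneous 0 ↔ ∃ a, p = C a := by
  constructor
  · intro h
    refine ⟨coeff 0 p, ?_⟩
    exact (totalDegree_eq_zero_iff_eq_C).1 ((totalDegree_zero_iff_isHomogeneous _).2 h)
  · rintro ⟨a, rfl⟩
    exact isHomogeneous_C _ _

end

end Pool.Agent.H.MP_fc7d68_al
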